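import Pool.Agent.EFC.Basic

/-!
# Basic properties of the classes `TN` and `AN`

Adapt `Pool/Agent/TInf/GeoBasic.lean` and `Pool/Agent/TInf/GeoAN.lean`.
-/

set_option autoImplicit false

noncomputable section

namespace Pool.Agent.EFC

open Pool.Agent.ZCyc
open Pool.Agent.VFP (Om tt)

variable {k : Type} [Field k] [IsAlgClosed k] [CharZero k] {X : EC k} {n : ℕ}

/-- the class does not depend on the homogeneous coordinates (constant families, `bridgeP`) -/
theorem clP_scale {m : Fin n → Fin X.N → k} (hm : ∀ j i, m j i ≠ 0) {w : Fin n → Crd X}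
    (hw : ∀ j, (w j).On) : clP (X.pow n) (X.tup fun j => (w j).scale (m j)) =
      clP (X.pow n) (X.tup w) := by
  refine bridgeP (X := X.pow n) (I := Unit) (fun _ => 1)
    (fun _ => X.tupO fun j => (w j).cst) (fun _ j => ⟨rfl, on_cst (hw j)⟩) 0 0 _ _ ?_ ?_
  · intro v _
    refine ⟨fun _ => X.tup fun j => (w j).scale (m j),
      fun _ => onP_tup fun j => on_scale (hm j) (hw j),
      fun _ j => isVal_tup (fun j => isValue_scale (hm j) (isValue_cst v (w j))) j, ?_⟩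
    simp
  · intro v _
    refine ⟨fun _ => X.tup w, fun _ => onP_tup hw,
      fun _ j => isVal_tup (fun j => isValue_cst v (w j)) j, ?_⟩
    simp

omit [IsAlgClosed k] [CharZero k] in
private theorem snN_mul' {r : ℕ} (ε ε' : Fin n → Fin r → ℤˣ) :
    snN (ε * ε') = snN ε * snN ε' := by
  unfold snN
  rw [← Finset.prod_mul_distrib]
  exact Finset.prod_congr rfl fun j _ => sn_mul (ε j) (ε' j)

private theorem snN_sq' {r : ℕ} (ε : Fin n → Fin r → ℤˣ) : snN ε * snN ε = 1 := by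
  unfold snN
  rw [← Finset.prod_mul_distrib]
  exact Finset.prod_eq_one fun j _ => sn_sq (ε j)

theorem TN_sg (ε : Fin n → Fin X.r → ℤˣ) (w : Fin n → Crd X) :
    X.TN (fun j => (w j).sg (ε j)) = snN ε • X.TN w := by
  rw [TN_def, TN_def, Finset.smul_sum]
  refine Fintype.sum_equiv (Equiv.mulRight ε) _ _ fun a => ?_
  rw [Equiv.coe_mulRight, snN_mul', smul_smul, ← mul_assoc, mul_comm (snN ε) (snN a),
    mul_assoc, snN_sq', mul_one]
  have h : (fun j => ((w j).sg (ε j)).sg (a j)) = fun j => (w j).sg ((a * ε) j) := by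
    funext j
    rw [sg_sg]
    rfl
  rw [h]

private theorem eq_zero_of_neg' {M : Type*} [AddCommGroup M] [Module ℚ M] {a : M}
    (h : a = (-1 : ℚ) • a) : a = 0 := by
  have h2 : (2 : ℚ) • a = 0 := by
    rw [two_smul]
    nth_rewrite 2 [h]
    rw [neg_one_smul, add_neg_cancel]
  have h3 : (2⁻¹ : ℚ) • (2 : ℚ) • a = a := by
    rw [smul_smul]
    norm_num
  rw [← h3, h2, smul_zero]

theorem TN_y {w : Fin n → Crd X} {j : Fin n} {b : Fin X.r} (h : (w j).y b = 0) :
    X.TN w = 0 := by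
  classical
  let fl : Fin n → Fin X.r → ℤˣ := fun j' b' => if j' = j ∧ b' = b then -1 else 1
  have h1 : (fun j' => (w j').sg (fl j')) = w := by
    funext j'
    refine Crd.ext rfl rfl rfl ?_
    funext b'
    change ((((fl j' b' : ℤˣ) : ℤ) : k)) * (w j').y b' = (w j').y b'
    simp only [fl]
    split_ifs with h2
    · rw [h2.1, h2.2, h, mul_zero]
    · simp
  have h2 : snN fl = -1 := by
    unfold snN sn
    rw [← Finset.prod_product', Finset.prod_eq_single (j, b)]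
    · simp [fl]
    · rintro ⟨j', b'⟩ - h3
      have : ¬(j' = j ∧ b' = b) := fun h4 => h3 (Prod.ext h4.1 h4.2)
      simp [fl, this]
    · intro h3
      exact absurd (Finset.mem_product.2 ⟨Finset.mem_univ _, Finset.mem_univ _⟩) h3
  apply eq_zero_of_neg'
  have h3 := TN_sg (X := X) fl w
  rwa [h1, h2] at h3

theorem TN_scale {m : Fin n → Fin X.N → k} (hm : ∀ j i, m j i ≠ 0) {w : Fin n → Crd X}
    (hw : ∀ j, (w j).On) : X.TN (fun j => (w j).scale (m j)) = X.TN w := by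
  rw [TN_def, TN_def]
  refine Finset.sum_congr rfl fun ε _ => ?_
  have h1 := clP_scale hm (w := fun j => (w j).sg (ε j)) fun j => on_sg (hw j) _
  rw [← h1]
  have h2 : (fun j => ((w j).scale (m j)).sg (ε j)) = fun j => ((w j).sg (ε j)).scale (m j) := by
    funext j
    exact scale_sg _ _ _
  rw [h2]

/-- the class `TN` of the values of the tuple `P` at `v` is `C` -/
def VTN (X : EC k) {n : ℕ} (v : Place k (Om k)) (P : Fin n → CrdO X) (C : VP (X.pow n)) :
    Prop :=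
  ∃ p : Fin n → Crd X, (∀ j, (p j).On) ∧ (∀ j, X.IsValue v (P j) (p j)) ∧ X.TN p = C

/-- the bridge for the classes `TN` -/
theorem bridgeTN {I : Type} [Fintype I] (c : I → ℚ) (P : I → Fin n → CrdO X)
    (hP : ∀ i j, (P i j).On) (c₀ c₁ : k) (C₀ C₁ : VP (X.pow n))
    (h₀ : ∀ v : Place k (Om k), v.At (tt k) c₀ → ∃ C : I → VP (X.pow n),
      (∀ i, VTN X v (P i) (C i)) ∧ ∑ i, c i • C i = C₀)
    (h₁ : ∀ v : Place k (Om k), v.At (tt k) c₁ → ∃ C : I → VP (X.pow n),
      (∀ i, VTN X v (P i) (C i)) ∧ ∑ i, c i • C i = C₁) :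
    C₀ = C₁ := by
  have key : ∀ (v : Place k (Om k)) (C₀ : VP (X.pow n)), (∃ C : I → VP (X.pow n),
      (∀ i, VTN X v (P i) (C i)) ∧ ∑ i, c i • C i = C₀) →
      ∃ p : I × (Fin n → Fin X.r → ℤˣ) → Pts n k, (∀ i, OnP (X.pow n) (p i)) ∧
        (∀ i j, IsVal v (X.tupO (fun j => (P i.1 j).sg (i.2 j)) j) (p i j)) ∧
        ∑ i : I × (Fin n → Fin X.r → ℤˣ), (c i.1 * snN i.2) • clP (X.pow n) (p i) = C₀ := by
    rintro v C₀ ⟨C, hC, hsum⟩
    choose p hp hv hT using hC
    refine ⟨fun i => X.tup fun j => (p i.1 j).sg (i.2 j),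
      fun i => onP_tup fun j => on_sg (hp i.1 j) _,
      fun i j => isVal_tup (fun j => isValue_sg (hv i.1 j) _) j, ?_⟩
    rw [Fintype.sum_prod_type, ← hsum]
    refine Finset.sum_congr rfl fun i _ => ?_
    rw [← hT i, TN_def, Finset.smul_sum]
    exact Finset.sum_congr rfl fun ε _ => (smul_smul _ _ _).symm
  exact bridgeP (X := X.pow n) (fun i : I × (Fin n → Fin X.r → ℤˣ) => c i.1 * snN i.2)
    (fun i => X.tupO fun j => (P i.1 j).sg (i.2 j))
    (fun i j => ⟨rfl, onO_sg (hP i.1 j) _⟩) c₀ c₁ C₀ C₁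
    (fun v hv => key v C₀ (h₀ v hv)) (fun v hv => key v C₁ (h₁ v hv))

theorem AN_perm (w : Fin n → Crd X) (π : Equiv.Perm (Fin n)) :
    X.AN (w ∘ π) = ((Equiv.Perm.sign π : ℤ) : ℚ) ^ X.N • X.AN w := by
  unfold EC.AN
  rw [Finset.smul_sum]
  refine Fintype.sum_equiv (Equiv.mulLeft π) _ _ fun τ => ?_
  rw [Equiv.coe_mulLeft, smul_smul, Equiv.Perm.sign_mul, Units.val_mul, Int.cast_mul, mul_pow,
    ← mul_assoc, ← mul_pow]
  have h1 : ((Equiv.Perm.sign π : ℤ) : ℚ) * ((Equiv.Perm.sign π : ℤ) : ℚ) = 1 := by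
    rw [← Int.cast_mul, ← Units.val_mul, Int.units_mul_self]
    simp
  rw [h1, one_pow, one_mul]
  rfl

/-- the class `AN` of the values of the tuple `P` at `v` is `C` -/
def VAN (X : EC k) {n : ℕ} (v : Place k (Om k)) (P : Fin n → CrdO X) (C : VP (X.pow n)) :
    Prop :=
  ∃ p : Fin n → Crd X, (∀ j, (p j).On) ∧ (∀ j, X.IsValue v (P j) (p j)) ∧ X.AN p = C

theorem AN_sg (w : Fin n → Crd X) (j : Fin n) (ε : Fin X.r → ℤˣ) :
    X.AN (Function.update w j ((w j).sg ε)) = sn ε • X.AN w := by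
  unfold EC.AN
  rw [Finset.smul_sum]
  refine Finset.sum_congr rfl fun τ _ => ?_
  have h1 : Function.update w j ((w j).sg ε) ∘ τ =
      fun i => ((w ∘ τ) i).sg (Function.update (1 : Fin n → Fin X.r → ℤˣ) j ε (τ i)) := by
    funext i
    rw [Function.comp_apply, Function.comp_apply]
    by_cases h : τ i = j
    · rw [h, Function.update_self, Function.update_self]
    · rw [Function.update_of_ne h, Function.update_of_ne h]
      refine Crd.ext rfl rfl rfl ?_
      funext b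
      simp [Crd.sg]
  have h2 : snN (fun i => Function.update (1 : Fin n → Fin X.r → ℤˣ) j ε (τ i)) = sn ε := by
    unfold snN
    rw [Equiv.prod_comp τ (fun i => sn (Function.update (1 : Fin n → Fin X.r → ℤˣ) j ε i)),
      Finset.prod_eq_single j]
    · rw [Function.update_self]
    · intro i _ hi
      rw [Function.update_of_ne hi]
      simp [sn]
    · intro hj
      exact absurd (Finset.mem_univ j) hj
  rw [h1, TN_sg (fun i => Function.update (1 : Fin n → Fin X.r → ℤˣ) j ε (τ i)) (w ∘ τ), h2,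
    smul_comm]

theorem AN_y {w : Fin n → Crd X} {j : Fin n} {b : Fin X.r} (h : (w j).y b = 0) :
    X.AN w = 0 := by
  unfold EC.AN
  refine Finset.sum_eq_zero fun τ _ => ?_
  rw [TN_y (j := τ.symm j) (b := b) (by rw [Function.comp_apply, Equiv.apply_symm_apply, h]),
    smul_zero]

theorem AN_scale {m : Fin n → Fin X.N → k} (hm : ∀ j i, m j i ≠ 0) {w : Fin n → Crd X}
    (hw : ∀ j, (w j).On) : X.AN (fun j => (w j).scale (m j)) = X.AN w := by
  unfold EC.AN
  refine Finset.sum_congr rfl fun τ _ => ?_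
  rw [← TN_scale (m := m ∘ τ) (fun j => hm _) (w := w ∘ τ) fun j => hw _]
  rfl

/-- the bridge for the classes `AN` -/
theorem bridgeAN {I : Type} [Fintype I] (c : I → ℚ) (P : I → Fin n → CrdO X)
    (hP : ∀ i j, (P i j).On) (c₀ c₁ : k) (C₀ C₁ : VP (X.pow n))
    (h₀ : ∀ v : Place k (Om k), v.At (tt k) c₀ → ∃ C : I → VP (X.pow n),
      (∀ i, VAN X v (P i) (C i)) ∧ ∑ i, c i • C i = C₀)
    (h₁ : ∀ v : Place k (Om k), v.At (tt k) c₁ → ∃ C : I → VP (X.pow n),
      (∀ i, VAN X v (P i) (C i)) ∧ ∑ i, c i • C i = C₁) :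
    C₀ = C₁ := by
  have key : ∀ (v : Place k (Om k)) (C₀ : VP (X.pow n)), (∃ C : I → VP (X.pow n),
      (∀ i, VAN X v (P i) (C i)) ∧ ∑ i, c i • C i = C₀) →
      ∃ C : I × Equiv.Perm (Fin n) → VP (X.pow n),
        (∀ i, VTN X v (P i.1 ∘ i.2) (C i)) ∧
        ∑ i : I × Equiv.Perm (Fin n),
          (c i.1 * ((Equiv.Perm.sign i.2 : ℤ) : ℚ) ^ X.N) • C i = C₀ := by
    rintro v C₀ ⟨C, hC, hsum⟩
    choose p hp hv hT using hC
    refine ⟨fun i => X.TN (p i.1 ∘ i.2), fun i => ⟨p i.1 ∘ i.2, fun j => hp i.1 _,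
      fun j => hv i.1 _, rfl⟩, ?_⟩
    rw [Fintype.sum_prod_type, ← hsum]
    refine Finset.sum_congr rfl fun i _ => ?_
    rw [← hT i]
    unfold EC.AN
    rw [Finset.smul_sum]
    exact Finset.sum_congr rfl fun τ _ => (smul_smul _ _ _).symm
  exact bridgeTN (fun i : I × Equiv.Perm (Fin n) => c i.1 * ((Equiv.Perm.sign i.2 : ℤ) : ℚ) ^ X.N)
    (fun i => P i.1 ∘ i.2) (fun i j => hP i.1 _) c₀ c₁ C₀ C₁
    (fun v hv => key v C₀ (h₀ v hv)) (fun v hv => key v C₁ (h₁ v hv))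

end Pool.Agent.EFC
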