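import Pool.Agent.EFC.Pencil
import Pool.Agent.EFC.Classes

/-!
# The core theorem for curves
-/

set_option autoImplicit false

noncomputable section

namespace Pool.Agent.EFC

open Pool.Agent.ZCyc Pool.Agent.TInf
open Pool.Agent.VFP (Om tt)

variable {k : Type} [Field k] [IsAlgClosed k] [CharZero k] {X : EC k} {n : ℕ}

/-- the class is symmetric -/
theorem CN_perm (w : Fin n → Crd X) (π : Equiv.Perm (Fin n)) : X.CN (w ∘ π) = X.CN w := by
  unfold EC.CN
  exact Equiv.sum_comp (Equiv.mulLeft π) fun τ : Equiv.Perm (Fin n) =>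
    ∑ U : Finset (Fin n), ((-1 : ℚ) ^ (n - U.card)) •
      clP (X.pow n) (X.tup fun j => if j ∈ U then w (τ j) else X.oo)

/-- the class is zero if one point is the base point (the sets `U` with and without `j` cancel) -/
theorem CN_oo {w : Fin n → Crd X} {j : Fin n} (h : w j = X.oo) : X.CN w = 0 := by
  classical
  unfold EC.CN
  refine Finset.sum_eq_zero fun τ _ => ?_
  set j₀ : Fin n := τ.symm j with hj₀
  have hτ : w (τ j₀) = X.oo := by rw [hj₀, Equiv.apply_symm_apply, h]
  -- adding `j₀` changes the sign only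
  have key : ∀ U : Finset (Fin n), j₀ ∉ U →
      ((-1 : ℚ) ^ (n - U.card)) •
        clP (X.pow n) (X.tup fun j => if j ∈ U then w (τ j) else X.oo) +
      ((-1 : ℚ) ^ (n - (insert j₀ U).card)) •
        clP (X.pow n) (X.tup fun j => if j ∈ insert j₀ U then w (τ j) else X.oo) = 0 := by
    intro U hU
    have h1 : (fun j => if j ∈ insert j₀ U then w (τ j) else X.oo) =
        fun j => if j ∈ U then w (τ j) else X.oo := by
      funext i
      by_cases hi : i = j₀
      · rw [if_pos (by rw [hi]; exact Finset.mem_insert_self _ _), hi, if_neg hU, hτ]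
      · have h2 : i ∈ insert j₀ U ↔ i ∈ U := by
          rw [Finset.mem_insert]
          exact or_iff_right hi
        by_cases hiU : i ∈ U
        · rw [if_pos (h2.2 hiU), if_pos hiU]
        · rw [if_neg (fun h => hiU (h2.1 h)), if_neg hiU]
    have h3 : (insert j₀ U).card ≤ n := by
      simpa using Finset.card_le_univ (insert j₀ U)
    rw [h1, Finset.card_insert_of_notMem hU, ← add_smul]
    rw [Finset.card_insert_of_notMem hU] at h3
    have h4 : n - U.card = (n - (U.card + 1)) + 1 := by omega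
    rw [h4, pow_succ]
    simp
  refine Finset.sum_involution (fun U _ => if j₀ ∈ U then U.erase j₀ else insert j₀ U)
    (fun U _ => ?_) (fun U _ _ => ?_) (fun U _ => Finset.mem_univ _) (fun U _ => ?_)
  · by_cases hU : j₀ ∈ U
    · have h5 := key (U.erase j₀) (Finset.notMem_erase _ _)
      rw [Finset.insert_erase hU] at h5
      simp only [if_pos hU]
      rw [add_comm]
      exact h5
    · simp only [if_neg hU]
      exact key U hU
  · by_cases hU : j₀ ∈ U
    · simp only [if_pos hU]
      intro h5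
      have h6 := Finset.notMem_erase j₀ U
      rw [h5] at h6
      exact h6 hU
    · simp only [if_neg hU]
      intro h5
      apply hU
      rw [← h5]
      exact Finset.mem_insert_self _ _
  · by_cases hU : j₀ ∈ U
    · simp only [if_pos hU, if_neg (Finset.notMem_erase j₀ U), Finset.insert_erase hU]
    · simp only [if_neg hU, if_pos (Finset.mem_insert_self j₀ U), Finset.erase_insert hU]

omit [IsAlgClosed k] [CharZero k] in
private theorem cc_on_oo : X.oo.On := by
  refine ⟨fun i => Or.inl one_ne_zero, fun b => ?_⟩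
  have h : (Finset.univ.filter fun i => X.blk i = b).Nonempty := by
    by_contra hne
    rw [Finset.not_nonempty_iff_eq_empty] at hne
    have h1 := X.pos b
    rw [hne, Finset.sum_empty] at h1
    exact lt_irrefl _ h1
  obtain ⟨i, hi⟩ := h
  change (0 : k) ^ 2 = ∏ i with X.blk i = b, fac (X.coA X.oo.c i) (X.coB X.oo.c i) 1 0
  rw [Finset.prod_eq_zero hi (by simp [fac])]
  exact zero_pow two_ne_zero

/-- the bridge for the classes `CN`: from `bridgeP` -/
theorem bridgeCN {I : Type} [Fintype I] (c : I → ℚ) (P : I → Fin n → CrdO X)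
    (hP : ∀ i j, (P i j).On) (c₀ c₁ : k) (C₀ C₁ : VP (X.pow n))
    (h₀ : ∀ v : Place k (Om k), v.At (tt k) c₀ → ∃ p : I → Fin n → Crd X,
      (∀ i j, (p i j).On) ∧ (∀ i j, X.IsValue v (P i j) (p i j)) ∧ ∑ i, c i • X.CN (p i) = C₀)
    (h₁ : ∀ v : Place k (Om k), v.At (tt k) c₁ → ∃ p : I → Fin n → Crd X,
      (∀ i j, (p i j).On) ∧ (∀ i j, X.IsValue v (P i j) (p i j)) ∧ ∑ i, c i • X.CN (p i) = C₁) :
    C₀ = C₁ := by
  classical
  -- the points of the family
  let Q : I × Equiv.Perm (Fin n) × Finset (Fin n) → Fin n → CrdO X := fun a j =>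
    if j ∈ a.2.2 then P a.1 (a.2.1 j) else X.oo.cst
  let d : I × Equiv.Perm (Fin n) × Finset (Fin n) → ℚ := fun a =>
    c a.1 * (-1 : ℚ) ^ (n - a.2.2.card)
  have key : ∀ (C : VP (X.pow n)) (v : Place k (Om k)), (∃ p : I → Fin n → Crd X,
      (∀ i j, (p i j).On) ∧ (∀ i j, X.IsValue v (P i j) (p i j)) ∧
        ∑ i, c i • X.CN (p i) = C) →
      ∃ p : I × Equiv.Perm (Fin n) × Finset (Fin n) → Pts n k,
        (∀ a, OnP (X.pow n) (p a)) ∧ (∀ a j, IsVal v (X.tupO (Q a) j) (p a j)) ∧
          ∑ a, d a • clP (X.pow n) (p a) = C := by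
    rintro C v ⟨p, hp1, hp2, rfl⟩
    refine ⟨fun a => X.tup fun j => if j ∈ a.2.2 then p a.1 (a.2.1 j) else X.oo, fun a => ?_,
      fun a j => ?_, ?_⟩
    · refine onP_tup fun j => ?_
      by_cases h : j ∈ a.2.2
      · rw [if_pos h]
        exact hp1 _ _
      · rw [if_neg h]
        exact cc_on_oo
    · refine isVal_tup (fun j => ?_) j
      by_cases h : j ∈ a.2.2
      · simp only [Q]
        rw [if_pos h, if_pos h]
        exact hp2 _ _
      · simp only [Q]
        rw [if_neg h, if_neg h]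
        exact isValue_cst v _
    · rw [Fintype.sum_prod_type]
      refine Finset.sum_congr rfl fun i _ => ?_
      rw [Fintype.sum_prod_type, EC.CN, Finset.smul_sum]
      refine Finset.sum_congr rfl fun τ _ => ?_
      rw [Finset.smul_sum]
      refine Finset.sum_congr rfl fun U _ => ?_
      simp only [d]
      rw [smul_smul]
  refine bridgeP d (fun a => X.tupO (Q a)) (fun a j => ⟨rfl, ?_⟩) c₀ c₁ C₀ C₁
    (fun v hv => key C₀ v (h₀ v hv)) (fun v hv => key C₁ v (h₁ v hv))
  change (Q a j).On
  by_cases h : j ∈ a.2.2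
  · simp only [Q]
    rw [if_pos h]
    exact hP _ _
  · simp only [Q]
    rw [if_neg h]
    exact on_cst cc_on_oo

/-- The core theorem for curves: `X.r = 0` implies `X.N = 0`; points are given by places. Use
`exists_pencil` and `bridgeCN` (and `CN_oo`). -/
theorem coreG (hg : ∀ (L : Type) [Field L] [Algebra k L] (hL : IsCurve k L),
    ∃ g, TInc.Riemann hL.dess g) : CoreG k := by
  intro X hr w
  have hr' : IsEmpty (Fin X.r) := by
    rw [hr]
    exact Fin.isEmpty
  have hN' : IsEmpty (Fin X.N) := ⟨fun i => hr'.false (X.blk i)⟩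
  have hext : ∀ p q : Crd X, p.c = q.c → p = q := by
    intro p q h
    refine Crd.ext h ?_ ?_ ?_
    · exact Subsingleton.elim _ _
    · exact Subsingleton.elim _ _
    · exact Subsingleton.elim _ _
  have hon : ∀ p : Crd X, p.On := fun p => ⟨fun i => hN'.elim i, fun b => hr'.elim b⟩
  have honO : ∀ p : CrdO X, p.On := fun p => ⟨fun i => hN'.elim i, fun b => hr'.elim b⟩
  by_cases ho : ∀ j, (w j).c ≠ X.pt0
  swap
  · push Not at ho
    obtain ⟨j, hj⟩ := ho
    exact CN_oo (hext _ _ (show (w j).c = X.oo.c from hj))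
  obtain ⟨S, hS0, hS1⟩ := exists_pencil X.curve (hg X.L X.curve) (fun j => (w j).c) X.pt0 ho
  let P : Unit → Fin (genus k X.L + 1) → CrdO X := fun _ j =>
    ⟨S j, hN'.elim, hN'.elim, hr'.elim⟩
  refine bridgeCN (fun _ => 1) P (fun _ _ => honO _) 0 1 _ _ (fun v hv => ?_) (fun v hv => ?_)
  · obtain ⟨π, hπ⟩ := hS0 v hv
    refine ⟨fun _ j => w (π j), fun _ _ => hon _, fun _ j => ?_, ?_⟩
    · exact ⟨hπ j, fun _ => 1, fun i => hN'.elim i, fun i => hN'.elim i, fun b => hr'.elim b⟩
    · rw [Fintype.sum_unique, one_smul]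
      exact CN_perm w π
  · obtain ⟨j, hj⟩ := hS1 v hv
    choose c' hc' using fun j => exists_baseValue X.curve v (S j)
    refine ⟨fun _ j => ⟨c' j, hN'.elim, hN'.elim, hr'.elim⟩, fun _ _ => hon _, fun _ j => ?_, ?_⟩
    · exact ⟨hc' j, fun _ => 1, fun i => hN'.elim i, fun i => hN'.elim i, fun b => hr'.elim b⟩
    rw [Fintype.sum_unique, one_smul]
    exact CN_oo (j := j) (hext _ _ ((hc' j).unique hj))

end Pool.Agent.EFC
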