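import Pool.Agent.EFC.PtVal
import Pool.Agent.EFC.Sing
import Pool.Agent.TInc.Main

/-!
# The system of classes of a variety over a curve
-/

set_option autoImplicit false

noncomputable section

namespace Pool.Agent.EFC

open Pool.Agent.ZCyc Pool.Agent.TInf Pool.Agent.KFam
open Pool.Agent.VFP (Om tt)

variable {k : Type} [Field k] [IsAlgClosed k] [CharZero k] (X : EC k) (n : ℕ)

/-- the base defined by the cubics of `X` -/
def EC.bs : Base k X.N := X.cub.base X.curve.dess X.U (fun _ h => h) X.Z

variable {X n}

open Classical in
/-- the class function; it is zero if not all points are on the curves -/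
def FG (s : Fin n → X.bs.P) (p : Fin X.N → Fin n → EPt k) : VP (X.pow n) :=
  if X.bs.On s p then X.AN (fun j => pt (s j) fun i => p i j) else 0

theorem FG_on {s : Fin n → X.bs.P} {p : Fin X.N → Fin n → EPt k} (h : X.bs.On s p) :
    FG s p = X.AN (fun j => pt (s j) fun i => p i j) := if_pos h

omit [IsAlgClosed k] [CharZero k] in
private theorem Sys_base {v : Place k (Om k)} {S : (X.L →ₐ[k] Om k) ⊕ X.U} {c : Place k X.L}
    (h : TInc.Over v S c) : BaseValue v (S.map id Subtype.val) c := by
  rcases S with σ | c'
  · exact Eq.symm h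
  · exact h

private theorem Sys_on {s : Fin n → X.bs.P} {p : Fin X.N → Fin n → EPt k} (h : X.bs.On s p)
    (j : Fin n) : (pt (s j) fun i => p i j : Crd X).On := on_pt fun i => h i j

private theorem Sys_onO {S : Fin n → X.bs.Q} {P : Fin X.N → Fin n → EPt (Om k)}
    (h : X.bs.OnQ S P) (j : Fin n) : (ptO (S j) fun i => P i j : CrdO X).On :=
  on_ptO fun i => h i j

private theorem Sys_val {v : Place k (Om k)} {S : Fin n → X.bs.Q}
    {P : Fin X.N → Fin n → EPt (Om k)} (hP : X.bs.OnQ S P) {s : Fin n → X.bs.P}
    {p : Fin X.N → Fin n → EPt k} (hs : ∀ j, X.bs.At v (S j) (s j))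
    (h : ∀ i j, EVal v (P i j) (p i j)) : X.bs.On s p := fun i j =>
  evalue_on (X.bs.at_al v (S j) (s j) (hs j) i) (X.bs.at_be v (S j) (s j) (hs j) i) (hP i j)
    (h i j)

private theorem Sys_iff (s : Fin n → X.bs.P) (p : Fin X.N → Fin n → EPt k) (i : Fin X.N)
    (j : Fin n) (x y : k) (hp : p i j = some (x, y)) :
    X.bs.On s (Function.update p i (Function.update (p i) j (some (x, -y)))) ↔ X.bs.On s p := by
  constructor
  · intro h i' j'
    have h2 := h i' j'
    by_cases hi : i' = i
    · subst hi
      rw [Function.update_self] at h2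
      by_cases hj : j' = j
      · subst hj
        rw [Function.update_self] at h2
        rw [hp]
        have h3 : (-y) ^ 2 = x ^ 3 - 3 * X.bs.ea s i' j' * x + X.bs.eb s i' j' := h2
        change y ^ 2 = x ^ 3 - 3 * X.bs.ea s i' j' * x + X.bs.eb s i' j'
        rw [← h3]
        ring
      · rwa [Function.update_of_ne hj] at h2
    · rwa [Function.update_of_ne hi] at h2
  · intro h i' j'
    have h2 := h i' j'
    by_cases hi : i' = i
    · subst hi
      rw [Function.update_self]
      by_cases hj : j' = j
      · subst hj
        rw [Function.update_self]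
        rw [hp] at h2
        have h3 : y ^ 2 = x ^ 3 - 3 * X.bs.ea s i' j' * x + X.bs.eb s i' j' := h2
        change (-y) ^ 2 = x ^ 3 - 3 * X.bs.ea s i' j' * x + X.bs.eb s i' j'
        rw [← h3]
        ring
      · rwa [Function.update_of_ne hj]
    · rwa [Function.update_of_ne hi]

variable (X n)

/-- The system of classes. Adapt `Pool.Agent.TInf.sysG` (`TInf/GeoSys.lean`): `F = FG`,
`Val v S P C` is `VAN X v (fun j => ptO (S j) fun i => P i j) C`; `perm`: `AN_perm`; `odd`: `pt_neg`,
`AN_sg`; `inf`: `pt_inf`, `AN_y`; `fin`: `isValue_pt`, `on_pt` (the values are on the curves: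
`evalue_on`, `Base.at_al`, `Base.at_be`); `pole`: `exists_isValueN`, `y_of_pole`, `AN_y`; `sing`:
`exists_isValueN`, `isValue_c`, `AN_sing`; `bridge`: `bridgeAN`. -/
def sysC : SysB X.bs n (VP (X.pow n)) where
  F := FG
  Val v S P C := VAN X v (fun j => ptO (S j) fun i => P i j) C
  perm := by
    intro s p π
    by_cases hon : X.bs.On s p
    · have hon' : X.bs.On (s ∘ π) (fun i => p i ∘ π) := fun i j => hon i (π j)
      have h1 := AN_perm (X := X) (fun j => pt (s j) fun i => p i j) π
      have h2 : FG (s ∘ π) (fun i => p i ∘ π) =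
          X.AN ((fun j => pt (s j) fun i => p i j) ∘ π) := FG_on hon'
      rw [h2, h1, FG_on hon, ← Int.cast_smul_eq_zsmul ℚ]
      push_cast
      rfl
    · have hon' : ¬ X.bs.On (s ∘ π) (fun i => p i ∘ π) := by
        intro h3
        apply hon
        intro i j
        have h4 := h3 i (π.symm j)
        unfold Base.ea Base.eb at h4 ⊢
        simpa using h4
      unfold FG
      rw [if_neg hon', if_neg hon, smul_zero]
  odd := by
    intro s p i j x y hp
    have hiff := Sys_iff s p i j x y hp
    by_cases hon : X.bs.On s p
    swap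
    · unfold FG
      rw [if_neg hon, if_neg (fun h => hon (hiff.1 h)), neg_zero]
    rw [FG_on hon, FG_on (hiff.2 hon)]
    have h1 : (fun j' => (pt (s j') fun i' => Function.update p i
          (Function.update (p i) j (some (x, -y))) i' j' : Crd X)) =
        Function.update (fun j' => (pt (s j') fun i' => p i' j' : Crd X)) j
          ((pt (s j) fun i' => p i' j : Crd X).sg (Function.update 1 (X.blk i) (-1))) := by
      funext j'
      by_cases hj : j' = j
      · subst hj
        rw [Function.update_self]
        have h2 := pt_neg (X := X) (s := s j') (p := fun i => p i j') (i := i) (x := x) (y := y) hp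
        rw [← h2]
        congr 1
        funext i'
        by_cases hi : i' = i
        · subst hi
          rw [Function.update_self, Function.update_self, Function.update_self]
        · rw [Function.update_of_ne hi, Function.update_of_ne hi]
      · rw [Function.update_of_ne hj]
        congr 1
        funext i'
        by_cases hi : i' = i
        · subst hi
          rw [Function.update_self, Function.update_of_ne hj]
        · rw [Function.update_of_ne hi]
    rw [h1, AN_sg]
    have h3 : sn (Function.update (1 : Fin X.r → ℤˣ) (X.blk i) (-1)) = -1 := by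
      unfold sn
      rw [Finset.prod_eq_single (X.blk i)]
      · rw [Function.update_self]
        simp
      · intro b _ hb
        rw [Function.update_of_ne hb]
        simp
      · intro hb
        exact absurd (Finset.mem_univ _) hb
    rw [h3, neg_one_smul]
  inf := by
    intro s p i j hp
    by_cases hon : X.bs.On s p
    · rw [FG_on hon]
      exact AN_y (j := j) (b := X.blk i) (pt_inf hp)
    · exact if_neg hon
  off := fun s p hon => if_neg hon
  fin := by
    intro v S P hP s p hs hv
    have hon := Sys_val hP hs hv
    exact ⟨fun j => pt (s j) fun i => p i j, fun j => Sys_on hon j,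
      fun j => isValue_pt (hs j).1 (hs j).2 (fun i => hP i j) fun i => hv i j, (FG_on hon).symm⟩
  pole := by
    intro v S P hP i j c hc hi
    obtain ⟨q, hq, hv⟩ := exists_isValueN v fun j => Sys_onO hP j
    exact ⟨q, hq, hv, AN_y (j := j) (b := X.blk i)
      (y_of_pole hc.1 hc.2 (P := fun i => P i j) (i := i) hi (hq j) (hv j))⟩
  sing := by
    intro v S P hP i j hb
    obtain ⟨δ, hδ, ho⟩ := hb
    obtain ⟨q, hq, hv⟩ := exists_isValueN v fun j => Sys_onO hP j
    have hc : (q j).c = δ := isValue_c (hv j) (Sys_base ho)
    refine ⟨q, hq, hv, AN_sing hq (j := j) (i := i) ?_⟩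
    rw [hc]
    exact hδ
  bridge := by
    intro I _ w S P hP c₀ c₁ C₀ C₁ h₀ h₁
    exact bridgeAN w (fun x j => ptO (S x j) fun i => P x i j) (fun x j => Sys_onO (hP x) j)
      c₀ c₁ C₀ C₁ h₀ h₁

end Pool.Agent.EFC
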