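import Pool.Agent.EFC.Move
import Pool.Agent.EFC.Sys
import Pool.Agent.EFC.DegI
import Pool.Agent.EFC.FDefs
import Pool.Agent.KIso.Inc

/-!
# The core theorem for all varieties over curves
-/

set_option autoImplicit false

noncomputable section

namespace Pool.Agent.EFC

open Pool.Agent.ZCyc Pool.Agent.TInf
open Pool.Agent.VFP (Om tt)

variable {k : Type} [Field k] [IsAlgClosed k] [CharZero k] {X : EC k} {n : ℕ}

/-- The class is zero for general tuples. -/
theorem AN_generalI (hg : ∃ g, TInc.Riemann X.curve.dess g) (hr : 0 < X.r)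
    (hn : 2 * (n : ℤ) = (∑ i, deg (X.D i)) + 2 * genus k X.L) (w : Fin n → Crd X)
    (hw : ∀ j, (w j).On) (hU : ∀ j, (w j).c ∈ X.U) (hz : ∀ j i, (w j).z i ≠ 0)
    (hc : ∀ j j', j ≠ j' → (w j).c ≠ (w j').c)
    (hd : ∀ j j', j ≠ j' → ∀ i, (¬ ∃ a : k, X.rat i = algebraMap k X.L a) →
      val (w j).c (X.rat i) ≠ val (w j').c (X.rat i)) : X.AN w = 0 := by
  choose m p hm hp hwp using fun j => exists_pt (hw j) (hU j) (hz j)
  let s : Fin n → X.bs.P := fun j => (⟨(w j).c, hU j⟩, fun _ => 1)
  have hone : ∀ D : Place k X.L →₀ ℤ, TInc.scl (fun _ => (1 : kˣ)) D = (1 : k) := by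
    intro D
    unfold TInc.scl Finsupp.prod
    exact Finset.prod_eq_one fun q _ => by
      show (((1 : kˣ) ^ D q : kˣ) : k) = 1
      rw [one_zpow, Units.val_one]
  have hEOn : ∀ (i : Fin X.N) (j : Fin n),
      EOn (TInc.scl (s j).2 (X.D i) ^ 2 * TInc.val (s j).1.1 (X.cub.α i))
        (TInc.scl (s j).2 (X.D i) ^ 3 * TInc.val (s j).1.1 (X.cub.B i)) (p j i) := by
    intro i j
    have e : TInc.scl (s j).2 (X.D i) = (1 : k) := hone _
    rw [e, one_pow, one_pow, one_mul, one_mul]
    exact hp j i
  have hon : X.bs.On s (fun i j => p j i) := hEOn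
  have h1 : X.AN w = X.AN fun j => pt (s j) fun i => p j i := by
    have e : w = fun j => (pt (s j) fun i => p j i).scale (m j) := funext hwp
    rw [e]
    exact AN_scale hm fun j => on_pt fun i => hEOn i j
  have h2 : FG s (fun i j => p j i) = X.AN fun j => pt (s j) fun i => p j i := FG_on hon
  rw [h1, ← h2]
  obtain ⟨i₀, δ, hδ, hδU⟩ := exists_ZI X hr
  have hlt := genus_lt hr hn
  have hgen : KFam.Iso.GenI X.bs s := by
    refine KFam.Iso.base_genI X.cub X.curve.dess (cub_okZ X) (fun _ h => h) X.Z s fun i => ?_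
    by_cases hα0 : X.cub.α i = 0
    · exact Or.inl hα0
    by_cases hi : ∃ a : k, X.rat i = algebraMap k X.L a
    · right; right; left
      obtain ⟨a, ha⟩ := hi
      refine ⟨a, ?_⟩
      have hα : X.cub.α i ^ 3 ≠ 0 := pow_ne_zero 3 hα0
      rw [← ha]
      unfold EC.rat
      exact (div_mul_cancel₀ _ hα).symm
    · right; right; right
      intro j j' hj
      exact hd j j' hj i hi
  refine KFam.Iso.zero_baseI X.cub X.curve.dess (cub_okZ X) (fun _ h => h) X.Z
    (riemann_genus X.curve hg) (sum_ddI X hn) (by omega) (by omega) (sysC X n) s hgen ?_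
    (fun _ _ => rfl) hδ hδU _
  intro j j' hjj
  by_contra hne
  exact hc j j' hne (congrArg Subtype.val hjj)

/-- The core theorem: move the points one after the other (`AN_move`) outside the complement of `U`
and outside the finite sets `finite_pairI` for the points which have been moved before. -/
theorem coreI (hg : ∀ (L : Type) [Field L] [Algebra k L] (hL : IsCurve k L),
    ∃ g, TInc.Riemann hL.dess g) : CoreQ k fun _ => True := by
  intro X _ hr n hn w₀ hw₀
  have key : ∀ t m : ℕ, m + t = n → ∀ w : Fin n → Crd X, (∀ j, (w j).On) →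
      (∀ j : Fin n, (j : ℕ) < m → (w j).c ∈ X.U ∧ ∀ i, (w j).z i ≠ 0) →
      (∀ j j' : Fin n, (j : ℕ) < m → (j' : ℕ) < j → (w j).c ≠ (w j').c ∧
        ∀ i, (¬ ∃ a : k, X.rat i = algebraMap k X.L a) →
          val (w j).c (X.rat i) ≠ val (w j').c (X.rat i)) → X.AN w = 0 := by
    intro t
    induction t with
    | zero =>
      intro m hm w hw h1 h2
      have hlt : ∀ j : Fin n, (j : ℕ) < m := fun j => by have := j.2; omega
      refine AN_generalI (hg X.L X.curve) hr hn w hw (fun j => (h1 j (hlt j)).1)
        (fun j => (h1 j (hlt j)).2) ?_ ?_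
      · intro j j' hj
        rcases lt_or_gt_of_ne (fun e => hj (Fin.ext e) : (j : ℕ) ≠ j') with hl | hl
        · exact fun e => (h2 j' j (hlt j') hl).1 e.symm
        · exact (h2 j j' (hlt j) hl).1
      · intro j j' hj i hi
        rcases lt_or_gt_of_ne (fun e => hj (Fin.ext e) : (j : ℕ) ≠ j') with hl | hl
        · exact fun e => (h2 j' j (hlt j') hl).2 i hi e.symm
        · exact (h2 j j' (hlt j) hl).2 i hi
    | succ t ih =>
      intro m hm w hw h1 h2
      have hmn : m < n := by omega
      let Z : Set (Place k X.L) := X.Uᶜ ∪ ⋃ j : Fin n, {c' : Place k X.L |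
        c' = (w j).c ∨ ∃ i : Fin X.N, (¬ ∃ a : k, X.rat i = algebraMap k X.L a) ∧
          val c' (X.rat i) = val (w j).c (X.rat i)}
      have hZ : Z.Finite := (finite_UI X).union (Set.finite_iUnion fun j => finite_pairI X (w j).c)
      have h3 := AN_move w hw ⟨m, hmn⟩ hZ
      have h4 : Submodule.span ℚ {a | ∃ w' : Crd X, w'.On ∧ w'.c ∉ Z ∧ (∀ i, w'.z i ≠ 0) ∧
          a = X.AN (Function.update w ⟨m, hmn⟩ w')} ≤ ⊥ := by
        rw [Submodule.span_le]
        rintro a ⟨w', hw', hc', hz', rfl⟩
        rw [SetLike.mem_coe, Submodule.mem_bot]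
        have hcU : w'.c ∈ X.U := by
          by_contra hne
          exact hc' (Or.inl hne)
        have hcj : ∀ j : Fin n, w'.c ≠ (w j).c ∧
            ∀ i, (¬ ∃ a : k, X.rat i = algebraMap k X.L a) →
              val w'.c (X.rat i) ≠ val (w j).c (X.rat i) := by
          intro j
          refine ⟨fun e => hc' (Or.inr (Set.mem_iUnion.2 ⟨j, Or.inl e⟩)), fun i hi e =>
            hc' (Or.inr (Set.mem_iUnion.2 ⟨j, Or.inr ⟨i, hi, e⟩⟩))⟩
        have hup : ∀ j : Fin n, (j : ℕ) ≠ m → Function.update w ⟨m, hmn⟩ w' j = w j := by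
          intro j hj
          exact Function.update_of_ne (fun e => hj (congrArg Fin.val e)) _ _
        have hup' : ∀ j : Fin n, (j : ℕ) = m → Function.update w ⟨m, hmn⟩ w' j = w' := by
          intro j hj
          have : j = ⟨m, hmn⟩ := Fin.ext hj
          rw [this, Function.update_self]
        refine ih (m + 1) (by omega) _ ?_ ?_ ?_
        · intro j
          by_cases hj : (j : ℕ) = m
          · rw [hup' j hj]
            exact hw'
          · rw [hup j hj]
            exact hw j
        · intro j hj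
          by_cases hj' : (j : ℕ) = m
          · rw [hup' j hj']
            exact ⟨hcU, hz'⟩
          · rw [hup j hj']
            exact h1 j (by omega)
        · intro j j' hj hj'
          have e' : (j' : ℕ) ≠ m := by omega
          rw [hup j' e']
          by_cases hjm : (j : ℕ) = m
          · rw [hup' j hjm]
            exact hcj j'
          · rw [hup j hjm]
            exact h2 j j' (by omega) hj'
      exact (Submodule.mem_bot ℚ).1 (h4 h3)
  refine key n 0 (by omega) w₀ hw₀ (fun j hj => absurd hj (by omega)) fun j j' hj _ =>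
    absurd hj (by omega)

end Pool.Agent.EFC
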