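import Pool.Agent.EFC.CoreDef
import Pool.Agent.TInc.Ord

/-!
# Comparison with the definitions in `Pool.Agent.TInc`
-/

set_option autoImplicit false

noncomputable section

namespace Pool.Agent.EFC

open Pool.Agent.ZCyc
open Pool.Agent.VFP (Om tt)

universe u

theorem IsCurve.dess {k L : Type} [Field k] [Field L] [Algebra k L] (h : IsCurve k L) :
    Dess.IsCurve k L := h

/-- the function field is finitely generated -/
theorem IsCurve.exists_fg {k L : Type u} [Field k] [Field L] [Algebra k L] (h : IsCurve k L) :
    ∃ G : Finset L, IntermediateField.adjoin k (G : Set L) = ⊤ := by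
  classical
  obtain ⟨t, -, hfin⟩ := h
  obtain ⟨S, hS⟩ := hfin.fg_top
  refine ⟨insert t S, ?_⟩
  rw [eq_top_iff]
  intro x _
  have hx : x ∈ Submodule.span (IntermediateField.adjoin k {t}) (S : Set L) := by
    rw [hS]
    exact Submodule.mem_top
  have hle : IntermediateField.adjoin k {t} ≤
      IntermediateField.adjoin k ((insert t S : Finset L) : Set L) := by
    rw [IntermediateField.adjoin_simple_le_iff]
    exact IntermediateField.subset_adjoin k _ (by simp)
  induction hx using Submodule.span_induction with
  | mem y hy => exact IntermediateField.subset_adjoin k _ (by simp [Finset.mem_coe.1 hy])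
  | zero => exact zero_mem _
  | add y z _ _ hy hz => exact add_mem (hy trivial) (hz trivial)
  | smul a y _ hy => exact mul_mem (hle a.2) (hy trivial)

section

variable {k L : Type} [Field k] [Field L] [Algebra k L]

theorem val_eq_val (c : Place k L) (f : L) : val c f = TInc.val c f := rfl

theorem deg_eq_deg (D : Place k L →₀ ℤ) : deg D = TInc.deg D := rfl

variable [IsAlgClosed k] [CharZero k]

theorem unif_spec (hL : IsCurve k L) (c : Place k L) : IsUnif c (unif c) := by
  have h : ∃ π : L, IsUnif c π := Dess.exists_unif hL c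
  unfold unif
  rw [dif_pos h]
  exact h.choose_spec

theorem unif_ne (hL : IsCurve k L) (c : Place k L) : unif c ≠ 0 := (unif_spec hL c).1

theorem ord_unif' (hL : IsCurve k L) (c : Place k L) : TInc.ord c (unif c) = 1 :=
  TInc.ord_unif hL.dess (unif_spec hL c)

theorem mem_unif_iff (hL : IsCurve k L) (c : Place k L) (f : L) (n : ℤ) :
    f * unif c ^ n ∈ c.ring ↔ (f ≠ 0 → 0 ≤ TInc.ord c f + n) := by
  by_cases hf : f = 0
  · subst hf
    rw [zero_mul]
    exact ⟨fun _ h => absurd rfl h, fun _ => c.ring.zero_mem⟩
  · have hu := zpow_ne_zero n (unif_ne hL c)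
    rw [TInc.mem_iff_ord hL.dess (mul_ne_zero hf hu), TInc.ord_mul hL.dess c hf hu,
      TInc.ord_zpow hL.dess, ord_unif' hL, mul_one]
    exact ⟨fun h _ => h, fun h => h hf⟩

theorem at_val (hL : IsCurve k L) {c : Place k L} {f : L} (hf : f ∈ c.ring) :
    c.At f (val c f) :=
  TInc.at_val hL.dess hf

theorem val_eq {c : Place k L} {f : L} {a : k} (h : c.At f a) : val c f = a :=
  TInc.val_eq h

/-- the two definitions of `L(D)` -/
theorem sections_eq (hL : IsCurve k L) (D : Place k L →₀ ℤ) :
    sections D = TInc.LD hL.dess D := by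
  ext f
  rw [TInc.mem_LD]
  constructor
  · intro h hf v
    exact (mem_unif_iff hL v f (D v)).1 (h v) hf
  · intro h v
    exact (mem_unif_iff hL v f (D v)).2 fun hf => h hf v

/-- `genus` satisfies Riemann's inequality, if some number does. Use `Nat.sInf_mem`. -/
theorem riemann_genus (hL : IsCurve k L) (h : ∃ g, TInc.Riemann hL.dess g) :
    TInc.Riemann hL.dess (genus k L) := by
  obtain ⟨g, hg⟩ := h
  have hne : {g : ℕ | ∀ D : Place k L →₀ ℤ,
      deg D + 1 ≤ (Module.finrank k (sections D) : ℤ) + g}.Nonempty := by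
    refine ⟨g, fun D => ?_⟩
    rw [sections_eq hL D]
    exact (hg D).2
  intro D
  refine ⟨(hg D).1, ?_⟩
  have h1 := Nat.sInf_mem hne D
  rw [sections_eq hL D] at h1
  exact h1

end

end Pool.Agent.EFC
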