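import Pool.Agent.EFC.Util
import Pool.Agent.TInc.EmbA

/-!
# Values of points of the base curve
-/

set_option autoImplicit false

noncomputable section

namespace Pool.Agent.EFC

open Pool.Agent.ZCyc
open Pool.Agent.VFP (Om tt)

variable {k L : Type} [Field k] [Field L] [Algebra k L] {v : Place k (Om k)}
  {s : (L →ₐ[k] Om k) ⊕ Place k L} {c : Place k L}

theorem BaseValue.unique {c' : Place k L} (h : BaseValue v s c) (h' : BaseValue v s c') :
    c = c' := by
  rcases s with σ | c₀
  · have h1 : c.ring = v.ring.comap σ.toRingHom := h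
    have h2 : c'.ring = v.ring.comap σ.toRingHom := h'
    exact Place.ext (h1.trans h2.symm)
  · have h1 : c₀ = c := h
    have h2 : c₀ = c' := h'
    exact h1.symm.trans h2

/-- the image of a point of the curve under an automorphism -/
theorem baseValue_map (g : Om k ≃ₐ[k] Om k) (h : BaseValue (v.map g.symm) s c) :
    BaseValue v (s.map (fun σ => (g : Om k →ₐ[k] Om k).comp σ) id) c := by
  rcases s with σ | c₀
  · have h1 : c.ring = (v.map g.symm).ring.comap σ.toRingHom := h
    show c.ring = v.ring.comap ((g : Om k →ₐ[k] Om k).comp σ).toRingHom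
    rw [h1]
    ext f
    rw [ValuationSubring.mem_comap, ValuationSubring.mem_comap, Place.mem_map]
    rfl
  · exact h

theorem baseValue_const (c : Place k L) : BaseValue v (.inr c) c := rfl

variable [IsAlgClosed k] [CharZero k]

/-- the curve is complete: `TInc.exists_below` -/
theorem exists_baseValue (hL : IsCurve k L) (v : Place k (Om k))
    (s : (L →ₐ[k] Om k) ⊕ Place k L) : ∃ c : Place k L, BaseValue v s c := by
  rcases s with σ | c₀
  · obtain ⟨c, hc⟩ := TInc.exists_below hL.dess v σ
    exact ⟨c, hc.symm⟩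
  · exact ⟨c₀, rfl⟩

/-- see `TInc.over_at` -/
theorem at_base (hL : IsCurve k L) {σ : L →ₐ[k] Om k} (h : BaseValue v (.inl σ) c) {f : L}
    (hf : f ∈ c.ring) : v.At (σ f) (val c f) := by
  have h1 : c.ring = v.ring.comap σ.toRingHom := h
  have h2 := TInc.over_at hL.dess (U := Set.univ) (v := v) (S := Sum.inl σ) (c := c) h1.symm hf
  exact h2

theorem unifO_ne (hL : IsCurve k L) (s : (L →ₐ[k] Om k) ⊕ Place k L) (c : Place k L) :
    unifO s c ≠ 0 := by
  rcases s with σ | c₀
  · show σ (unif c) ≠ 0
    intro h0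
    exact unif_ne hL c ((map_eq_zero σ).1 h0)
  · exact one_ne_zero

omit [IsAlgClosed k] [CharZero k] in
theorem unifO_map (g : Om k ≃ₐ[k] Om k) (s : (L →ₐ[k] Om k) ⊕ Place k L) (c : Place k L) :
    unifO (s.map (fun σ => (g : Om k →ₐ[k] Om k).comp σ) id) c = g (unifO s c) := by
  rcases s with σ | c₀
  · rfl
  · exact (map_one g).symm

/-- the local coefficient -/
theorem at_coA {X : EC k} {s : (X.L →ₐ[k] Om k) ⊕ Place k X.L} {c : Place k X.L}
    (h : BaseValue v s c) (i : Fin X.N) :
    v.At (X.coAO s i * unifO s c ^ (2 * X.D i c)) (X.coA c i) := by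
  rcases s with σ | c₀
  · have h1 := at_base X.curve h (X.regA i c)
    rw [map_mul, map_zpow₀] at h1
    exact h1
  · have h1 : c₀ = c := h
    subst h1
    show v.At (algebraMap k (Om k) (X.coA c₀ i) * 1 ^ (2 * X.D i c₀)) (X.coA c₀ i)
    rw [one_zpow, mul_one]
    exact Place.at_const _

theorem at_coB {X : EC k} {s : (X.L →ₐ[k] Om k) ⊕ Place k X.L} {c : Place k X.L}
    (h : BaseValue v s c) (i : Fin X.N) :
    v.At (X.coBO s i * unifO s c ^ (3 * X.D i c)) (X.coB c i) := by
  rcases s with σ | c₀
  · have h1 := at_base X.curve h (X.regB i c)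
    rw [map_mul, map_zpow₀] at h1
    exact h1
  · have h1 : c₀ = c := h
    subst h1
    show v.At (algebraMap k (Om k) (X.coB c₀ i) * 1 ^ (3 * X.D i c₀)) (X.coB c₀ i)
    rw [one_zpow, mul_one]
    exact Place.at_const _

end Pool.Agent.EFC
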