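import Pool.Agent.EFC.Bridge

/-!
# Basic properties of the classes `TN`
-/

set_option autoImplicit false

noncomputable section

namespace Pool.Agent.EFC

open Pool.Agent.ZCyc
open Pool.Agent.VFP (Om tt)

variable {k : Type} [Field k] {X : EC k} {n : ℕ}

/-- change of the homogeneous coordinates -/
def Crd.scale (m : Fin X.N → k) (w : Crd X) : Crd X where
  c := w.c
  x i := m i * w.x i
  z i := m i * w.z i
  y b := (∏ i with X.blk i = b, m i) ^ 2 * w.y b

/-- changes of the signs of the coordinates `y_b`, over `Om k` -/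
def CrdO.sg (ε : Fin X.r → ℤˣ) (w : CrdO X) : CrdO X where
  s := w.s
  x := w.x
  z := w.z
  y b := ((ε b : ℤ) : Om k) * w.y b

/-- the constant point over `Om k` -/
def Crd.cst (w : Crd X) : CrdO X where
  s := .inr w.c
  x i := algebraMap k (Om k) (w.x i)
  z i := algebraMap k (Om k) (w.z i)
  y b := algebraMap k (Om k) (w.y b)

private theorem unit_sq {K : Type*} [Field K] (e : ℤˣ) : (((e : ℤˣ) : ℤ) : K) ^ 2 = 1 := by
  rcases Int.units_eq_one_or e with h | h
  · rw [h]; simp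
  · rw [h]; simp

/-- the sign of a tuple of signs -/
def sn {r : ℕ} (ε : Fin r → ℤˣ) : ℚ := ∏ b, ((ε b : ℤ) : ℚ)

theorem sn_mul {r : ℕ} (ε ε' : Fin r → ℤˣ) : sn (ε * ε') = sn ε * sn ε' := by
  unfold sn
  rw [← Finset.prod_mul_distrib]
  refine Finset.prod_congr rfl fun b _ => ?_
  simp only [Pi.mul_apply, Units.val_mul, Int.cast_mul]

theorem sn_sq {r : ℕ} (ε : Fin r → ℤˣ) : sn ε * sn ε = 1 := by
  unfold sn
  rw [← Finset.prod_mul_distrib]
  exact Finset.prod_eq_one fun b _ => by rw [← pow_two, unit_sq]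

/-- the product of the signs -/
def snN {r n : ℕ} (ε : Fin n → Fin r → ℤˣ) : ℚ := ∏ j, sn (ε j)

theorem TN_def (w : Fin n → Crd X) : X.TN w = ∑ ε : Fin n → Fin X.r → ℤˣ, snN ε •
    clP (X.pow n) (X.tup fun j => (w j).sg (ε j)) := rfl

private theorem fac_scale {K : Type*} [Field K] (a b m x z : K) :
    fac a b (m * x) (m * z) = m ^ 4 * fac a b x z := by
  unfold fac
  ring

theorem on_scale {m : Fin X.N → k} (hm : ∀ i, m i ≠ 0) {w : Crd X} (hw : w.On) :
    (w.scale m).On := by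
  refine ⟨fun i => ?_, fun b => ?_⟩
  · rcases hw.1 i with h1 | h1
    · exact Or.inl (mul_ne_zero (hm i) h1)
    · exact Or.inr (mul_ne_zero (hm i) h1)
  · change ((∏ i with X.blk i = b, m i) ^ 2 * w.y b) ^ 2 = ∏ i with X.blk i = b,
      fac (X.coA w.c i) (X.coB w.c i) (m i * w.x i) (m i * w.z i)
    rw [Finset.prod_congr rfl fun i _ => fac_scale _ _ (m i) (w.x i) (w.z i),
      Finset.prod_mul_distrib, ← hw.2 b, Finset.prod_pow]
    ring

theorem on_sg {w : Crd X} (hw : w.On) (ε : Fin X.r → ℤˣ) : (w.sg ε).On := by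
  refine ⟨hw.1, fun b => ?_⟩
  change (((ε b : ℤ) : k) * w.y b) ^ 2 = _
  rw [mul_pow, unit_sq, one_mul]
  exact hw.2 b

theorem onO_sg {w : CrdO X} (hw : w.On) (ε : Fin X.r → ℤˣ) : (w.sg ε).On := by
  refine ⟨hw.1, fun b => ?_⟩
  change (((ε b : ℤ) : Om k) * w.y b) ^ 2 = _
  rw [mul_pow, unit_sq, one_mul]
  exact hw.2 b

theorem on_cst {w : Crd X} (hw : w.On) : w.cst.On := by
  refine ⟨fun i => ?_, fun b => ?_⟩
  · rcases hw.1 i with h1 | h1
    · exact Or.inl ((map_ne_zero (algebraMap k (Om k))).2 h1)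
    · exact Or.inr ((map_ne_zero (algebraMap k (Om k))).2 h1)
  · have h1 := congrArg (algebraMap k (Om k)) (hw.2 b)
    rw [map_pow, map_prod] at h1
    refine h1.trans (Finset.prod_congr rfl fun i _ => ?_)
    change _ = fac (algebraMap k (Om k) (X.coA w.c i)) (algebraMap k (Om k) (X.coB w.c i))
      (algebraMap k (Om k) (w.x i)) (algebraMap k (Om k) (w.z i))
    unfold fac
    simp only [map_add, map_mul, map_pow]

theorem isValue_sg {v : Place k (Om k)} {P : CrdO X} {p : Crd X} (h : X.IsValue v P p)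
    (ε : Fin X.r → ℤˣ) : X.IsValue v (P.sg ε) (p.sg ε) := by
  obtain ⟨h1, m, h2, h3, h4⟩ := h
  refine ⟨h1, m, h2, h3, fun b => ?_⟩
  have hmem : ((((ε b : ℤˣ) : ℤ) : Om k)) ∈ v.ring := intCast_mem _ _
  have e : (∏ i with X.blk i = b, m i) ^ 2 *
      unifO P.s p.c ^ (3 * ((∑ i with X.blk i = b, X.D i p.c) / 2)) * (((ε b : ℤ) : Om k) * P.y b) -
        algebraMap k (Om k) (((ε b : ℤ) : k) * p.y b) =
      ((ε b : ℤ) : Om k) * ((∏ i with X.blk i = b, m i) ^ 2 *
      unifO P.s p.c ^ (3 * ((∑ i with X.blk i = b, X.D i p.c) / 2)) * P.y b -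
        algebraMap k (Om k) (p.y b)) := by
    rw [map_mul, map_intCast]
    ring
  change v.Vanishes ((∏ i with X.blk i = b, m i) ^ 2 *
      unifO P.s p.c ^ (3 * ((∑ i with X.blk i = b, X.D i p.c) / 2)) * (((ε b : ℤ) : Om k) * P.y b) -
        algebraMap k (Om k) (((ε b : ℤ) : k) * p.y b))
  rw [e]
  exact (h4 b).mul' v hmem

theorem isValue_cst (v : Place k (Om k)) (w : Crd X) : X.IsValue v w.cst w := by
  have hu : unifO w.cst.s w.c = 1 := rfl
  refine ⟨baseValue_const w.c, fun _ => 1, fun i => ?_, fun i => ?_, fun b => ?_⟩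
  · rw [hu, one_zpow, one_mul, one_mul]
    exact Place.at_const (w.x i)
  · rw [one_mul]
    exact Place.at_const (w.z i)
  · rw [hu, one_zpow, mul_one, Finset.prod_const_one, one_pow, one_mul]
    exact Place.at_const (w.y b)

theorem isValue_scale {v : Place k (Om k)} {m : Fin X.N → k} (hm : ∀ i, m i ≠ 0) {P : CrdO X}
    {p : Crd X} (h : X.IsValue v P p) : X.IsValue v P (p.scale m) := by
  have _ := hm
  obtain ⟨h1, m₁, h2, h3, h4⟩ := h
  refine ⟨h1, fun i => algebraMap k (Om k) (m i) * m₁ i, fun i => ?_, fun i => ?_, fun b => ?_⟩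
  · change v.Vanishes (algebraMap k (Om k) (m i) * m₁ i * unifO P.s p.c ^ X.D i p.c * P.x i -
      algebraMap k (Om k) (m i * p.x i))
    have e : algebraMap k (Om k) (m i) * m₁ i * unifO P.s p.c ^ X.D i p.c * P.x i -
        algebraMap k (Om k) (m i * p.x i) = algebraMap k (Om k) (m i) *
        (m₁ i * unifO P.s p.c ^ X.D i p.c * P.x i - algebraMap k (Om k) (p.x i)) := by
      rw [map_mul]
      ring
    rw [e]
    exact (h2 i).mul' v (v.const_mem _)
  · change v.Vanishes (algebraMap k (Om k) (m i) * m₁ i * P.z i -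
      algebraMap k (Om k) (m i * p.z i))
    have e : algebraMap k (Om k) (m i) * m₁ i * P.z i -
        algebraMap k (Om k) (m i * p.z i) = algebraMap k (Om k) (m i) *
        (m₁ i * P.z i - algebraMap k (Om k) (p.z i)) := by
      rw [map_mul]
      ring
    rw [e]
    exact (h3 i).mul' v (v.const_mem _)
  · change v.Vanishes ((∏ i with X.blk i = b, algebraMap k (Om k) (m i) * m₁ i) ^ 2 *
      unifO P.s p.c ^ (3 * ((∑ i with X.blk i = b, X.D i p.c) / 2)) * P.y b -
        algebraMap k (Om k) ((∏ i with X.blk i = b, m i) ^ 2 * p.y b))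
    have e : (∏ i with X.blk i = b, algebraMap k (Om k) (m i) * m₁ i) ^ 2 *
        unifO P.s p.c ^ (3 * ((∑ i with X.blk i = b, X.D i p.c) / 2)) * P.y b -
          algebraMap k (Om k) ((∏ i with X.blk i = b, m i) ^ 2 * p.y b) =
        algebraMap k (Om k) ((∏ i with X.blk i = b, m i) ^ 2) *
        ((∏ i with X.blk i = b, m₁ i) ^ 2 *
      unifO P.s p.c ^ (3 * ((∑ i with X.blk i = b, X.D i p.c) / 2)) * P.y b -
        algebraMap k (Om k) (p.y b)) := by
      rw [Finset.prod_mul_distrib, map_mul, map_pow, map_prod]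
      ring
    rw [e]
    exact (h4 b).mul' v (v.const_mem _)

theorem sg_sg (ε ε' : Fin X.r → ℤˣ) (w : Crd X) : (w.sg ε).sg ε' = w.sg (ε' * ε) := by
  refine Crd.ext rfl rfl rfl ?_
  funext b
  simp only [Crd.sg, Pi.mul_apply, Units.val_mul, Int.cast_mul, mul_assoc]

theorem sg_one (w : Crd X) : w.sg 1 = w := by
  refine Crd.ext rfl rfl rfl ?_
  funext b
  simp only [Crd.sg, Pi.one_apply, Units.val_one, Int.cast_one, one_mul]

theorem scale_sg (m : Fin X.N → k) (ε : Fin X.r → ℤˣ) (w : Crd X) :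
    (w.scale m).sg ε = (w.sg ε).scale m := by
  refine Crd.ext rfl rfl rfl ?_
  funext b
  simp only [Crd.sg, Crd.scale]
  ring

/-- the coordinate `y_b` is zero if a `z_i` in the block is zero -/
theorem y_eq_zero {w : Crd X} (hw : w.On) {i : Fin X.N} (h : w.z i = 0) :
    w.y (X.blk i) = 0 := by
  have h1 := hw.2 (X.blk i)
  rw [Finset.prod_eq_zero (i := i) (by simp) (by rw [h]; unfold fac; ring)] at h1
  exact pow_eq_zero_iff two_ne_zero |>.1 h1

/-- points of a power -/
theorem onP_tup {w : Fin n → Crd X} (hw : ∀ j, (w j).On) : OnP (X.pow n) (X.tup w) :=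
  fun j => ⟨rfl, hw j⟩

/-- points of a power over `Om k` -/
def EC.tupO (X : EC k) {n : ℕ} (w : Fin n → CrdO X) : Fin n → PtO k :=
  fun j => ⟨X, w j⟩

theorem isVal_tup {v : Place k (Om k)} {P : Fin n → CrdO X} {p : Fin n → Crd X}
    (h : ∀ j, X.IsValue v (P j) (p j)) (j : Fin n) : IsVal v (X.tupO P j) (X.tup p j) :=
  ⟨X, P j, p j, rfl, rfl, h j⟩

end Pool.Agent.EFC
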