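import Pool.Agent.EFC.Defs

/-!
# Zero-cycles on products of curves and fibre products: the statement of the core theorem
-/

set_option autoImplicit false

noncomputable section

namespace Pool.Agent.EFC

open Pool.Agent.ZCyc
open Pool.Agent.VFP (Om tt)

universe u

variable {k : Type u} [Field k] {m : ℕ}

/-- zero-cycles on the product modulo rational equivalence -/
abbrev VP (X : Fin m → EC k) : Type (u + 1) := (Pts m k →₀ ℚ) ⧸ ratEqP X

/-- the class of a point -/
def clP (X : Fin m → EC k) (x : Pts m k) : VP X := Submodule.Quotient.mk (Finsupp.single x 1)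

/-- changes of the signs of the coordinates `y_b` -/
def Crd.sg {X : EC k} (ε : Fin X.r → ℤˣ) (w : Crd X) : Crd X where
  c := w.c
  x := w.x
  z := w.z
  y b := ((ε b : ℤ) : k) * w.y b

/-- the power `X ^ n` -/
def EC.pow (X : EC k) (n : ℕ) : Fin n → EC k := fun _ => X

/-- a point of `X ^ n` -/
def EC.tup (X : EC k) {n : ℕ} (w : Fin n → Crd X) : Pts n k := fun j => ⟨X, w j⟩

/-- `{w 0} × ⋯ × {w (n - 1)}`, where `{w}` is the alternating sum over all changes of signs -/
def EC.TN (X : EC k) {n : ℕ} (w : Fin n → Crd X) : VP (X.pow n) :=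
  ∑ ε : Fin n → Fin X.r → ℤˣ, (∏ j, ∏ b, ((ε j b : ℤ) : ℚ)) •
    clP (X.pow n) (X.tup fun j => (w j).sg (ε j))

/-- the alternating (`N` odd) or symmetric (`N` even) sum over all permutations -/
def EC.AN (X : EC k) {n : ℕ} (w : Fin n → Crd X) : VP (X.pow n) :=
  ∑ τ : Equiv.Perm (Fin n), ((Equiv.Perm.sign τ : ℤ) : ℚ) ^ X.N • X.TN (w ∘ τ)

open Classical in
/-- the symmetric sum of the classes `(w 0 - o) × ⋯ × (w (n - 1) - o)` -/
def EC.CN (X : EC k) {n : ℕ} (w : Fin n → Crd X) : VP (X.pow n) :=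
  ∑ τ : Equiv.Perm (Fin n), ∑ U : Finset (Fin n), ((-1 : ℚ) ^ (n - U.card)) •
    clP (X.pow n) (X.tup fun j => if j ∈ U then w (τ j) else X.oo)

/-- All coefficients are different from zero. -/
def EC.NonZero (X : EC k) : Prop := ∀ i, X.A i ≠ 0 ∧ X.B i ≠ 0

/-- The core theorem for varieties over curves: `2 n = deg ∑ D_i + 2 g`. -/
def CoreC (k : Type u) [Field k] : Prop :=
  ∀ (X : EC k), X.NonZero → 0 < X.r → ∀ n : ℕ,
    2 * (n : ℤ) = (∑ i, deg (X.D i)) + 2 * genus k X.L →
    ∀ w : Fin n → Crd X, (∀ j, (w j).On) → X.AN w = 0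

/-- The core theorem for curves. -/
def CoreG (k : Type u) [Field k] : Prop :=
  ∀ (X : EC k), X.r = 0 → ∀ w : Fin (genus k X.L + 1) → Crd X, X.CN w = 0

end Pool.Agent.EFC
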