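import Pool.Agent.EFC.PtMap
import Pool.Agent.EFC.Classes

/-!
# Degrees, and finiteness of the exceptional sets
-/

set_option autoImplicit false

noncomputable section

namespace Pool.Agent.EFC

open Pool.Agent.ZCyc Pool.Agent.TInf
open Pool.Agent.VFP (Om tt)

variable {k : Type} [Field k] [IsAlgClosed k] [CharZero k] {X : EC k} {n : ℕ}

/-- the degrees -/
def EC.dd (X : EC k) (i : Fin X.N) : ℕ := (deg (X.D i)).toNat

omit [IsAlgClosed k] [CharZero k] in
private theorem dg_add {L : Type} [Field L] [Algebra k L] (E F : Place k L →₀ ℤ) :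
    deg (E + F) = deg E + deg F := by
  unfold deg
  exact Finsupp.sum_add_index' (fun _ => rfl) fun _ _ _ => rfl

omit [IsAlgClosed k] [CharZero k] in
private theorem dg_smul {L : Type} [Field L] [Algebra k L] (n : ℤ) (E : Place k L →₀ ℤ) :
    deg (n • E) = n * deg E := by
  unfold deg
  rw [Finsupp.sum_smul_index fun _ => rfl, Finsupp.mul_sum]

omit [IsAlgClosed k] [CharZero k] in
private theorem dg_nonneg {L : Type} [Field L] [Algebra k L] {E : Place k L →₀ ℤ}
    (h : ∀ v, 0 ≤ E v) : 0 ≤ deg E :=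
  Finset.sum_nonneg fun v _ => h v

/-- the degree of an effective divisor `div f + n D` -/
private theorem dg_le {L : Type} [Field L] [Algebra k L] (hL : IsCurve k L) (f : L) (n : ℕ)
    (D : Place k L →₀ ℤ) : deg (TInc.dv hL.dess f + (n : ℤ) • D) = n * deg D := by
  rw [dg_add, dg_smul, deg_eq_deg, TInc.deg_dv, zero_add]

private theorem dg_A (X : EC k) (h : X.NonZero) (i : Fin X.N) (c : Place k X.L) :
    0 ≤ TInc.ord c (X.A i) + 2 * X.D i c :=
  (mem_unif_iff X.curve c (X.A i) _).1 (X.regA i c) (h i).1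

private theorem dg_B (X : EC k) (h : X.NonZero) (i : Fin X.N) (c : Place k X.L) :
    0 ≤ TInc.ord c (X.B i) + 3 * X.D i c :=
  (mem_unif_iff X.curve c (X.B i) _).1 (X.regB i c) (h i).2

private theorem dg_deg (X : EC k) (h : X.NonZero) (i : Fin X.N) : 0 ≤ deg (X.D i) := by
  have h1 : 0 ≤ deg (TInc.dv X.curve.dess (X.A i) + ((2 : ℕ) : ℤ) • X.D i) := by
    refine dg_nonneg fun v => ?_
    rw [Finsupp.add_apply, Finsupp.smul_apply, TInc.dv_apply, smul_eq_mul]
    exact dg_A X h i v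
  rw [dg_le X.curve] at h1
  push_cast at h1
  omega

omit [IsAlgClosed k] in
private theorem dg_three {L : Type} [Field L] [Algebra k L] : (algebraMap k L (-3⁻¹)) ≠ 0 := by
  rw [Ne, map_eq_zero, neg_eq_zero, inv_eq_zero]
  exact three_ne_zero

omit [IsAlgClosed k] in
private theorem dg_cub (X : EC k) (i : Fin X.N) : X.cub.B i ^ 2 - 4 * X.cub.α i ^ 3 =
    algebraMap k X.L (27⁻¹) * (4 * X.A i ^ 3 + 27 * X.B i ^ 2) := by
  change X.B i ^ 2 - 4 * (algebraMap k X.L (-3⁻¹) * X.A i) ^ 3 = _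
  have h1 : algebraMap k X.L (-3⁻¹) ^ 3 = -algebraMap k X.L (27⁻¹) := by
    rw [← map_pow, ← map_neg]
    congr 1
    norm_num
  have h2 : algebraMap k X.L (27⁻¹) * 27 = 1 := by
    have h3 : (27 : X.L) = algebraMap k X.L 27 := (map_ofNat _ 27).symm
    rw [h3, ← map_mul, inv_mul_cancel₀ (by norm_num), map_one]
  linear_combination (-4 * X.A i ^ 3) * h1 - X.B i ^ 2 * h2

/-- The cubics of `X` satisfy the assumptions of `TInc`. `deg (X.D i) ≥ 0`: the degree of the
effective divisor `div A_i + 2 D_i` is `2 deg D_i` (`TInc.deg_dv`). -/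
theorem cub_ok (h : X.NonZero) : X.cub.Ok X.dd where
  α_ne i := mul_ne_zero dg_three (h i).1
  B_ne i := (h i).2
  disc i := by
    rw [dg_cub]
    refine mul_ne_zero ?_ (X.disc i)
    rw [Ne, map_eq_zero, inv_eq_zero]
    norm_num
  α_mem i v := by
    change 0 ≤ TInc.ord v (algebraMap k X.L (-3⁻¹) * X.A i) + 2 * X.D i v
    rw [TInc.ord_mul X.curve.dess v dg_three (h i).1, TInc.ord_const X.curve.dess, zero_add]
    exact dg_A X h i v
  B_mem i v := dg_B X h i v
  deg i := by
    rw [← deg_eq_deg]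
    exact (Int.toNat_of_nonneg (dg_deg X h i)).symm

theorem sum_dd (h : X.NonZero) (hn : 2 * (n : ℤ) = (∑ i, deg (X.D i)) + 2 * genus k X.L) :
    ∑ i, X.dd i = 2 * (n - genus k X.L) := by
  have h1 : ((∑ i, X.dd i : ℕ) : ℤ) = ∑ i, deg (X.D i) := by
    rw [Nat.cast_sum]
    exact Finset.sum_congr rfl fun i _ => Int.toNat_of_nonneg (dg_deg X h i)
  omega

/-- `n` is larger than the genus, because the blocks have positive degree -/
theorem genus_lt (hr : 0 < X.r)
    (hn : 2 * (n : ℤ) = (∑ i, deg (X.D i)) + 2 * genus k X.L) : genus k X.L < n := by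
  have h1 : 0 < ∑ i, deg (X.D i) := by
    rw [← Finset.sum_fiberwise Finset.univ X.blk]
    exact Finset.sum_pos (fun b _ => X.pos b) ⟨⟨0, hr⟩, Finset.mem_univ _⟩
  omega

/-- some discriminant has a zero: `4 A_i ³ + 27 B_i ²` is a section of `6 D_i`, for an index with
`deg D_i > 0`; the effective divisor `div (4 A_i ³ + 27 B_i ²) + 6 D_i` has positive degree -/
theorem exists_Z (h : X.NonZero) (hr : 0 < X.r) : ∃ (i : Fin X.N) (δ : Place k X.L),
    δ ∈ X.Z i ∧ δ ∉ X.U := by
  obtain ⟨i, -, hi⟩ : ∃ i ∈ Finset.univ.filter fun i => X.blk i = ⟨0, hr⟩, 0 < deg (X.D i) := by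
    by_contra! hcon
    have h1 := X.pos ⟨0, hr⟩
    have h2 := Finset.sum_nonpos hcon
    omega
  have h1 : 0 < deg (TInc.dv X.curve.dess (4 * X.A i ^ 3 + 27 * X.B i ^ 2) +
      ((6 : ℕ) : ℤ) • X.D i) := by
    rw [dg_le X.curve]
    push_cast
    omega
  obtain ⟨c, hc⟩ : ∃ c, 0 < (TInc.dv X.curve.dess (4 * X.A i ^ 3 + 27 * X.B i ^ 2) +
      ((6 : ℕ) : ℤ) • X.D i) c := by
    by_contra! hcon
    have h2 : deg (TInc.dv X.curve.dess (4 * X.A i ^ 3 + 27 * X.B i ^ 2) +
      ((6 : ℕ) : ℤ) • X.D i) ≤ 0 := Finset.sum_nonpos fun v _ => hcon v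
    omega
  rw [Finsupp.add_apply, Finsupp.smul_apply, TInc.dv_apply, smul_eq_mul] at hc
  push_cast at hc
  refine ⟨i, c, ?_, fun hU => ?_⟩
  · have hA : c.At (X.A i * unif c ^ (2 * X.D i c)) (X.coA c i) := at_val X.curve (X.regA i c)
    have hB : c.At (X.B i * unif c ^ (3 * X.D i c)) (X.coB c i) := at_val X.curve (X.regB i c)
    have h27 : c.At (27 : X.L) (27 : k) := by
      have := Place.at_const (v := c) (27 : k)
      rwa [map_ofNat] at this
    have h4 : c.At (4 : X.L) (4 : k) := by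
      have := Place.at_const (v := c) (4 : k)
      rwa [map_ofNat] at this
    have h5 := (h4.mul (hA.pow 3)).add (h27.mul (hB.pow 2))
    have hu := unif_ne X.curve c
    have h6 : 4 * (X.A i * unif c ^ (2 * X.D i c)) ^ 3 + 27 * (X.B i * unif c ^ (3 * X.D i c)) ^ 2 =
        (4 * X.A i ^ 3 + 27 * X.B i ^ 2) * unif c ^ (6 * X.D i c) := by
      have e1 : (unif c ^ (2 * X.D i c)) ^ 3 = unif c ^ (6 * X.D i c) := by
        rw [← zpow_natCast, ← zpow_mul]
        congr 1
        push_cast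
        ring
      have e2 : (unif c ^ (3 * X.D i c)) ^ 2 = unif c ^ (6 * X.D i c) := by
        rw [← zpow_natCast, ← zpow_mul]
        congr 1
        push_cast
        ring
      rw [mul_pow, mul_pow, e1, e2]
      ring
    rw [h6] at h5
    have h7 : c.Vanishes ((4 * X.A i ^ 3 + 27 * X.B i ^ 2) * unif c ^ (6 * X.D i c)) := by
      rw [TInc.vanishes_iff_ord X.curve.dess (mul_ne_zero (X.disc i) (zpow_ne_zero _ hu)),
        TInc.ord_mul X.curve.dess c (X.disc i) (zpow_ne_zero _ hu),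
        TInc.ord_zpow X.curve.dess, ord_unif' X.curve, mul_one]
      exact hc
    exact h5.unique (Place.at_zero_iff.2 h7)
  · have h2 := (hU i).2.2.1
    have h3 := (hU i).2.2.2
    have hD : X.D i c = 0 := h3
    rw [hD, mul_zero, add_zero] at hc
    have hne : X.cub.B i ^ 2 - 4 * X.cub.α i ^ 3 ≠ 0 := (cub_ok h).disc i
    rw [TInc.mem_iff_ord X.curve.dess (inv_ne_zero hne), TInc.ord_inv X.curve.dess, dg_cub,
      TInc.ord_mul X.curve.dess c _ (X.disc i), TInc.ord_const X.curve.dess] at h2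
    · omega
    · rw [Ne, map_eq_zero, inv_eq_zero]
      norm_num

/-- the complement of `U` is finite -/
theorem finite_U (h : X.NonZero) : (X.Uᶜ).Finite := by
  have hok := cub_ok h
  have hfin : (⋃ i : Fin X.N, ({v : Place k X.L | TInc.ord v (X.cub.α i) ≠ 0} ∪
      {v : Place k X.L | TInc.ord v (X.cub.B i) ≠ 0} ∪
      {v : Place k X.L | TInc.ord v (X.cub.B i ^ 2 - 4 * X.cub.α i ^ 3) ≠ 0} ∪
      {v : Place k X.L | X.cub.D i v ≠ 0})).Finite := by
    refine Set.finite_iUnion fun i => ?_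
    refine (((TInc.finite_ord X.curve.dess _).union (TInc.finite_ord X.curve.dess _)).union
      (TInc.finite_ord X.curve.dess _)).union ?_
    exact (X.cub.D i).hasFiniteSupport
  refine hfin.subset fun c hc => ?_
  by_contra hcon
  apply hc
  intro i
  have h1 : ¬ (TInc.ord c (X.cub.α i) ≠ 0 ∨ TInc.ord c (X.cub.B i) ≠ 0 ∨
      TInc.ord c (X.cub.B i ^ 2 - 4 * X.cub.α i ^ 3) ≠ 0 ∨ X.cub.D i c ≠ 0) := by
    intro h2
    apply hcon
    rw [Set.mem_iUnion]
    refine ⟨i, ?_⟩
    rcases h2 with h2 | h2 | h2 | h2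
    · exact Or.inl (Or.inl (Or.inl h2))
    · exact Or.inl (Or.inl (Or.inr h2))
    · exact Or.inl (Or.inr h2)
    · exact Or.inr h2
  push Not at h1
  obtain ⟨h2, h3, h4, h5⟩ := h1
  exact ⟨(TInc.ord_eq_zero_iff X.curve.dess (hok.α_ne i)).1 h2,
    (TInc.ord_eq_zero_iff X.curve.dess (hok.B_ne i)).1 h3,
    ((TInc.ord_eq_zero_iff X.curve.dess (hok.disc i)).1 h4).2, h5⟩

/-- the ratio `B ² / α ³` -/
def EC.rat (X : EC k) (i : Fin X.N) : X.L := X.cub.B i ^ 2 / X.cub.α i ^ 3

/-- for every place `c ∈ U` all but finitely many places have other values of the ratios, if the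
ratio is not constant -/
theorem finite_pair (h : X.NonZero) (c : Place k X.L) : {c' : Place k X.L | c' = c ∨ ∃ i : Fin X.N,
    (¬ ∃ a : k, X.rat i = algebraMap k X.L a) ∧ val c' (X.rat i) = val c (X.rat i)}.Finite := by
  have hfin : ({c} ∪ ⋃ i : Fin X.N, ({v : Place k X.L | TInc.ord v (X.rat i) ≠ 0} ∪
      {v : Place k X.L | TInc.ord v (X.rat i - algebraMap k X.L (val c (X.rat i))) ≠ 0})).Finite :=
    (Set.finite_singleton c).union (Set.finite_iUnion fun i =>
      (TInc.finite_ord X.curve.dess _).union (TInc.finite_ord X.curve.dess _))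
  refine hfin.subset ?_
  rintro c' (rfl | ⟨i, h1, h2⟩)
  · exact Or.inl rfl
  · right
    rw [Set.mem_iUnion]
    refine ⟨i, ?_⟩
    have hr0 : X.rat i ≠ 0 := fun h3 => h1 ⟨0, by rw [h3, map_zero]⟩
    by_cases h3 : X.rat i ∈ c'.ring
    · right
      have h4 : c'.At (X.rat i) (val c (X.rat i)) := by
        rw [← h2]
        exact at_val X.curve h3
      have h5 : X.rat i - algebraMap k X.L (val c (X.rat i)) ≠ 0 := fun h6 =>
        h1 ⟨_, sub_eq_zero.1 h6⟩
      have h6 : c'.Vanishes (X.rat i - algebraMap k X.L (val c (X.rat i))) := h4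
      rw [TInc.vanishes_iff_ord X.curve.dess h5] at h6
      exact h6.ne'
    · left
      rw [TInc.mem_iff_ord X.curve.dess hr0, not_le] at h3
      exact h3.ne

end Pool.Agent.EFC
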