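import Pool.Agent.EFC.FIns

/-!
# The classes `eP` and the insertion maps: curves
-/

set_option autoImplicit false

noncomputable section

namespace Pool.Agent.EFC

open Pool.Agent.ZCyc
open Pool.Agent.VFP (Om tt)

variable {k : Type} [Field k] [IsAlgClosed k] [CharZero k] {m n : ℕ} {X : Fin m → EC k}
  {Z : EC k}

open Classical in
/-- the pairs `(c a, none)`, `a ∈ V` -/
private def faltC_im (c : Fin n ↪ Fin m) (V : Finset (Fin n)) : Finset (Fin m × Option ℕ) :=
  V.image fun a => (c a, none)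

private theorem mem_faltC_im {c : Fin n ↪ Fin m} {V : Finset (Fin n)} {p : Fin m × Option ℕ} :
    p ∈ faltC_im c V ↔ ∃ a ∈ V, (c a, none) = p := by
  unfold faltC_im
  rw [Finset.mem_image]

open Classical in
private theorem faltC_card (c : Fin n ↪ Fin m) {T R : Finset (Fin m × Option ℕ)}
    (hF : ∀ a, fib T (c a) = {none})
    (hR : ∀ p : Fin m × Option ℕ, p ∈ R ↔ p ∈ T ∧ ∀ a, c a ≠ p.1)
    {U : Finset (Fin m × Option ℕ)} (hU : U ⊆ R) (V : Finset (Fin n)) :
    (R \ U).card + (n - V.card) = (T \ (U ∪ faltC_im c V)).card := by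
  have h1 : T \ (U ∪ faltC_im c V) = (R \ U) ∪ faltC_im c (Finset.univ \ V) := by
    ext ⟨j, o⟩
    rw [Finset.mem_sdiff, Finset.mem_union, Finset.mem_union, Finset.mem_sdiff, mem_faltC_im,
      mem_faltC_im, hR]
    by_cases h2 : ∀ a, c a ≠ j
    · have h3 : ∀ V' : Finset (Fin n), ¬ ∃ a ∈ V', ((c a, none) : Fin m × Option ℕ) = (j, o) := by
        rintro V' ⟨a, -, h⟩
        exact h2 a (Prod.ext_iff.1 h).1
      rw [iff_false_intro (h3 V), iff_false_intro (h3 (Finset.univ \ V)), or_false, or_false]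
      exact ⟨fun h => ⟨⟨h.1, h2⟩, h.2⟩, fun h => ⟨h.1.1, h.2⟩⟩
    · push Not at h2
      obtain ⟨a, rfl⟩ := h2
      have hUa : ((c a, o) : Fin m × Option ℕ) ∉ U := fun h => ((hR _).1 (hU h)).2 a rfl
      have h3 : ¬ ∀ a', c a' ≠ ((c a, o) : Fin m × Option ℕ).1 := fun h => h a rfl
      have h4 : ((c a, o) : Fin m × Option ℕ) ∈ T ↔ o = none := by
        rw [← mem_fib, hF, Finset.mem_singleton]
      have h5 : ∀ V' : Finset (Fin n),
          (∃ a' ∈ V', ((c a', none) : Fin m × Option ℕ) = (c a, o)) ↔ a ∈ V' ∧ o = none := by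
        intro V'
        constructor
        · rintro ⟨a', ha', h⟩
          have h6 : c a' = c a := (Prod.ext_iff.1 h).1
          have h7 : none = o := (Prod.ext_iff.1 h).2
          rw [← c.injective h6]
          exact ⟨ha', h7.symm⟩
        · rintro ⟨h6, rfl⟩
          exact ⟨a, h6, rfl⟩
      rw [h5, h5, h4, Finset.mem_sdiff]
      have h6 : a ∈ (Finset.univ : Finset (Fin n)) := Finset.mem_univ a
      tauto
  have h2 : Disjoint (R \ U) (faltC_im c (Finset.univ \ V)) := by
    rw [Finset.disjoint_left]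
    intro p hp hp'
    obtain ⟨a, -, rfl⟩ := mem_faltC_im.1 hp'
    exact ((hR _).1 (Finset.mem_sdiff.1 hp).1).2 a rfl
  have h3 : (faltC_im c (Finset.univ \ V)).card = n - V.card := by
    unfold faltC_im
    rw [Finset.card_image_of_injective, Finset.card_sdiff_of_subset (Finset.subset_univ V),
      Finset.card_univ, Fintype.card_fin]
    intro a a' h
    exact c.injective (Prod.ext_iff.1 h).1
  rw [h1, Finset.card_union_of_disjoint h2, h3]

omit [IsAlgClosed k] [CharZero k] in
open Classical in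
private theorem faltC_point (c : Fin n ↪ Fin m) (hc : ∀ a, X (c a) = Z)
    {T R : Finset (Fin m × Option ℕ)}
    (hR : ∀ p : Fin m × Option ℕ, p ∈ R ↔ p ∈ T ∧ ∀ a, c a ≠ p.1) {y : Pts m k} (hy : OnP X y)
    {U : Finset (Fin m × Option ℕ)} (hU : U ⊆ R) (V : Finset (Fin n)) :
    insP (Z := Z) (S := ∅) c (proj U y) ((Z.sub ∅).tup fun j =>
      if j ∈ V then restS ∅ ((y (c j)).to Z) else (Z.sub ∅).oo) =
    proj (U ∪ faltC_im c V) y := by
  funext j
  by_cases h : ∀ a, c a ≠ j
  · rw [insP_not c _ _ h]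
    have h1 : ∀ o, ((j, o) : Fin m × Option ℕ) ∈ U ∪ faltC_im c V ↔ (j, o) ∈ U := by
      intro o
      rw [Finset.mem_union, mem_faltC_im]
      constructor
      · rintro (h1 | ⟨a, -, h1⟩)
        · exact h1
        · exact absurd (Prod.ext_iff.1 h1).1 (h a)
      · exact Or.inl
    unfold proj
    simp only [h1]
  · push Not at h
    obtain ⟨a, rfl⟩ := h
    rw [insP_at]
    have hUa : ∀ o, ((c a, o) : Fin m × Option ℕ) ∉ U := fun o h => ((hR _).1 (hU h)).2 a rfl
    have h1 : ((c a, none) : Fin m × Option ℕ) ∈ U ∪ faltC_im c V ↔ a ∈ V := by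
      rw [Finset.mem_union, mem_faltC_im]
      constructor
      · rintro (h1 | ⟨a', h2, h1⟩)
        · exact absurd h1 (hUa _)
        · have h6 : c a' = c a := (Prod.ext_iff.1 h1).1
          rwa [← c.injective h6]
      · intro h1
        exact Or.inr ⟨a, h1, rfl⟩
    have h2 : ∀ b, ((c a, some b) : Fin m × Option ℕ) ∉ U ∪ faltC_im c V := by
      intro b h2
      rw [Finset.mem_union, mem_faltC_im] at h2
      rcases h2 with h2 | ⟨a', -, h2⟩
      · exact hUa _ h2
      · exact absurd (Prod.ext_iff.1 h2).2 (by simp)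
    have h3 : (y (c a)).1 = Z := (hy (c a)).1.trans (hc a)
    obtain ⟨u, hu⟩ : ∃ u : Crd Z, y (c a) = ⟨Z, u⟩ := by
      generalize y (c a) = q at h3
      obtain ⟨Z', u⟩ := q
      change Z' = Z at h3
      subst h3
      exact ⟨u, rfl⟩
    unfold proj
    simp only [h1, h2, if_false]
    rw [hu]
    by_cases h4 : a ∈ V
    · rw [if_pos h4, if_pos h4, to_mk, lift_rest]
      simp only [Finset.notMem_empty, if_false]
      rfl
    · rw [if_neg h4, if_neg h4, lift_oo]

open Classical in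
/-- The case `S = ∅`: `Z.sub ∅` is the curve `C`. Write the subsets of `T` as the unions of subsets `U` of
`T.filter (∀ a, c a ≠ p.1)` and of sets `{(c a, none) | a ∈ V}`, `V ⊆ Fin n`. For `a ∈ V` the factor `c a`
of `π_(U ∪ V) y` is the point of the zero section above `(y (c a)).c` (`lift_rest`), for `a ∉ V` it is
the base point (`lift_oo`). -/
theorem eP_eq_insC {T : Finset (Fin m × Option ℕ)} (c : Fin n ↪ Fin m)
    (hc : ∀ a, X (c a) = Z) (hF : ∀ a, fib T (c a) = {none}) {y : Pts m k} (hy : OnP X y) :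
    eP X T y =
      ∑ U ∈ (T.filter fun p => ∀ a, c a ≠ p.1).powerset,
        ((-1 : ℚ) ^ ((T.filter fun p => ∀ a, c a ≠ p.1) \ U).card) •
          insV ∅ c hc (onP_proj hy U) (∑ V : Finset (Fin n), ((-1 : ℚ) ^ (n - V.card)) •
            clP ((Z.sub ∅).pow n) ((Z.sub ∅).tup fun j =>
              if j ∈ V then restS ∅ ((y (c j)).to Z) else (Z.sub ∅).oo)) := by
  have hR : ∀ p : Fin m × Option ℕ, p ∈ (T.filter fun p => ∀ a, c a ≠ p.1) ↔
      p ∈ T ∧ ∀ a, c a ≠ p.1 := fun p => Finset.mem_filter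
  generalize (T.filter fun p => ∀ a, c a ≠ p.1) = R at hR ⊢
  have hterm : ∀ U ∈ R.powerset, ((-1 : ℚ) ^ (R \ U).card) •
      insV ∅ c hc (onP_proj hy U) (∑ V : Finset (Fin n), ((-1 : ℚ) ^ (n - V.card)) •
        clP ((Z.sub ∅).pow n) ((Z.sub ∅).tup fun j =>
          if j ∈ V then restS ∅ ((y (c j)).to Z) else (Z.sub ∅).oo)) =
      ∑ V : Finset (Fin n), ((-1 : ℚ) ^ (T \ (U ∪ faltC_im c V)).card) •
        clP X (proj (U ∪ faltC_im c V) y) := by
    intro U hU
    rw [Finset.mem_powerset] at hU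
    rw [map_sum, Finset.smul_sum]
    refine Finset.sum_congr rfl fun V _ => ?_
    rw [map_smul, smul_smul, insV_clP, faltC_point c hc hR hy hU V, ← pow_add,
      faltC_card c hF hR hU V]
  rw [Finset.sum_congr rfl hterm, ← Finset.sum_product']
  unfold eP
  symm
  refine Finset.sum_nbij' (fun q => q.1 ∪ faltC_im c q.2)
    (fun W => (W ∩ R, Finset.univ.filter fun a => (c a, none) ∈ W)) ?_ ?_ ?_ ?_ ?_
  · rintro ⟨U, V⟩ h
    rw [Finset.mem_product, Finset.mem_powerset] at h
    rw [Finset.mem_powerset]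
    intro p hp
    rcases Finset.mem_union.1 hp with h1 | h1
    · exact ((hR p).1 (h.1 h1)).1
    · obtain ⟨a, -, rfl⟩ := mem_faltC_im.1 h1
      rw [← mem_fib, hF]
      exact Finset.mem_singleton_self _
  · intro W _
    rw [Finset.mem_product, Finset.mem_powerset]
    exact ⟨Finset.inter_subset_right, Finset.mem_univ _⟩
  · rintro ⟨U, V⟩ h
    rw [Finset.mem_product, Finset.mem_powerset] at h
    have hU : U ⊆ R := h.1
    refine Prod.ext ?_ ?_
    · ext p
      change p ∈ (U ∪ faltC_im c V) ∩ R ↔ p ∈ U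
      rw [Finset.mem_inter, Finset.mem_union]
      constructor
      · rintro ⟨h1 | h1, h2⟩
        · exact h1
        · obtain ⟨a, -, rfl⟩ := mem_faltC_im.1 h1
          exact absurd rfl (((hR _).1 h2).2 a)
      · intro h1
        exact ⟨Or.inl h1, hU h1⟩
    · ext a
      change a ∈ (Finset.univ.filter fun a => (c a, none) ∈ U ∪ faltC_im c V) ↔ a ∈ V
      rw [Finset.mem_filter, Finset.mem_union]
      constructor
      · rintro ⟨-, h1 | h1⟩
        · exact absurd rfl (((hR _).1 (hU h1)).2 a)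
        · obtain ⟨a', ha', h2⟩ := mem_faltC_im.1 h1
          have h3 : c a' = c a := (Prod.ext_iff.1 h2).1
          rwa [← c.injective h3]
      · intro h1
        exact ⟨Finset.mem_univ _, Or.inr (mem_faltC_im.2 ⟨a, h1, rfl⟩)⟩
  · intro W hW
    rw [Finset.mem_powerset] at hW
    ext p
    change p ∈ (W ∩ R) ∪ faltC_im c (Finset.univ.filter fun a => (c a, none) ∈ W) ↔ p ∈ W
    rw [Finset.mem_union, Finset.mem_inter, mem_faltC_im]
    constructor
    · rintro (h1 | ⟨a, h1, rfl⟩)
      · exact h1.1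
      · exact (Finset.mem_filter.1 h1).2
    · intro h1
      by_cases h2 : ∀ a, c a ≠ p.1
      · exact Or.inl ⟨h1, (hR p).2 ⟨hW h1, h2⟩⟩
      · push Not at h2
        obtain ⟨a, ha⟩ := h2
        right
        obtain ⟨j, o⟩ := p
        change c a = j at ha
        subst ha
        have h3 : o ∈ fib T (c a) := mem_fib.2 (hW h1)
        rw [hF, Finset.mem_singleton] at h3
        subst h3
        exact ⟨a, Finset.mem_filter.2 ⟨Finset.mem_univ _, h1⟩, rfl⟩
  · rintro ⟨U, V⟩ _
    rfl

end Pool.Agent.EFC
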