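import Pool.Agent.EFC.FMap

/-!
# The change of sign in a block
-/

set_option autoImplicit false

noncomputable section

namespace Pool.Agent.EFC

open Pool.Agent.ZCyc
open Pool.Agent.VFP (Om tt)

variable {k : Type} [Field k] [IsAlgClosed k] [CharZero k] {m : ℕ} {X : Fin m → EC k}

/-- the value `c` at `(j, b)` and `1` at all other places -/
def oneAt (j : Fin m) (b : ℕ) (c : SignType) : Fin m → ℕ → SignType :=
  fun j' b' => if j' = j ∧ b' = b then c else 1

omit [IsAlgClosed k] [CharZero k] in
/-- values with the multipliers `1` at a constant point of the curve -/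
private theorem isValue_of {Z : EC k} {v : Place k (Om k)} {P : CrdO Z} {p : Crd Z}
    (hs : P.s = .inr p.c) (hx : ∀ i, v.At (P.x i) (p.x i))
    (hz : ∀ i, v.At (P.z i) (p.z i)) (hy : ∀ b, v.At (P.y b) (p.y b)) : Z.IsValue v P p := by
  have hu : unifO P.s p.c = 1 := by
    rw [hs]
    rfl
  refine ⟨?_, fun _ => 1, fun i => ?_, fun i => ?_, fun b => ?_⟩
  · rw [hs]
    exact baseValue_const p.c
  · rw [hu, one_zpow, one_mul, one_mul]
    exact hx i
  · rw [one_mul]
    exact hz i
  · rw [hu, one_zpow, mul_one, Finset.prod_const_one, one_pow, one_mul]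
    exact hy b

omit [IsAlgClosed k] [CharZero k] in
private theorem flip_at_prod {v : Place k (Om k)} {I : Type*} (S : Finset I) {f : I → Om k}
    {f' : I → k} (h : ∀ i ∈ S, v.At (f i) (f' i)) : v.At (∏ i ∈ S, f i) (∏ i ∈ S, f' i) := by
  classical
  induction S using Finset.induction_on with
  | empty => simpa using VFP.at_one (v := v)
  | insert a S ha ih =>
    rw [Finset.prod_insert ha, Finset.prod_insert ha]
    exact (h a (Finset.mem_insert_self _ _)).mul
      (ih fun i hi => h i (Finset.mem_insert_of_mem hi))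

variable {Z : EC k} {b : ℕ} {w : Crd Z} {v : Place k (Om k)}

/-- the family of points -/
private def fam {Z : EC k} (b : ℕ) (w : Crd Z) (q : Om k) : CrdO Z where
  s := .inr w.c
  x i := if (Z.blk i : ℕ) = b then algebraMap k (Om k) (w.x i) * (1 - tt k) + tt k
    else algebraMap k (Om k) (w.x i)
  z i := if (Z.blk i : ℕ) = b then algebraMap k (Om k) (w.z i) * (1 - tt k)
    else algebraMap k (Om k) (w.z i)
  y b' := if (b' : ℕ) = b then q else algebraMap k (Om k) (w.y b')

omit [IsAlgClosed k] [CharZero k] in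
private theorem fam_x0 (hv : v.At (tt k) 0) (q : Om k) (i : Fin Z.N) :
    v.At ((fam b w q).x i) (w.x i) := by
  change v.At (if (Z.blk i : ℕ) = b then algebraMap k (Om k) (w.x i) * (1 - tt k) + tt k
    else algebraMap k (Om k) (w.x i)) (w.x i)
  split_ifs
  · have h := ((Place.at_const (w.x i)).mul (VFP.at_one.sub hv)).add hv
    simpa using h
  · exact Place.at_const _

omit [IsAlgClosed k] [CharZero k] in
private theorem fam_z0 (hv : v.At (tt k) 0) (q : Om k) (i : Fin Z.N) :
    v.At ((fam b w q).z i) (w.z i) := by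
  change v.At (if (Z.blk i : ℕ) = b then algebraMap k (Om k) (w.z i) * (1 - tt k)
    else algebraMap k (Om k) (w.z i)) (w.z i)
  split_ifs
  · have h := (Place.at_const (w.z i)).mul (VFP.at_one.sub hv)
    simpa using h
  · exact Place.at_const _

/-- the local equation of the family with the index `i` -/
private def ff {Z : EC k} (b : ℕ) (w : Crd Z) (q : Om k) (i : Fin Z.N) : Om k :=
  fac (Z.coAO (fam b w q).s i) (Z.coBO (fam b w q).s i) ((fam b w q).x i) ((fam b w q).z i)

omit [IsAlgClosed k] [CharZero k] in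
private theorem ff_at {x z : k} (q : Om k) (i : Fin Z.N) (hx : v.At ((fam b w q).x i) x)
    (hz : v.At ((fam b w q).z i) z) :
    v.At (ff b w q i) (fac (Z.coA w.c i) (Z.coB w.c i) x z) :=
  hz.mul (((hx.pow 3).add (((Place.at_const (Z.coA w.c i)).mul hx).mul (hz.pow 2))).add
    ((Place.at_const (Z.coB w.c i)).mul (hz.pow 3)))

omit [IsAlgClosed k] [CharZero k] in
private theorem ff_ne (q : Om k) (i : Fin Z.N) (h : (Z.blk i : ℕ) ≠ b) :
    ff b w q i = algebraMap k (Om k) (fac (Z.coA w.c i) (Z.coB w.c i) (w.x i) (w.z i)) := by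
  have ex : (fam b w q).x i = algebraMap k (Om k) (w.x i) := if_neg h
  have ez : (fam b w q).z i = algebraMap k (Om k) (w.z i) := if_neg h
  unfold ff
  rw [ex, ez]
  change fac (algebraMap k (Om k) (Z.coA w.c i)) (algebraMap k (Om k) (Z.coB w.c i))
    (algebraMap k (Om k) (w.x i)) (algebraMap k (Om k) (w.z i)) = _
  unfold fac
  simp only [map_add, map_mul, map_pow]

private theorem on_fam (h : w.On) (hb : b < Z.r) {q : Om k}
    (hq : q ^ 2 = ∏ i with Z.blk i = ⟨b, hb⟩, ff b w 0 i) : (fam b w q).On := by
  obtain ⟨v₀, hv₀⟩ := exists_place (VFP.tt_transc (k := k)) (0 : k)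
  refine ⟨fun i => ?_, fun b' => ?_⟩
  · rcases h.1 i with h1 | h1
    · left
      intro h2
      have h3 := fam_x0 (Z := Z) (b := b) (w := w) hv₀ q i
      rw [h2] at h3
      exact h1 (h3.unique VFP.at_zero)
    · right
      intro h2
      have h3 := fam_z0 (Z := Z) (b := b) (w := w) hv₀ q i
      rw [h2] at h3
      exact h1 (h3.unique VFP.at_zero)
  · by_cases hbb : (b' : ℕ) = b
    · have e1 : b' = ⟨b, hb⟩ := Fin.ext hbb
      subst e1
      have e2 : (fam b w q).y ⟨b, hb⟩ = q := if_pos rfl
      rw [e2, hq]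
      rfl
    · have e2 : (fam b w q).y b' = algebraMap k (Om k) (w.y b') := if_neg hbb
      rw [e2, ← map_pow, h.2 b', map_prod]
      refine Finset.prod_congr rfl fun i hi => ?_
      rw [Finset.mem_filter] at hi
      refine (ff_ne q i ?_).symm
      rw [hi.2]
      exact hbb

omit [IsAlgClosed k] [CharZero k] in
private theorem isValue_fam0 (hv : v.At (tt k) 0) {q : Om k} {p : Crd Z} (hc : w.c = p.c)
    (hx : p.x = w.x) (hz : p.z = w.z) (hy : ∀ b' : Fin Z.r, (b' : ℕ) ≠ b → p.y b' = w.y b')
    (hq : ∀ b' : Fin Z.r, (b' : ℕ) = b → v.At q (p.y b')) : Z.IsValue v (fam b w q) p := by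
  refine isValue_of (congrArg Sum.inr hc) (fun n => ?_) (fun n => ?_) (fun b' => ?_)
  · rw [hx]
    exact fam_x0 hv q n
  · rw [hz]
    exact fam_z0 hv q n
  · change v.At (if (b' : ℕ) = b then q else algebraMap k (Om k) (w.y b')) (p.y b')
    split_ifs with h
    · exact hq b' h
    · rw [hy b' h]
      exact Place.at_const _

omit [IsAlgClosed k] [CharZero k] in
private theorem isValue_fam1 (hv : v.At (tt k) 1) {q : Om k} (hq : v.At q 0) (j : Fin m) :
    Z.IsValue v (fam b w q) (w.mul (oneAt j b 0 j)) := by
  have e0 : ∀ n, (oneAt j b 0 j n = 0) ↔ n = b := by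
    intro n
    unfold oneAt
    by_cases h : n = b <;> simp [h]
  refine isValue_of rfl (fun n => ?_) (fun n => ?_) (fun b' => ?_)
  · change v.At (if (Z.blk n : ℕ) = b then algebraMap k (Om k) (w.x n) * (1 - tt k) + tt k
      else algebraMap k (Om k) (w.x n)) (if oneAt j b 0 j (Z.blk n) = 0 then 1 else w.x n)
    by_cases h : (Z.blk n : ℕ) = b
    · rw [if_pos h, if_pos ((e0 _).2 h)]
      have h1 := ((Place.at_const (w.x n)).mul (VFP.at_one.sub hv)).add hv
      simpa using h1
    · rw [if_neg h, if_neg (fun h' => h ((e0 _).1 h'))]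
      exact Place.at_const _
  · change v.At (if (Z.blk n : ℕ) = b then algebraMap k (Om k) (w.z n) * (1 - tt k)
      else algebraMap k (Om k) (w.z n)) (if oneAt j b 0 j (Z.blk n) = 0 then 0 else w.z n)
    by_cases h : (Z.blk n : ℕ) = b
    · rw [if_pos h, if_pos ((e0 _).2 h)]
      have h1 := (Place.at_const (w.z n)).mul (VFP.at_one.sub hv)
      simpa using h1
    · rw [if_neg h, if_neg (fun h' => h ((e0 _).1 h'))]
      exact Place.at_const _
  · change v.At (if (b' : ℕ) = b then q else algebraMap k (Om k) (w.y b'))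
      ((((oneAt j b 0 j b' : SignType) : ℤ) : k) * w.y b')
    by_cases h : (b' : ℕ) = b
    · rw [if_pos h, (e0 _).2 h]
      simpa using hq
    · have h1 : oneAt j b 0 j b' = 1 := by
        unfold oneAt
        simp [h]
      rw [if_neg h, h1]
      have h2 : (((((1 : SignType) : SignType) : ℤ) : k) * w.y b') = w.y b' := by simp
      rw [h2]
      exact Place.at_const _

omit [IsAlgClosed k] [CharZero k] in
private theorem mulP_ne {x : Pts m k} {j j' : Fin m} (h : j' ≠ j) (b : ℕ) (c : SignType) :
    mulP (oneAt j b c) x j' = x j' := by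
  have h1 : oneAt j b c j' = fun _ => 1 := by
    funext n
    unfold oneAt
    simp [h]
  change (⟨(x j').1, (x j').2.mul (oneAt j b c j')⟩ : Pt k) = x j'
  rw [h1, crd_mul_one]

/-- the family of points of the product -/
private def famP (j : Fin m) (b : ℕ) (x : Pts m k) (q : Om k) : Fin m → PtO k :=
  Function.update (fun j' => (⟨(x j').1, (x j').2.cst⟩ : PtO k)) j ⟨(x j).1, fam b (x j).2 q⟩

omit [IsAlgClosed k] [CharZero k] in
private theorem onP_famP {x : Pts m k} (hx : OnP X x) {j : Fin m} {q : Om k}
    (h : (fam b (x j).2 q).On) : OnPO X (famP j b x q) := by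
  intro j'
  by_cases h1 : j' = j
  · subst h1
    unfold famP
    rw [Function.update_self]
    exact ⟨(hx j').1, h⟩
  · unfold famP
    rw [Function.update_of_ne h1]
    exact ⟨(hx j').1, on_cst (hx j').2⟩

omit [IsAlgClosed k] [CharZero k] in
private theorem isValue_famP {x : Pts m k} {j : Fin m} {q : Om k} {p : Pts m k}
    {p' : Crd (x j).1} (hp' : p j = ⟨(x j).1, p'⟩)
    (h : (x j).1.IsValue v (fam b (x j).2 q) p') (h' : ∀ j', j' ≠ j → p j' = x j')
    (j' : Fin m) : IsVal v (famP j b x q j') (p j') := by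
  by_cases h1 : j' = j
  · subst h1
    unfold famP
    rw [Function.update_self]
    exact ⟨_, _, _, rfl, hp', h⟩
  · unfold famP
    rw [Function.update_of_ne h1, h' j' h1]
    exact ⟨_, _, _, rfl, rfl, isValue_cst v _⟩

omit [IsAlgClosed k] [CharZero k] in
private theorem isValue_flip {j : Fin m} {q : Om k} (hv : v.At (tt k) 0)
    (hq : ∀ b' : Fin Z.r, (b' : ℕ) = b → v.At q (-w.y b')) :
    Z.IsValue v (fam b w q) (w.mul (oneAt j b (-1) j)) := by
  have e0 : ∀ n, oneAt j b (-1) j n ≠ 0 := by
    intro n
    unfold oneAt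
    by_cases h : n = b <;> simp [h]
  refine isValue_fam0 hv rfl ?_ ?_ ?_ ?_
  · funext n
    change (if oneAt j b (-1) j (Z.blk n) = 0 then 1 else w.x n) = w.x n
    rw [if_neg (e0 _)]
  · funext n
    change (if oneAt j b (-1) j (Z.blk n) = 0 then 0 else w.z n) = w.z n
    rw [if_neg (e0 _)]
  · intro b' hb'
    change (((oneAt j b (-1) j b' : SignType) : ℤ) : k) * w.y b' = w.y b'
    have h1 : oneAt j b (-1) j b' = 1 := by
      unfold oneAt
      simp [hb']
    rw [h1]
    simp
  · intro b' hb'
    change v.At q ((((oneAt j b (-1) j b' : SignType) : ℤ) : k) * w.y b')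
    have h1 : oneAt j b (-1) j b' = -1 := by
      unfold oneAt
      simp [hb']
    rw [h1]
    simpa using hq b' hb'

/-- The sum of a point and of the point with `y_b` replaced by `-y_b` in the factor `j` is equivalent
to twice the point with the block `b` of the factor `j` at the zero section. Adapt
`Pool.Agent.EFP.clP_flip` (`EFP/RC.lean`): all points of the family are constant outside the
coordinates `x_i`, `z_i`, `y_b` of the block `b` of the factor `j` (in particular all points of the
curves are constant points `.inr c`, so that `unifO = 1`): `x_i = (1 - t) x_i + t`,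
`z_i = (1 - t) z_i`, `y_b` a square root in `Om k` of the product, with the two signs. Use
`bridgeP`. -/
theorem clP_flip {x : Pts m k} (hx : OnP X x) (j : Fin m) {b : ℕ} (hb : b < (X j).r) :
    clP X x + clP X (mulP (oneAt j b (-1)) x) = (2 : ℚ) • clP X (mulP (oneAt j b 0) x) := by
  have hb' : b < (x j).1.r := by
    rw [(hx j).1]
    exact hb
  obtain ⟨q, hq⟩ := IsAlgClosed.exists_pow_nat_eq
    (∏ i with (x j).1.blk i = ⟨b, hb'⟩, ff b (x j).2 0 i) (n := 2) two_pos
  have hon : ∀ i : Bool, OnPO X (famP j b x (if i then q else -q)) := by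
    intro i
    refine onP_famP hx (on_fam (hx j).2 hb' ?_)
    cases i
    · simpa using hq
    · simpa using hq
  refine bridgeP (I := Bool) (fun _ => 1) (fun i => famP j b x (if i then q else -q)) hon 0 1 _ _
    ?_ ?_
  · intro v hv
    have h1 : v.At (∏ i with (x j).1.blk i = ⟨b, hb'⟩, ff b (x j).2 0 i)
        ((x j).2.y ⟨b, hb'⟩ ^ 2) := by
      rw [(hx j).2.2 ⟨b, hb'⟩]
      exact flip_at_prod _ fun i _ => ff_at 0 i (fam_x0 hv 0 i) (fam_z0 hv 0 i)
    obtain ⟨d, hd, hd2⟩ := VFP.exists_sq_at hq h1
    have hfin : ∀ b' : Fin (x j).1.r, (b' : ℕ) = b → b' = ⟨b, hb'⟩ := fun b' h => Fin.ext h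
    rcases sq_eq_sq_iff_eq_or_eq_neg.1 hd2 with h | h
    · subst h
      refine ⟨fun i => if i then x else mulP (oneAt j b (-1)) x, ?_, ?_, ?_⟩
      · intro i
        cases i
        · exact onP_mulP hx _
        · exact hx
      · intro i j'
        cases i
        · refine isValue_famP (p := mulP (oneAt j b (-1)) x)
            (p' := (x j).2.mul (oneAt j b (-1) j)) rfl (isValue_flip hv fun b' h => ?_)
            (fun j' hj' => mulP_ne hj' b _) j'
          rw [hfin b' h]
          exact hd.neg
        · refine isValue_famP (p := x) (p' := (x j).2) rfl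
            (isValue_fam0 hv rfl rfl rfl (fun _ _ => rfl) fun b' h => ?_) (fun _ _ => rfl) j'
          rw [hfin b' h]
          exact hd
      · rw [Fintype.sum_bool]
        simp
    · subst h
      refine ⟨fun i => if i then mulP (oneAt j b (-1)) x else x, ?_, ?_, ?_⟩
      · intro i
        cases i
        · exact hx
        · exact onP_mulP hx _
      · intro i j'
        cases i
        · refine isValue_famP (p := x) (p' := (x j).2) rfl
            (isValue_fam0 hv rfl rfl rfl (fun _ _ => rfl) fun b' h => ?_) (fun _ _ => rfl) j'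
          rw [hfin b' h]
          have h4 := hd.neg
          rw [neg_neg] at h4
          exact h4
        · refine isValue_famP (p := mulP (oneAt j b (-1)) x)
            (p' := (x j).2.mul (oneAt j b (-1) j)) rfl (isValue_flip hv fun b' h => ?_)
            (fun j' hj' => mulP_ne hj' b _) j'
          rw [hfin b' h]
          exact hd
      · rw [Fintype.sum_bool]
        simp [add_comm]
  · intro v hv
    have hq0 : v.At q 0 := by
      obtain ⟨i₀, hi₀⟩ := blk_surj (x j).1 ⟨b, hb'⟩
      have h1 : v.At (∏ i with (x j).1.blk i = ⟨b, hb'⟩, ff b (x j).2 0 i)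
          (∏ i with (x j).1.blk i = ⟨b, hb'⟩,
            fac ((x j).1.coA (x j).2.c i) ((x j).1.coB (x j).2.c i) 1 0) := by
        refine flip_at_prod _ fun i hi => ?_
        have hi' : ((x j).1.blk i : ℕ) = b := by
          rw [(Finset.mem_filter.1 hi).2]
        refine ff_at 0 i ?_ ?_
        · change v.At (if ((x j).1.blk i : ℕ) = b then
            algebraMap k (Om k) ((x j).2.x i) * (1 - tt k) + tt k
            else algebraMap k (Om k) ((x j).2.x i)) 1
          rw [if_pos hi']
          have h1 := ((Place.at_const ((x j).2.x i)).mul (VFP.at_one.sub hv)).add hv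
          simpa using h1
        · change v.At (if ((x j).1.blk i : ℕ) = b then
            algebraMap k (Om k) ((x j).2.z i) * (1 - tt k)
            else algebraMap k (Om k) ((x j).2.z i)) 0
          rw [if_pos hi']
          have h1 := (Place.at_const ((x j).2.z i)).mul (VFP.at_one.sub hv)
          simpa using h1
      have h2 : ∏ i with (x j).1.blk i = ⟨b, hb'⟩,
            fac ((x j).1.coA (x j).2.c i) ((x j).1.coB (x j).2.c i) (1 : k) 0 = 0 := by
        refine Finset.prod_eq_zero (i := i₀) (by simp [hi₀]) ?_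
        unfold fac
        rw [zero_mul]
      rw [h2] at h1
      obtain ⟨d, hd, hd2⟩ := VFP.exists_sq_at hq h1
      rwa [pow_eq_zero_iff two_ne_zero |>.1 hd2] at hd
    have hq1 : ∀ i : Bool, v.At (if i then q else -q) 0 := by
      intro i
      cases i
      · have h3 := hq0.neg
        rw [neg_zero] at h3
        exact h3
      · exact hq0
    refine ⟨fun _ => mulP (oneAt j b 0) x, fun _ => onP_mulP hx _, fun i j' =>
      isValue_famP (p := mulP (oneAt j b 0) x) (p' := (x j).2.mul (oneAt j b 0 j)) rfl
        (isValue_fam1 hv (hq1 i) j) (fun j' hj' => mulP_ne hj' b 0) j', ?_⟩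
    rw [Fintype.sum_bool, two_smul, one_smul]

end Pool.Agent.EFC
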