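import Pool.Agent.EFC.FMoeb
import Pool.Agent.EFC.FFlip

/-!
# Multiplications and the classes `eP`
-/

set_option autoImplicit false

noncomputable section

namespace Pool.Agent.EFC

open Pool.Agent.ZCyc
open Pool.Agent.VFP (Om tt)

variable {k : Type} [Field k] [IsAlgClosed k] [CharZero k] {m : ℕ} {X : Fin m → EC k}

/-- the sign at a pair -/
def sgp (ε : Fin m → ℕ → SignType) (p : Fin m × Option ℕ) : ℤ :=
  p.2.elim 1 fun b => ((ε p.1 b : SignType) : ℤ)

private lemma fe_split {V : Type*} [AddCommGroup V] [Module ℚ V]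
    {T : Finset (Fin m × Option ℕ)} {p : Fin m × Option ℕ} (hp : p ∈ T)
    (f : Finset (Fin m × Option ℕ) → V) :
    ∑ U ∈ T.powerset, f U = ∑ U ∈ (T.erase p).powerset, (f U + f (insert p U)) := by
  conv_lhs => rw [← Finset.insert_erase hp]
  rw [Finset.sum_powerset_insert (Finset.notMem_erase p T), Finset.sum_add_distrib]

omit [IsAlgClosed k] [CharZero k] in
/-- equality of points of the same variety -/
private lemma fe_mk {Z : EC k} {w w' : Crd Z} (h : w = w') : (⟨Z, w⟩ : Pt k) = ⟨Z, w'⟩ := by
  rw [h]

omit [IsAlgClosed k] [CharZero k] in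
/-- a projection absorbs a multiplication -/
private lemma fe_absorb (U : Finset (Fin m × Option ℕ)) (ε : Fin m → ℕ → SignType) (x : Pts m k)
    (h : ∀ j b, (j, some b) ∈ U → ε j b = 1) : mulP ε (proj U x) = proj U x := by
  funext j
  by_cases hj : (j, none) ∈ U
  · have e1 : proj U x j = (x j).mul (fun b => if (j, some b) ∈ U then 1 else 0) := if_pos hj
    have e2 : mulP ε (proj U x) j = (proj U x j).mul (ε j) := rfl
    rw [e2, e1]
    change (⟨(x j).1, ((x j).2.mul _).mul _⟩ : Pt k) = ⟨(x j).1, (x j).2.mul _⟩
    refine fe_mk ?_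
    rw [crd_mul_mul]
    congr 1
    funext b
    by_cases hb : (j, some b) ∈ U
    · rw [if_pos hb, h j b hb, mul_one]
    · rw [if_neg hb, mul_zero]
  · have e1 : proj U x j = ⟨(x j).1, (x j).1.oo⟩ := if_neg hj
    have e2 : mulP ε (proj U x) j = (proj U x j).mul (ε j) := rfl
    rw [e2, e1]
    exact fe_mk (oo_mul _ _)

omit [IsAlgClosed k] [CharZero k] in
/-- the projection for `U` from the projection for `insert (j, some b) U` -/
private lemma fe_proj {U : Finset (Fin m × Option ℕ)} {j : Fin m} {b : ℕ}
    (hU : (j, some b) ∉ U) (x : Pts m k) :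
    proj U x = mulP (oneAt j b 0) (proj (insert (j, some b) U) x) := by
  funext i
  by_cases hi : (i, none) ∈ U
  · have hi' : (i, none) ∈ insert (j, some b) U := Finset.mem_insert_of_mem hi
    have e1 : proj U x i = (x i).mul (fun b' => if (i, some b') ∈ U then 1 else 0) := if_pos hi
    have e2 : proj (insert (j, some b) U) x i =
        (x i).mul (fun b' => if (i, some b') ∈ insert (j, some b) U then 1 else 0) := if_pos hi'
    have e3 : mulP (oneAt j b 0) (proj (insert (j, some b) U) x) i =
        (proj (insert (j, some b) U) x i).mul (oneAt j b 0 i) := rfl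
    rw [e3, e1, e2]
    change (⟨(x i).1, (x i).2.mul _⟩ : Pt k) = ⟨(x i).1, ((x i).2.mul _).mul _⟩
    refine fe_mk ?_
    rw [crd_mul_mul]
    congr 1
    funext b'
    unfold oneAt
    by_cases h : i = j ∧ b' = b
    · rw [if_pos h, zero_mul, h.1, h.2, if_neg hU]
    · rw [if_neg h, one_mul]
      have h1 : (i, some b') ∈ insert (j, some b) U ↔ (i, some b') ∈ U := by
        rw [Finset.mem_insert]
        constructor
        · rintro (h2 | h2)
          · obtain ⟨h3, h4⟩ := Prod.mk.inj h2
            exact absurd ⟨h3, Option.some.inj h4⟩ h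
          · exact h2
        · exact Or.inr
      simp only [h1]
  · have hi' : (i, none) ∉ insert (j, some b) U := by
      rw [Finset.mem_insert]
      rintro (h | h)
      · exact absurd (Prod.mk.inj h).2 (by simp)
      · exact hi h
    have e1 : proj U x i = ⟨(x i).1, (x i).1.oo⟩ := if_neg hi
    have e2 : proj (insert (j, some b) U) x i = ⟨(x i).1, (x i).1.oo⟩ := if_neg hi'
    have e3 : mulP (oneAt j b 0) (proj (insert (j, some b) U) x) i =
        (proj (insert (j, some b) U) x i).mul (oneAt j b 0 i) := rfl
    rw [e3, e1, e2]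
    exact (fe_mk (oo_mul _ _)).symm

omit [IsAlgClosed k] [CharZero k] in
private lemma fe_one {T : Finset (Fin m × Option ℕ)} (x : Pts m k) (ε : Fin m → ℕ → SignType)
    (h : ∀ j b, (j, some b) ∈ T → ε j b = 1) : eP X T (mulP ε x) = eP X T x := by
  unfold eP
  refine Finset.sum_congr rfl fun U hU => ?_
  have hU' := Finset.mem_powerset.mp hU
  rw [proj_mulP, fe_absorb U ε x fun j b hb => h j b (hU' hb)]

private lemma fe_single {T : Finset (Fin m × Option ℕ)} (hT : T ⊆ blocks X) {x : Pts m k}
    (hx : OnP X x) (j : Fin m) (b : ℕ) (c : SignType) :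
    eP X T (mulP (oneAt j b c) x) =
      (if (j, some b) ∈ T then (((c : SignType) : ℤ) : ℚ) else 1) • eP X T x := by
  by_cases hT1 : (j, some b) ∈ T
  · rw [if_pos hT1]
    have hb : b < (X j).r := some_mem_blocks.1 (hT hT1)
    by_cases hc1 : c = 1
    · subst hc1
      rw [fe_one]
      · simp
      · intro j' b' _
        unfold oneAt
        split_ifs <;> rfl
    · unfold eP
      rw [fe_split hT1, fe_split hT1, Finset.smul_sum]
      refine Finset.sum_congr rfl fun U hU => ?_
      have hU' := Finset.mem_powerset.mp hU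
      have hpU : (j, some b) ∉ U := fun h => Finset.notMem_erase _ T (hU' h)
      have hc : (T \ U).card = (T \ insert (j, some b) U).card + 1 := by
        have h1 : T \ U = insert (j, some b) (T \ insert (j, some b) U) := by
          ext q
          simp only [Finset.mem_sdiff, Finset.mem_insert, not_or]
          constructor
          · rintro ⟨h1, h2⟩
            by_cases h3 : q = (j, some b)
            · exact Or.inl h3
            · exact Or.inr ⟨h1, h3, h2⟩
          · rintro (rfl | ⟨h1, h2, h3⟩)
            · exact ⟨hT1, hpU⟩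
            · exact ⟨h1, h3⟩
        rw [h1, Finset.card_insert_of_notMem (by simp)]
      set z := proj (insert (j, some b) U) x with hz
      have hzP : OnP X z := onP_proj hx _
      have e1 : proj U x = mulP (oneAt j b 0) z := fe_proj hpU x
      have e2 : proj U (mulP (oneAt j b c) x) = mulP (oneAt j b 0) z := by
        rw [proj_mulP, e1, mulP_mulP]
        congr 1
        funext j' b'
        unfold oneAt
        split_ifs
        · rw [mul_zero]
        · rw [mul_one]
      have e3 : proj (insert (j, some b) U) (mulP (oneAt j b c) x) = mulP (oneAt j b c) z := by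
        rw [proj_mulP]
      rw [e1, e2, e3, hc, pow_succ]
      have hfl := clP_flip hzP j hb
      rcases c with _ | _ | _
      · have h0 : (SignType.zero : SignType) = 0 := rfl
        rw [h0, SignType.coe_zero, Int.cast_zero, zero_smul]
        module
      · have h0 : (SignType.neg : SignType) = -1 := rfl
        rw [h0]
        have h3 : clP X (mulP (oneAt j b (-1)) z) =
            (2 : ℚ) • clP X (mulP (oneAt j b 0) z) - clP X z := by
          rw [← hfl]
          abel
        rw [h3]
        have h4 : (((-1 : SignType) : ℤ) : ℚ) = -1 := by norm_num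
        rw [h4]
        module
      · exact absurd rfl hc1
  · rw [if_neg hT1, one_smul, fe_one]
    intro j' b' hp
    unfold oneAt
    rw [if_neg]
    rintro ⟨h1, h2⟩
    exact hT1 (by rw [← h1, ← h2]; exact hp)

private lemma fe_cast_mul (a b : SignType) : ((a * b : SignType) : ℤ) = (a : ℤ) * (b : ℤ) := by
  cases a <;> cases b <;> rfl

private lemma sgp_mul (ε ε' : Fin m → ℕ → SignType) (p : Fin m × Option ℕ) :
    sgp (fun j b => ε j b * ε' j b) p = sgp ε p * sgp ε' p := by
  obtain ⟨j, o⟩ := p
  cases o with
  | none => exact (mul_one 1).symm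
  | some b => exact fe_cast_mul _ _

private lemma prod_sgp_oneAt (T : Finset (Fin m × Option ℕ)) (j : Fin m) (b : ℕ) (c : SignType) :
    (∏ p ∈ T, ((sgp (oneAt j b c) p : ℤ) : ℚ)) =
      if (j, some b) ∈ T then (((c : SignType) : ℤ) : ℚ) else 1 := by
  have h : ∀ p ∈ T, ((sgp (oneAt j b c) p : ℤ) : ℚ) =
      if p = (j, some b) then (((c : SignType) : ℤ) : ℚ) else 1 := by
    rintro ⟨j', o⟩ _
    cases o with
    | none =>
      rw [if_neg (fun h => absurd (Prod.mk.inj h).2 (by simp))]
      exact Int.cast_one
    | some b' =>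
      change ((((oneAt j b c j' b' : SignType) : ℤ)) : ℚ) = _
      unfold oneAt
      by_cases h1 : j' = j ∧ b' = b
      · rw [if_pos h1, if_pos (by rw [h1.1, h1.2])]
      · rw [if_neg h1, if_neg]
        · simp
        · intro h2
          obtain ⟨h3, h4⟩ := Prod.mk.inj h2
          exact h1 ⟨h3, Option.some.inj h4⟩
  rw [Finset.prod_congr rfl h, Finset.prod_ite_eq']

private lemma fe_part {T : Finset (Fin m × Option ℕ)} (hT : T ⊆ blocks X) {x : Pts m k}
    (hx : OnP X x) (ε : Fin m → ℕ → SignType) (B : Finset (Fin m × ℕ)) :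
    eP X T (mulP (fun j b => if (j, b) ∈ B then ε j b else 1) x) =
      (∏ p ∈ T, ((sgp (fun j b => if (j, b) ∈ B then ε j b else 1) p : ℤ) : ℚ)) •
        eP X T x := by
  induction B using Finset.induction_on with
  | empty =>
    rw [fe_one]
    · rw [Finset.prod_eq_one, one_smul]
      rintro ⟨j', o⟩ _
      cases o with
      | none => exact Int.cast_one
      | some b' =>
        change (((((if (j', b') ∈ (∅ : Finset (Fin m × ℕ)) then ε j' b' else 1) : SignType) :
          ℤ)) : ℚ) = 1
        simp
    · intro j' b' _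
      simp
  | insert q B hq ih =>
    have e0 : (fun j b => if (j, b) ∈ insert q B then ε j b else 1) =
        fun j b => oneAt q.1 q.2 (ε q.1 q.2) j b * (if (j, b) ∈ B then ε j b else 1) := by
      funext j b
      unfold oneAt
      by_cases h1 : (j, b) = q
      · subst h1
        simp [hq]
      · have h2 : ¬ (j = q.1 ∧ b = q.2) := fun h => h1 (Prod.ext h.1 h.2)
        rw [if_neg h2, one_mul]
        simp [Finset.mem_insert, h1]
    rw [e0, ← mulP_mulP, fe_single hT (onP_mulP hx _), ih, smul_smul]
    congr 1
    rw [← prod_sgp_oneAt, ← Finset.prod_mul_distrib]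
    refine Finset.prod_congr rfl fun p _ => ?_
    rw [sgp_mul, Int.cast_mul]

/-- Fibrewise multiplications act on `eP X T x` by the product of the multipliers. Adapt
`Pool.Agent.EFP.eP_mul` (`EFP/E.lean`, with the private lemmas `e_split`, `e_single`, `e_part` there);
the pairs `(j, none)` do not matter. -/
theorem eP_mul {T : Finset (Fin m × Option ℕ)} (hT : T ⊆ blocks X) {x : Pts m k}
    (hx : OnP X x) (ε : Fin m → ℕ → SignType) :
    eP X T (mulP ε x) = (∏ p ∈ T, ((sgp ε p : ℤ) : ℚ)) • eP X T x := by
  set B : Finset (Fin m × ℕ) := Finset.univ.biUnion fun j =>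
    (Finset.range (X j).r).image fun b => (j, b) with hB
  have hmem : ∀ j b, b < (X j).r → (j, b) ∈ B := by
    intro j b h
    rw [hB, Finset.mem_biUnion]
    exact ⟨j, Finset.mem_univ _, Finset.mem_image.2 ⟨b, Finset.mem_range.2 h, rfl⟩⟩
  have h1 := fe_part hT hx ε B
  have h2 : mulP (fun j b => if (j, b) ∈ B then ε j b else 1) x = mulP ε x := by
    funext j
    refine fe_mk (crd_mul_congr (fun b hb => ?_) _)
    rw [(hx j).1] at hb
    exact if_pos (hmem j b hb)
  have h3 : ∏ p ∈ T, ((sgp (fun j b => if (j, b) ∈ B then ε j b else 1) p : ℤ) : ℚ) =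
      ∏ p ∈ T, ((sgp ε p : ℤ) : ℚ) := by
    refine Finset.prod_congr rfl fun p hp => ?_
    obtain ⟨j, o⟩ := p
    cases o with
    | none => rfl
    | some b =>
      have h4 := hmem j b (some_mem_blocks.1 (hT hp))
      change ((((if (j, b) ∈ B then ε j b else 1 : SignType) : ℤ)) : ℚ) =
        (((ε j b : SignType) : ℤ) : ℚ)
      rw [if_pos h4]
  rw [← h3, ← h1, h2]

end Pool.Agent.EFC
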