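import Pool.Agent.EFC.FIns
import Pool.Agent.EFC.FE

/-!
# The classes `eP` and the insertion maps: blocks

Adapt `Pool/Agent/EFP/AltB.lean`.
-/

set_option autoImplicit false

noncomputable section

namespace Pool.Agent.EFC

open Pool.Agent.ZCyc
open Pool.Agent.VFP (Om tt)

variable {k : Type} [Field k] [IsAlgClosed k] [CharZero k] {m n : ℕ} {X : Fin m → EC k}
  {Z : EC k} {S : Finset ℕ}

private def sgt (e : ℤˣ) : SignType := if e = 1 then 1 else -1

private theorem sgt_int (e : ℤˣ) : ((sgt e : SignType) : ℤ) = (e : ℤ) := by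
  rcases Int.units_eq_one_or e with h | h
  · subst h
    rfl
  · subst h
    rfl

private theorem sgt_ne (e : ℤˣ) : sgt e ≠ 0 := by
  rcases Int.units_eq_one_or e with h | h
  · subst h
    decide
  · subst h
    decide

open Classical in
/-- the signs -/
private def dl (Z : EC k) (S : Finset ℕ) (c : Fin n ↪ Fin m)
    (ε : Fin n → Fin (Z.sub S).r → ℤˣ) (j : Fin m) (b : ℕ) : SignType :=
  if h : ∃ p : Fin n × Fin (Z.sub S).r, c p.1 = j ∧ ((κS Z S p.2 : Fin Z.r) : ℕ) = b then
    sgt (ε h.choose.1 h.choose.2) else 1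

omit [IsAlgClosed k] [CharZero k] in
private theorem κS_inj {a b : Fin (Z.sub S).r}
    (h : ((κS Z S a : Fin Z.r) : ℕ) = ((κS Z S b : Fin Z.r) : ℕ)) : a = b :=
  (κS Z S).injective (Fin.ext h)

omit [IsAlgClosed k] [CharZero k] in
private theorem κS_mem (a : Fin (Z.sub S).r) : ((κS Z S a : Fin Z.r) : ℕ) ∈ S :=
  (κS_range Z S _).1 ⟨a, rfl⟩

omit [IsAlgClosed k] [CharZero k] in
private theorem κS_ex (hr : ∀ b ∈ S, b < Z.r) {b : ℕ} (hb : b ∈ S) :
    ∃ a : Fin (Z.sub S).r, ((κS Z S a : Fin Z.r) : ℕ) = b := by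
  obtain ⟨a, ha⟩ := (κS_range Z S ⟨b, hr b hb⟩).2 hb
  exact ⟨a, congrArg Fin.val ha⟩

omit [IsAlgClosed k] [CharZero k] in
private theorem dl_eq (c : Fin n ↪ Fin m) (ε : Fin n → Fin (Z.sub S).r → ℤˣ) (a : Fin n)
    (b : Fin (Z.sub S).r) :
    dl Z S c ε (c a) ((κS Z S b : Fin Z.r) : ℕ) = sgt (ε a b) := by
  have h : ∃ p : Fin n × Fin (Z.sub S).r, c p.1 = c a ∧
      ((κS Z S p.2 : Fin Z.r) : ℕ) = ((κS Z S b : Fin Z.r) : ℕ) := ⟨(a, b), rfl, rfl⟩
  unfold dl
  rw [dif_pos h]
  rw [c.injective h.choose_spec.1, κS_inj h.choose_spec.2]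

omit [IsAlgClosed k] [CharZero k] in
private theorem dl_one (c : Fin n ↪ Fin m) (ε : Fin n → Fin (Z.sub S).r → ℤˣ) {j : Fin m}
    (hj : ∀ a, c a ≠ j) (b : ℕ) : dl Z S c ε j b = 1 := by
  unfold dl
  rw [dif_neg]
  rintro ⟨p, hp, -⟩
  exact hj _ hp

omit [IsAlgClosed k] [CharZero k] in
private theorem dl_ne (c : Fin n ↪ Fin m) (ε : Fin n → Fin (Z.sub S).r → ℤˣ) (j : Fin m)
    (b : ℕ) : dl Z S c ε j b ≠ 0 := by
  unfold dl
  split_ifs
  · exact sgt_ne _
  · exact one_ne_zero

omit [IsAlgClosed k] [CharZero k] in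
private theorem dl_mul (c : Fin n ↪ Fin m) (ε fl : Fin n → Fin (Z.sub S).r → ℤˣ) {j : Fin m}
    {b : ℕ} (h : ∀ p : Fin n × Fin (Z.sub S).r, c p.1 = j →
      ((κS Z S p.2 : Fin Z.r) : ℕ) = b → fl p.1 p.2 = 1) :
    dl Z S c (ε * fl) j b = dl Z S c ε j b := by
  unfold dl
  split_ifs with h1
  · rw [Pi.mul_apply, Pi.mul_apply, h _ h1.choose_spec.1 h1.choose_spec.2, mul_one]
  · rfl

private theorem snN_prod {n r : ℕ} (ε : Fin n → Fin r → ℤˣ) :
    snN ε = ∏ p : Fin n × Fin r, (((ε p.1 p.2 : ℤˣ) : ℤ) : ℚ) := by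
  rw [Fintype.prod_prod_type]
  rfl

private theorem snN_times {n r : ℕ} (ε ε' : Fin n → Fin r → ℤˣ) :
    snN (ε * ε') = snN ε * snN ε' := by
  rw [snN_prod, snN_prod, snN_prod, ← Finset.prod_mul_distrib]
  refine Finset.prod_congr rfl fun p _ => ?_
  rw [Pi.mul_apply, Pi.mul_apply, Units.val_mul, Int.cast_mul]

private theorem snN_sqr {n r : ℕ} (ε : Fin n → Fin r → ℤˣ) : snN ε * snN ε = 1 := by
  rw [snN_prod, ← Finset.prod_mul_distrib]
  refine Finset.prod_eq_one fun p _ => ?_
  rcases Int.units_eq_one_or (ε p.1 p.2) with h | h <;> rw [h] <;> norm_num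

omit [IsAlgClosed k] [CharZero k] in
private theorem mem_T {T : Finset (Fin m × Option ℕ)} {c : Fin n ↪ Fin m}
    (hF : ∀ a, fib T (c a) = insert none (S.image some)) (a : Fin n) (o : Option ℕ) :
    (c a, o) ∈ T ↔ ∀ b, o = some b → b ∈ S := by
  rw [← mem_fib, hF, Finset.mem_insert, Finset.mem_image]
  constructor
  · rintro (h | ⟨b, hb, h⟩) b' hb'
    · rw [h] at hb'
      exact absurd hb' (by simp)
    · rw [← h] at hb'
      rwa [← Option.some.inj hb']
  · intro h
    cases o with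
    | none => exact Or.inl rfl
    | some b => exact Or.inr ⟨b, h b rfl, rfl⟩

omit [IsAlgClosed k] [CharZero k] in
private theorem prod_dl (hr : ∀ b ∈ S, b < Z.r) {T : Finset (Fin m × Option ℕ)}
    {c : Fin n ↪ Fin m} (hF : ∀ a, fib T (c a) = insert none (S.image some))
    (ε : Fin n → Fin (Z.sub S).r → ℤˣ) :
    (∏ p ∈ T, ((sgp (dl Z S c ε) p : ℤ) : ℚ)) = snN ε := by
  classical
  have hinj : Function.Injective fun p : Fin n × Fin (Z.sub S).r =>
      ((c p.1, some ((κS Z S p.2 : Fin Z.r) : ℕ)) : Fin m × Option ℕ) := by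
    rintro ⟨a, b⟩ ⟨a', b'⟩ h
    have h1 := (Prod.ext_iff.1 h).1
    have h2 := Option.some.inj (Prod.ext_iff.1 h).2
    exact Prod.ext (c.injective h1) (κS_inj h2)
  rw [snN_prod]
  have h1 : (Finset.univ.image fun p : Fin n × Fin (Z.sub S).r =>
      ((c p.1, some ((κS Z S p.2 : Fin Z.r) : ℕ)) : Fin m × Option ℕ)) ⊆ T := by
    intro q hq
    obtain ⟨p, -, rfl⟩ := Finset.mem_image.1 hq
    rw [mem_T hF]
    intro b hb
    rw [← Option.some.inj hb]
    exact κS_mem _
  rw [← Finset.prod_subset h1, Finset.prod_image fun p _ q _ h => hinj h]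
  · refine Finset.prod_congr rfl fun p _ => ?_
    show ((((dl Z S c ε (c p.1) ((κS Z S p.2 : Fin Z.r) : ℕ) : SignType) : ℤ) : ℤ) : ℚ) = _
    rw [dl_eq, sgt_int]
  · rintro ⟨j, o⟩ hT hq
    cases o with
    | none => simp [sgp]
    | some b =>
      have hj : ∀ a, c a ≠ j := by
        rintro a rfl
        have h2 : b ∈ S := (mem_T hF a (some b)).1 hT b rfl
        obtain ⟨b', hb'⟩ := κS_ex hr h2
        refine hq (Finset.mem_image.2 ⟨(a, b'), Finset.mem_univ _, ?_⟩)
        simp only [hb']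
      show ((((dl Z S c ε j b : SignType) : ℤ) : ℤ) : ℚ) = _
      rw [dl_one c ε hj]
      norm_num

omit [IsAlgClosed k] [CharZero k] in
/-- changes of signs of the coordinates `y_b`, `b ∈ S` -/
private theorem crd_sign {δ : ℕ → SignType} (hδ : ∀ b, δ b ≠ 0) (ε : Fin (Z.sub S).r → ℤˣ)
    (hε : ∀ b : Fin (Z.sub S).r, δ ((κS Z S b : Fin Z.r) : ℕ) = sgt (ε b))
    {u : ℕ → SignType} (hu : ∀ b, u b = if b ∈ S then 1 else 0) (w : Crd Z) :
    (w.mul δ).mul u = liftS ((restS S w).sg ε) := by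
  have h1 : (restS S w).sg ε = restS S (w.mul δ) := by
    refine Crd.ext rfl ?_ ?_ ?_
    · funext a
      show w.x (ιS Z S a) = if δ (Z.blk (ιS Z S a)) = 0 then 1 else w.x (ιS Z S a)
      rw [if_neg (hδ _)]
    · funext a
      show w.z (ιS Z S a) = if δ (Z.blk (ιS Z S a)) = 0 then 0 else w.z (ιS Z S a)
      rw [if_neg (hδ _)]
    · funext b
      show (((ε b : ℤˣ) : ℤ) : k) * w.y (κS Z S b) =
        (((δ ((κS Z S b : Fin Z.r) : ℕ) : SignType) : ℤ) : k) * w.y (κS Z S b)
      rw [hε, sgt_int]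
  have h2 : u = fun b => if b ∈ S then 1 else 0 := funext hu
  rw [h1, lift_rest, h2]

omit [IsAlgClosed k] [CharZero k] in
private theorem pt_to {w : Pt k} (h : w.1 = Z) : w = ⟨Z, w.to Z⟩ := by
  obtain ⟨Z', w⟩ := w
  subst h
  rw [to_mk]

omit [IsAlgClosed k] [CharZero k] in
private theorem proj_congr {U : Finset (Fin m × Option ℕ)} {x : Pts m k}
    {δ δ' : Fin m → ℕ → SignType}
    (h : ∀ j b, (j, none) ∈ U → (j, some b) ∈ U → δ j b = δ' j b) :
    proj U (mulP δ x) = proj U (mulP δ' x) := by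
  funext j
  unfold proj
  split_ifs with h1
  · show (⟨(x j).1, ((x j).2.mul (δ j)).mul _⟩ : Pt k) = ⟨(x j).1, ((x j).2.mul (δ' j)).mul _⟩
    rw [crd_mul_mul, crd_mul_mul]
    have h2 : (fun b => (if (j, some b) ∈ U then (1 : SignType) else 0) * δ j b) =
        fun b => (if (j, some b) ∈ U then (1 : SignType) else 0) * δ' j b := by
      funext b
      split_ifs with h3
      · rw [h j b h1 h3]
      · rw [zero_mul, zero_mul]
    rw [h2]
  · rfl

open Classical in
/-- Let `S` be not empty. Since `eP_mul` shows that sign changes in `(c a, some b)`, `b ∈ S`, multiply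
`eP X T y` by the product of the signs, `2 ^ (n * r) • eP X T y` (`r` the number of the blocks of
`Z.sub S`) is the alternating sum of the classes `eP X T` of all points obtained from `y` by such sign
changes. Write `eP X T` as a sum over `U ⊆ T`. If `(c a, none) ∉ U` or `(c a, some b) ∉ U` for some `a`
and some `b ∈ S` then the change of the sign in `(c a, some b)` does not change the point `π_U y'`, and
the alternating sum is zero (if `(c a, none) ∉ U` take any `b ∈ S`). For the other `U` one gets the image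
of `TN` (`lift_rest`). -/
theorem eP_eq_insV {T : Finset (Fin m × Option ℕ)} (hT : T ⊆ blocks X) (hS : S ≠ ∅)
    (hr : ∀ b ∈ S, b < Z.r) (c : Fin n ↪ Fin m) (hc : ∀ a, X (c a) = Z)
    (hF : ∀ a, fib T (c a) = insert none (S.image some)) {y : Pts m k} (hy : OnP X y) :
    ((2 : ℚ) ^ (n * (Z.sub S).r)) • eP X T y =
      ∑ U ∈ (T.filter fun p => ∀ a, c a ≠ p.1).powerset,
        ((-1 : ℚ) ^ ((T.filter fun p => ∀ a, c a ≠ p.1) \ U).card) •
          insV S c hc (onP_proj hy U) ((Z.sub S).TN fun a => restS S ((y (c a)).to Z)) := by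
  have h1 : ((2 : ℚ) ^ (n * (Z.sub S).r)) • eP X T y =
      ∑ ε : Fin n → Fin (Z.sub S).r → ℤˣ, snN ε • eP X T (mulP (dl Z S c ε) y) := by
    have h2 : ∀ ε : Fin n → Fin (Z.sub S).r → ℤˣ,
        snN ε • eP X T (mulP (dl Z S c ε) y) = eP X T y := by
      intro ε
      rw [eP_mul hT hy, prod_dl hr hF, smul_smul, snN_sqr, one_smul]
    rw [Finset.sum_congr rfl fun ε _ => h2 ε, Finset.sum_const, Finset.card_univ,
      ← Nat.cast_smul_eq_nsmul ℚ]
    congr 1
    simp only [Fintype.card_fun, Fintype.card_fin, Fintype.card_units_int]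
    push_cast
    rw [← pow_mul, mul_comm]
  let G : Finset (Fin m × Option ℕ) → VP X := fun U =>
    ∑ ε : Fin n → Fin (Z.sub S).r → ℤˣ, snN ε • clP X (proj U (mulP (dl Z S c ε) y))
  have h2 : ((2 : ℚ) ^ (n * (Z.sub S).r)) • eP X T y =
      ∑ U ∈ T.powerset, ((-1 : ℚ) ^ (T \ U).card) • G U := by
    rw [h1]
    simp only [eP, G, Finset.smul_sum]
    rw [Finset.sum_comm]
    refine Finset.sum_congr rfl fun U _ => Finset.sum_congr rfl fun ε _ => ?_
    rw [smul_comm]
  -- the terms which cancel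
  have h3 : ∀ U : Finset (Fin m × Option ℕ), ∀ (a : Fin n) (b : Fin (Z.sub S).r),
      ((c a, none) ∉ U ∨ (c a, some ((κS Z S b : Fin Z.r) : ℕ)) ∉ U) → G U = 0 := by
    intro U a b hU
    let fl : Fin n → Fin (Z.sub S).r → ℤˣ := fun a' b' => if (a', b') = (a, b) then -1 else 1
    have hfl : snN fl = -1 := by
      rw [snN_prod, Finset.prod_eq_single (a, b)]
      · simp [fl]
      · rintro ⟨a', b'⟩ - hne
        simp only [fl]
        rw [if_neg hne]
        norm_num
      · intro h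
        exact absurd (Finset.mem_univ _) h
    have hcl : ∀ ε : Fin n → Fin (Z.sub S).r → ℤˣ, proj U (mulP (dl Z S c (ε * fl)) y) =
        proj U (mulP (dl Z S c ε) y) := by
      intro ε
      refine proj_congr fun j b' h4 h5 => dl_mul c ε fl fun p hp1 hp2 => ?_
      simp only [fl]
      rw [if_neg]
      intro h6
      have h7 : p.1 = a := (Prod.ext_iff.1 h6).1
      have h8 : p.2 = b := (Prod.ext_iff.1 h6).2
      rcases hU with hU | hU
      · apply hU
        rw [← h7, hp1]
        exact h4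
      · apply hU
        rw [← h7, ← h8, hp1, hp2]
        exact h5
    have h4 : G U = - G U := by
      conv_lhs =>
        simp only [G]
        rw [← Equiv.sum_comp (Equiv.mulRight fl)]
      simp only [G]
      rw [← Finset.sum_neg_distrib]
      refine Finset.sum_congr rfl fun ε _ => ?_
      rw [Equiv.coe_mulRight, snN_times, hfl, hcl, mul_neg_one, neg_smul]
    have h5 : (2 : ℚ) • G U = 0 := by
      rw [two_smul]
      nth_rewrite 1 [h4]
      rw [neg_add_cancel]
    exact (smul_eq_zero.1 h5).resolve_left two_ne_zero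
  obtain ⟨s0, hs0⟩ := Finset.nonempty_iff_ne_empty.2 hS
  obtain ⟨b0, -⟩ := κS_ex hr hs0
  -- the other terms
  let Q : Finset (Fin m × Option ℕ) := T.filter fun p => ¬ ∀ a, c a ≠ p.1
  let R : Finset (Fin m × Option ℕ) := T.filter fun p => ∀ a, c a ≠ p.1
  have hQ : ∀ p ∈ Q, ∃ a, p.1 = c a ∧ ∀ b, p.2 = some b → b ∈ S := by
    rintro ⟨j, o⟩ hp
    obtain ⟨hp1, hp2⟩ := Finset.mem_filter.1 hp
    push Not at hp2
    obtain ⟨a, rfl⟩ := hp2
    exact ⟨a, rfl, (mem_T hF a o).1 hp1⟩
  have hQT : ∀ (a : Fin n) (o : Option ℕ), (c a, o) ∈ Q ↔ ∀ b, o = some b → b ∈ S := by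
    intro a o
    rw [← mem_T hF a o]
    exact ⟨fun h => (Finset.mem_filter.1 h).1, fun h => Finset.mem_filter.2 ⟨h, fun h5 => h5 a rfl⟩⟩
  have hsub : (R.powerset.image fun U => U ∪ Q) ⊆ T.powerset := by
    intro V hV
    obtain ⟨U, hU, rfl⟩ := Finset.mem_image.1 hV
    rw [Finset.mem_powerset] at hU ⊢
    exact Finset.union_subset (hU.trans (Finset.filter_subset _ _)) (Finset.filter_subset _ _)
  have hdis : ∀ U ∈ R.powerset, ∀ p ∈ U, p ∉ Q := by
    intro U hU p hp hp'
    rw [Finset.mem_powerset] at hU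
    exact (Finset.mem_filter.1 hp').2 (Finset.mem_filter.1 (hU hp)).2
  rw [h2, ← Finset.sum_subset hsub, Finset.sum_image]
  · refine Finset.sum_congr rfl fun U hU => ?_
    have hUR := Finset.mem_powerset.1 hU
    have e1 : T \ (U ∪ Q) = R \ U := by
      ext p
      simp only [Finset.mem_sdiff, Finset.mem_union, Finset.mem_filter, Q, R]
      tauto
    rw [e1]
    congr 1
    simp only [G]
    rw [TN_def, map_sum]
    refine Finset.sum_congr rfl fun ε _ => ?_
    rw [map_smul]
    congr 1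
    have e2 := insV_clP (S := S) c hc (onP_proj hy U)
      (fun j => (restS S ((y (c j)).to Z)).sg (ε j))
    refine Eq.trans ?_ e2.symm
    congr 1
    have hmemU : ∀ (a : Fin n) (o : Option ℕ), (c a, o) ∈ U ∪ Q ↔ ∀ b, o = some b → b ∈ S := by
      intro a o
      rw [Finset.mem_union, hQT]
      constructor
      · rintro (h4 | h4)
        · exact absurd rfl ((Finset.mem_filter.1 (hUR h4)).2 a)
        · exact h4
      · exact fun h4 => Or.inr h4
    funext j
    by_cases h : ∃ a, c a = j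
    · obtain ⟨a, rfl⟩ := h
      rw [insP_at]
      have hy1 : y (c a) = ⟨Z, (y (c a)).to Z⟩ := pt_to (((hy (c a)).1).trans (hc a))
      have e3 : (c a, none) ∈ U ∪ Q := (hmemU a none).2 fun b hb => absurd hb (by simp)
      show (if (c a, none) ∈ U ∪ Q then ((y (c a)).mul (dl Z S c ε (c a))).mul
        (fun b => if (c a, some b) ∈ U ∪ Q then 1 else 0) else _) = _
      rw [if_pos e3]
      have e4 : (fun b => if (c a, some b) ∈ U ∪ Q then (1 : SignType) else 0) =
          fun b => if b ∈ S then (1 : SignType) else 0 := by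
        funext b
        have e5 : ((c a, some b) ∈ U ∪ Q) ↔ b ∈ S :=
          (hmemU a (some b)).trans ⟨fun h => h b rfl, fun h b' hb' => (Option.some.inj hb') ▸ h⟩
        simp only [e5]
      rw [e4]
      have e6 : ((y (c a)).mul (dl Z S c ε (c a))).mul
          (fun b => if b ∈ S then (1 : SignType) else 0) =
          ⟨Z, ((((y (c a)).to Z).mul (dl Z S c ε (c a))).mul
            (fun b => if b ∈ S then (1 : SignType) else 0))⟩ := by
        conv_lhs => rw [hy1]
        rfl
      rw [e6, crd_sign (dl_ne c ε (c a)) (ε a) (fun b => dl_eq c ε a b) (fun b => rfl)]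
    · push Not at h
      rw [insP_not c _ _ h]
      have e5 : ∀ o, (j, o) ∈ U ∪ Q ↔ (j, o) ∈ U := by
        intro o
        rw [Finset.mem_union]
        constructor
        · rintro (h4 | h4)
          · exact h4
          · obtain ⟨a, h6, -⟩ := hQ _ h4
            exact absurd h6.symm (h a)
        · exact fun h4 => Or.inl h4
      have e6 : mulP (dl Z S c ε) y j = y j := by
        show (⟨(y j).1, (y j).2.mul (dl Z S c ε j)⟩ : Pt k) = y j
        have e7 : dl Z S c ε j = fun _ => 1 := funext fun b => dl_one c ε h b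
        rw [e7, crd_mul_one]
      unfold proj
      rw [e6]
      simp only [e5]
  · intro U hU V hV h
    have h4 : ∀ {A : Finset (Fin m × Option ℕ)}, A ∈ R.powerset → (A ∪ Q) \ Q = A := by
      intro A hA
      rw [Finset.union_sdiff_right]
      exact Finset.sdiff_eq_self_of_disjoint (Finset.disjoint_left.2 fun p hp => hdis A hA p hp)
    rw [← h4 (Finset.mem_coe.1 hU), ← h4 (Finset.mem_coe.1 hV)]
    simp only at h
    rw [h]
  · intro U hU hU'
    have h4 : ¬ Q ⊆ U := by
      intro h5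
      apply hU'
      refine Finset.mem_image.2 ⟨U ∩ R, ?_, ?_⟩
      · exact Finset.mem_powerset.2 Finset.inter_subset_right
      · rw [Finset.mem_powerset] at hU
        ext p
        simp only [Finset.mem_union, Finset.mem_inter]
        constructor
        · rintro (h6 | h6)
          · exact h6.1
          · exact h5 h6
        · intro h6
          by_cases h7 : ∀ a, c a ≠ p.1
          · exact Or.inl ⟨h6, Finset.mem_filter.2 ⟨hU h6, h7⟩⟩
          · exact Or.inr (Finset.mem_filter.2 ⟨hU h6, h7⟩)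
    obtain ⟨⟨j, o⟩, hp, hpU⟩ := Finset.not_subset.1 h4
    obtain ⟨a, h5, h6⟩ := hQ _ hp
    simp only at h5 h6
    subst h5
    have h7 : G U = 0 := by
      cases o with
      | none => exact h3 U a b0 (Or.inl hpU)
      | some b =>
        obtain ⟨b', rfl⟩ := κS_ex hr (h6 b rfl)
        exact h3 U a b' (Or.inr hpU)
    rw [h7, smul_zero]

end Pool.Agent.EFC
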