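import Pool.Agent.EFC.FMoeb
import Pool.Agent.EFC.FMap
import Pool.Agent.EFC.FWeight

/-!
# The filtration

Adapt `Pool/Agent/EFP/PFil.lean`.
-/

set_option autoImplicit false

noncomputable section

namespace Pool.Agent.EFC

open Pool.Agent.ZCyc
open Pool.Agent.VFP (Om tt)

variable {k : Type} [Field k] [IsAlgClosed k] [CharZero k] {m : ℕ} {X : Fin m → EC k}

omit [IsAlgClosed k] [CharZero k] in
private theorem mk_eq (z : Pts m k →₀ ℚ) :
    (Submodule.Quotient.mk z : VP X) = z.sum fun p c => c • clP X p := by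
  conv_lhs => rw [← Finsupp.sum_single z]
  rw [Finsupp.sum, ← Submodule.mkQ_apply, map_sum, Finsupp.sum]
  refine Finset.sum_congr rfl fun p _ => ?_
  rw [clP, ← Submodule.mkQ_apply, ← map_smul, Finsupp.smul_single, smul_eq_mul, mul_one]

omit [IsAlgClosed k] [CharZero k] in
private theorem mk_map (U : Finset (Fin m × Option ℕ)) (z : Pts m k →₀ ℚ) :
    (Submodule.Quotient.mk (Finsupp.lmapDomain ℚ ℚ (proj U) z) : VP X) =
      z.sum fun p c => c • clP X (proj U p) := by
  rw [mk_eq, Finsupp.lmapDomain_apply, Finsupp.sum_mapDomain_index]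
  · intro p
    rw [zero_smul]
  · intro p a b
    rw [add_smul]

/-- the projection on classes -/
private def pQ (X : Fin m → EC k) (U : Finset (Fin m × Option ℕ)) : VP X →ₗ[ℚ] VP X :=
  (ratEqP X).mapQ (ratEqP X) (Finsupp.lmapDomain ℚ ℚ (proj U)) fun _ hz => proj_ratEqP U hz

private theorem pQ_eP (T : Finset (Fin m × Option ℕ)) (x : Pts m k)
    (U : Finset (Fin m × Option ℕ)) :
    pQ X U (eP X T x) = if T ⊆ U then eP X T x else 0 := by
  rw [← eP_proj T U x]
  unfold eP
  rw [map_sum]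
  refine Finset.sum_congr rfl fun V _ => ?_
  rw [map_smul]
  congr 1
  have h1 : pQ X U (clP X (proj V x)) = clP X (proj U (proj V x)) := by
    unfold pQ clP
    rw [Submodule.mapQ_apply, Finsupp.lmapDomain_apply, Finsupp.mapDomain_single]
  rw [h1, proj_proj, proj_proj, Finset.inter_comm]

/-- `→`: apply the projection `π_U`, `wt X U < ν` (`proj_ratEqP`), to a class `eP X T x` with
`ν ≤ wt X T`: one gets `eP X T (proj U x) = 0` by `eP_proj` and `wt_mono`. `←`:
`mk z = ∑ T, ∑ x, z x • eP X T x` by `clP_eq_sum`, and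
`∑ x, z x • eP X T x = ∑ U ⊆ T, ± mk (π_U z) = 0` if `wt X T < ν`. -/
theorem mk_mem_FV {ν : ℕ} {z : Pts m k →₀ ℚ} (hz : ∀ p ∈ z.support, OnP X p) :
    (Submodule.Quotient.mk z : VP X) ∈ FV X ν ↔ z ∈ Fil X ν := by
  classical
  constructor
  · intro h
    refine ⟨hz, fun U hU => ?_⟩
    have h1 : FV X ν ≤ LinearMap.ker (pQ X U) := by
      unfold FV
      rw [Submodule.span_le]
      rintro e ⟨T, x, hx, hT, hc, hν, rfl⟩
      rw [SetLike.mem_coe, LinearMap.mem_ker, pQ_eP, if_neg]
      intro hTU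
      have := wt_mono (X := X) hTU
      omega
    have h2 := h1 h
    rw [LinearMap.mem_ker] at h2
    have h3 : pQ X U (Submodule.Quotient.mk z) =
        Submodule.Quotient.mk (Finsupp.lmapDomain ℚ ℚ (proj U) z) := rfl
    rw [h3, Submodule.Quotient.mk_eq_zero] at h2
    exact h2
  · rintro ⟨-, h⟩
    have h1 : (Submodule.Quotient.mk z : VP X) =
        ∑ T ∈ (blocks X).powerset with Closed T, z.sum fun p c => c • eP X T p := by
      rw [mk_eq]
      unfold Finsupp.sum
      rw [Finset.sum_comm]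
      refine Finset.sum_congr rfl fun p hp => ?_
      beta_reduce
      rw [clP_eq_sum (hz p hp), Finset.smul_sum]
    rw [h1]
    refine Submodule.sum_mem _ fun T hT => ?_
    rw [Finset.mem_filter] at hT
    by_cases hν : ν ≤ wt X T
    · refine Submodule.sum_mem _ fun p hp => Submodule.smul_mem _ _ (Submodule.subset_span ?_)
      exact ⟨T, p, hz p hp, Finset.mem_powerset.1 hT.1, hT.2, hν, rfl⟩
    · have h2 : (z.sum fun p c => c • eP X T p) =
          ∑ U ∈ T.powerset, ((-1 : ℚ) ^ (T \ U).card) •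
            (Submodule.Quotient.mk (Finsupp.lmapDomain ℚ ℚ (proj U) z) : VP X) := by
        simp only [mk_map]
        unfold Finsupp.sum eP
        simp only [Finset.smul_sum]
        rw [Finset.sum_comm]
        refine Finset.sum_congr rfl fun U _ => Finset.sum_congr rfl fun p _ => ?_
        rw [smul_comm]
      rw [h2, Finset.sum_eq_zero]
      · exact zero_mem _
      intro U hU
      have h3 := wt_mono (X := X) (Finset.mem_powerset.1 hU)
      rw [(Submodule.Quotient.mk_eq_zero _).2 (h U (by omega)), smul_zero]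

theorem Fil_ge (ν : ℕ) : ratEqP X ≤ Fil X ν := fun _ hz =>
  ⟨(ratEqP_supp hz).1, fun _ _ => proj_ratEqP _ hz⟩

theorem Fil_anti (ν : ℕ) : Fil X (ν + 1) ≤ Fil X ν := fun _ hz =>
  ⟨hz.1, fun _ hT => hz.2 _ (Nat.lt_succ_of_lt hT)⟩

theorem Fil_zero (z : Pts m k →₀ ℚ) : z ∈ Fil X 0 ↔ ∀ p ∈ z.support, OnP X p :=
  ⟨fun hz => hz.1, fun hz => ⟨hz, fun _ hT => absurd hT (Nat.not_lt_zero _)⟩⟩

omit [IsAlgClosed k] [CharZero k] in
private theorem none_notMem {T : Finset (Fin m × Option ℕ)} (h : wt X T < 1) (j : Fin m) :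
    (j, none) ∉ T := by
  intro hj
  have h1 : (if (j, none) ∈ T then cnt X T j + 1 else 0) ≤ wt X T :=
    Finset.single_le_sum (f := fun j => if (j, none) ∈ T then cnt X T j + 1 else 0)
      (fun _ _ => Nat.zero_le _) (Finset.mem_univ j)
  rw [if_pos hj] at h1
  omega

omit [IsAlgClosed k] [CharZero k] in
private theorem proj_none {T : Finset (Fin m × Option ℕ)} (h : ∀ j, (j, none) ∉ T)
    {x : Pts m k} (hx : OnP X x) : proj T x = fun j => ⟨X j, (X j).oo⟩ := by
  funext j
  unfold proj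
  rw [if_neg (h j), (hx j).1]

/-- `→`: use `T = ∅` and `ratEqP_supp`. `←`: `wt X T = 0` means that `(j, none) ∉ T` for all `j`, so
`proj T x` is the base point for all `x` on the product. -/
theorem Fil_one (z : Pts m k →₀ ℚ) :
    z ∈ Fil X 1 ↔ (∀ p ∈ z.support, OnP X p) ∧ (z.sum fun _ c => c) = 0 := by
  constructor
  · rintro ⟨h1, h2⟩
    refine ⟨h1, ?_⟩
    have h3 : wt X (∅ : Finset (Fin m × Option ℕ)) < 1 := by
      have h4 : wt X (∅ : Finset (Fin m × Option ℕ)) = 0 := by
        unfold wt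
        apply Finset.sum_eq_zero
        intro j _
        rw [if_neg (Finset.notMem_empty _)]
      omega
    have h4 := (ratEqP_supp (h2 ∅ h3)).2
    rw [Finsupp.lmapDomain_apply, Finsupp.sum_mapDomain_index (fun _ => rfl)
      (fun _ _ _ => rfl)] at h4
    exact h4
  · rintro ⟨h1, h2⟩
    refine ⟨h1, fun T hT => ?_⟩
    rw [← Submodule.Quotient.mk_eq_zero, mk_map]
    have h3 : (z.sum fun p c => c • clP X (proj T p)) =
        z.sum fun _ c => c • clP X fun j => ⟨X j, (X j).oo⟩ := by
      refine Finset.sum_congr rfl fun p hp => ?_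
      beta_reduce
      rw [proj_none (none_notMem hT) (h1 p hp)]
    rw [h3, Finsupp.sum, ← Finset.sum_smul]
    have h4 : ∑ p ∈ z.support, z p = 0 := h2
    rw [h4, zero_smul]

/-- `≤`: use `T = blocks X` (`proj_blocks`), with `wt X T ≤ ∑ j, (X j).dim`. -/
theorem Fil_top : Fil X ((∑ j, (X j).dim) + 1) = ratEqP X := by
  apply le_antisymm _ (Fil_ge _)
  rintro z ⟨h1, h2⟩
  have h3 : wt X (blocks X) < (∑ j, (X j).dim) + 1 := by
    apply Nat.lt_succ_of_le
    unfold wt
    apply Finset.sum_le_sum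
    intro j _
    have h4 : cnt X (blocks X) j ≤ (X j).N := by
      unfold cnt
      refine (Finset.card_filter_le _ _).trans ?_
      rw [Finset.card_univ, Fintype.card_fin]
    unfold EC.dim
    split_ifs <;> omega
  have h4 := h2 _ h3
  rw [← Submodule.Quotient.mk_eq_zero, mk_map] at h4
  rw [← Submodule.Quotient.mk_eq_zero, mk_eq, ← h4]
  refine Finset.sum_congr rfl fun p hp => ?_
  beta_reduce
  rw [proj_blocks (h1 p hp)]

end Pool.Agent.EFC
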