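import Pool.Agent.EFC.FMap

/-!
# Insertion of points of the fibre product of some of the blocks

Adapt `Pool/Agent/EFP/Sub.lean`.
-/

set_option autoImplicit false

noncomputable section

namespace Pool.Agent.EFC

open Pool.Agent.ZCyc
open Pool.Agent.VFP (Om tt)

variable {k : Type} [Field k] {m n : ℕ} {X : Fin m → EC k} {Z : EC k} {S : Finset ℕ}

/-! ### The coordinates of the lift -/

private theorem dite_at {α β M : Type*} {g : α → β} (hg : Function.Injective g) (f : α → M)
    (d : M) (a : α) [Decidable (∃ b, g b = g a)] :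
    (if h : ∃ b, g b = g a then f h.choose else d) = f a := by
  have h : ∃ b, g b = g a := ⟨a, rfl⟩
  rw [dif_pos h, hg h.choose_spec]

private theorem lift_x (w : Crd (Z.sub S)) (a : Fin (subI Z S).card) :
    (liftS w).x (ιS Z S a) = w.x a := by
  classical
  unfold liftS
  exact dite_at (ιS Z S).injective w.x 1 a

private theorem lift_z (w : Crd (Z.sub S)) (a : Fin (subI Z S).card) :
    (liftS w).z (ιS Z S a) = w.z a := by
  classical
  unfold liftS
  exact dite_at (ιS Z S).injective w.z 0 a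

private theorem lift_y (w : Crd (Z.sub S)) (a : Fin (subK Z S).card) :
    (liftS w).y (κS Z S a) = w.y a := by
  classical
  unfold liftS
  exact dite_at (κS Z S).injective w.y 0 a

private theorem lift_x_of (w : Crd (Z.sub S)) {i : Fin Z.N} (hi : (Z.blk i : ℕ) ∉ S) :
    (liftS w).x i = 1 := by
  classical
  unfold liftS
  exact dif_neg fun h => hi ((ιS_range Z S i).1 h)

private theorem lift_z_of (w : Crd (Z.sub S)) {i : Fin Z.N} (hi : (Z.blk i : ℕ) ∉ S) :
    (liftS w).z i = 0 := by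
  classical
  unfold liftS
  exact dif_neg fun h => hi ((ιS_range Z S i).1 h)

private theorem lift_y_of (w : Crd (Z.sub S)) {b : Fin Z.r} (hb : (b : ℕ) ∉ S) :
    (liftS w).y b = 0 := by
  classical
  unfold liftS
  exact dif_neg fun h => hb ((κS_range Z S b).1 h)

private theorem liftO_x (w : CrdO (Z.sub S)) (a : Fin (subI Z S).card) :
    (liftSO w).x (ιS Z S a) = w.x a := by
  classical
  unfold liftSO
  exact dite_at (ιS Z S).injective w.x 1 a

private theorem liftO_z (w : CrdO (Z.sub S)) (a : Fin (subI Z S).card) :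
    (liftSO w).z (ιS Z S a) = w.z a := by
  classical
  unfold liftSO
  exact dite_at (ιS Z S).injective w.z 0 a

private theorem liftO_y (w : CrdO (Z.sub S)) (a : Fin (subK Z S).card) :
    (liftSO w).y (κS Z S a) = w.y a := by
  classical
  unfold liftSO
  exact dite_at (κS Z S).injective w.y 0 a

private theorem liftO_x_of (w : CrdO (Z.sub S)) {i : Fin Z.N} (hi : (Z.blk i : ℕ) ∉ S) :
    (liftSO w).x i = 1 := by
  classical
  unfold liftSO
  exact dif_neg fun h => hi ((ιS_range Z S i).1 h)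

private theorem liftO_z_of (w : CrdO (Z.sub S)) {i : Fin Z.N} (hi : (Z.blk i : ℕ) ∉ S) :
    (liftSO w).z i = 0 := by
  classical
  unfold liftSO
  exact dif_neg fun h => hi ((ιS_range Z S i).1 h)

private theorem liftO_y_of (w : CrdO (Z.sub S)) {b : Fin Z.r} (hb : (b : ℕ) ∉ S) :
    (liftSO w).y b = 0 := by
  classical
  unfold liftSO
  exact dif_neg fun h => hb ((κS_range Z S b).1 h)

private theorem prod_blkS (Z : EC k) (S : Finset ℕ) {M : Type*} [CommMonoid M]
    (g : Fin Z.N → M) (a : Fin (subK Z S).card) :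
    ∏ i with blkS Z S i = a, g (ιS Z S i) = ∏ i with Z.blk i = κS Z S a, g i := by
  have h := sum_blkS Z S (M := Additive M) (fun i => Additive.ofMul (g i)) a
  exact congrArg Additive.toMul h

private theorem fac_zero {K : Type*} [Field K] (a b x : K) : fac a b x 0 = 0 := by
  unfold fac
  rw [zero_mul]

theorem lift_on {w : Crd (Z.sub S)} (hw : w.On) : (liftS w).On := by
  refine ⟨fun i => ?_, fun b => ?_⟩
  · by_cases hi : (Z.blk i : ℕ) ∈ S
    · obtain ⟨a, rfl⟩ := (ιS_range Z S i).2 hi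
      rw [lift_x, lift_z]
      exact hw.1 a
    · left
      rw [lift_x_of w hi]
      exact one_ne_zero
  · by_cases hb : (b : ℕ) ∈ S
    · obtain ⟨a, rfl⟩ := (κS_range Z S b).2 hb
      rw [lift_y, ← prod_blkS]
      refine (hw.2 a).trans (Finset.prod_congr rfl fun i _ => ?_)
      rw [lift_x, lift_z]
      rfl
    · rw [lift_y_of w hb]
      obtain ⟨i, hi⟩ := blk_surj Z b
      rw [Finset.prod_eq_zero (i := i) (Finset.mem_filter.2 ⟨Finset.mem_univ _, hi⟩)]
      · exact zero_pow two_ne_zero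
      · rw [lift_z_of w (by rw [hi]; exact hb), fac_zero]

theorem liftO_on {w : CrdO (Z.sub S)} (hw : w.On) : (liftSO w).On := by
  refine ⟨fun i => ?_, fun b => ?_⟩
  · by_cases hi : (Z.blk i : ℕ) ∈ S
    · obtain ⟨a, rfl⟩ := (ιS_range Z S i).2 hi
      rw [liftO_x, liftO_z]
      exact hw.1 a
    · left
      rw [liftO_x_of w hi]
      exact one_ne_zero
  · by_cases hb : (b : ℕ) ∈ S
    · obtain ⟨a, rfl⟩ := (κS_range Z S b).2 hb
      rw [liftO_y, ← prod_blkS]
      refine (hw.2 a).trans (Finset.prod_congr rfl fun i _ => ?_)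
      rw [liftO_x, liftO_z]
      rfl
    · rw [liftO_y_of w hb]
      obtain ⟨i, hi⟩ := blk_surj Z b
      rw [Finset.prod_eq_zero (i := i) (Finset.mem_filter.2 ⟨Finset.mem_univ _, hi⟩)]
      · exact zero_pow two_ne_zero
      · rw [liftO_z_of w (by rw [hi]; exact hb), fac_zero]

theorem rest_on {w : Crd Z} (hw : w.On) : (restS S w).On := by
  refine ⟨fun a => hw.1 (ιS Z S a), fun a => ?_⟩
  refine (hw.2 (κS Z S a)).trans ?_
  exact (prod_blkS Z S (fun i => fac (Z.coA w.c i) (Z.coB w.c i) (w.x i) (w.z i)) a).symm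

/-- `liftS (restS w)` is `w` projected to the blocks in `S` -/
theorem lift_rest (w : Crd Z) :
    liftS (restS S w) = w.mul fun b => if b ∈ S then 1 else 0 := by
  refine Crd.ext rfl ?_ ?_ ?_
  · funext i
    show (liftS (restS S w)).x i = if (if (Z.blk i : ℕ) ∈ S then (1 : SignType) else 0) = 0
      then 1 else w.x i
    by_cases h : (Z.blk i : ℕ) ∈ S
    · obtain ⟨a, rfl⟩ := (ιS_range Z S i).2 h
      rw [lift_x, if_pos h, if_neg one_ne_zero]
      rfl
    · rw [lift_x_of _ h, if_neg h, if_pos rfl]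
  · funext i
    show (liftS (restS S w)).z i = if (if (Z.blk i : ℕ) ∈ S then (1 : SignType) else 0) = 0
      then 0 else w.z i
    by_cases h : (Z.blk i : ℕ) ∈ S
    · obtain ⟨a, rfl⟩ := (ιS_range Z S i).2 h
      rw [lift_z, if_pos h, if_neg one_ne_zero]
      rfl
    · rw [lift_z_of _ h, if_neg h, if_pos rfl]
  · funext b
    show (liftS (restS S w)).y b =
      (((if (b : ℕ) ∈ S then (1 : SignType) else 0 : SignType) : ℤ) : k) * w.y b
    by_cases h : (b : ℕ) ∈ S
    · obtain ⟨a, rfl⟩ := (κS_range Z S b).2 h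
      rw [if_pos h, lift_y]
      simp
      rfl
    · rw [lift_y_of _ h, if_neg h]
      simp

theorem lift_oo : liftS (Z.sub S).oo = Z.oo := by
  classical
  refine Crd.ext rfl ?_ ?_ ?_
  · funext i
    show (if h : ∃ a, ιS Z S a = i then (1 : k) else 1) = 1
    split_ifs <;> rfl
  · funext i
    show (if h : ∃ a, ιS Z S a = i then (0 : k) else 0) = 0
    split_ifs <;> rfl
  · funext b
    show (if h : ∃ a, κS Z S a = b then (0 : k) else 0) = 0
    split_ifs <;> rfl

theorem liftO_map (g : Om k ≃ₐ[k] Om k) (w : CrdO (Z.sub S)) :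
    liftSO (w.map g) = (liftSO w).map g := by
  classical
  refine CrdO.ext rfl ?_ ?_ ?_
  · funext i
    show (if h : ∃ a, ιS Z S a = i then g (w.x h.choose) else 1) =
      g (if h : ∃ a, ιS Z S a = i then w.x h.choose else 1)
    split_ifs
    · rfl
    · exact (map_one g).symm
  · funext i
    show (if h : ∃ a, ιS Z S a = i then g (w.z h.choose) else 0) =
      g (if h : ∃ a, ιS Z S a = i then w.z h.choose else 0)
    split_ifs
    · rfl
    · exact (map_zero g).symm
  · funext b
    show (if h : ∃ a, κS Z S a = b then g (w.y h.choose) else 0) =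
      g (if h : ∃ a, κS Z S a = b then w.y h.choose else 0)
    split_ifs
    · rfl
    · exact (map_zero g).symm

/-- for the indices which are not in `Z.sub S` take `m i = unifO P.s p.c ^ (- D_i c)` (`unifO_ne`) -/
theorem lift_value [IsAlgClosed k] [CharZero k] {v : Place k (Om k)} {P : CrdO (Z.sub S)}
    {p : Crd (Z.sub S)} (h : (Z.sub S).IsValue v P p) : Z.IsValue v (liftSO P) (liftS p) := by
  classical
  obtain ⟨hb, m, h1, h2, h3⟩ := h
  have hu : unifO P.s p.c ≠ 0 := unifO_ne Z.curve P.s p.c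
  set m' : Fin Z.N → Om k := fun i =>
    if h : ∃ a, ιS Z S a = i then m h.choose else (unifO P.s p.c ^ Z.D i p.c)⁻¹ with hm'
  have hm1 : ∀ a, m' (ιS Z S a) = m a := fun a =>
    dite_at (ιS Z S).injective m ((unifO P.s p.c ^ Z.D (ιS Z S a) p.c)⁻¹) a
  have hm2 : ∀ i, (Z.blk i : ℕ) ∉ S → m' i = (unifO P.s p.c ^ Z.D i p.c)⁻¹ := fun i hi =>
    dif_neg fun h => hi ((ιS_range Z S i).1 h)
  refine ⟨hb, m', fun i => ?_, fun i => ?_, fun b => ?_⟩
  · show v.Vanishes (m' i * unifO P.s p.c ^ Z.D i p.c * (liftSO P).x i -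
      algebraMap k (Om k) ((liftS p).x i))
    by_cases hi : (Z.blk i : ℕ) ∈ S
    · obtain ⟨a, rfl⟩ := (ιS_range Z S i).2 hi
      rw [lift_x, liftO_x, hm1]
      exact h1 a
    · rw [lift_x_of _ hi, liftO_x_of _ hi, hm2 i hi, inv_mul_cancel₀ (zpow_ne_zero _ hu), map_one,
        mul_one, sub_self]
      exact v.vanishes_zero
  · by_cases hi : (Z.blk i : ℕ) ∈ S
    · obtain ⟨a, rfl⟩ := (ιS_range Z S i).2 hi
      rw [lift_z, liftO_z, hm1]
      exact h2 a
    · rw [lift_z_of _ hi, liftO_z_of _ hi, mul_zero, map_zero, sub_zero]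
      exact v.vanishes_zero
  · show v.Vanishes ((∏ i with Z.blk i = b, m' i) ^ 2 *
      unifO P.s p.c ^ (3 * ((∑ i with Z.blk i = b, Z.D i p.c) / 2)) * (liftSO P).y b -
        algebraMap k (Om k) ((liftS p).y b))
    by_cases hbS : (b : ℕ) ∈ S
    · obtain ⟨a, rfl⟩ := (κS_range Z S b).2 hbS
      rw [lift_y, liftO_y, ← prod_blkS Z S m' a, ← sum_blkS Z S (fun i => Z.D i p.c) a,
        Finset.prod_congr rfl fun i _ => hm1 i]
      exact h3 a
    · rw [lift_y_of _ hbS, liftO_y_of _ hbS, mul_zero, map_zero, sub_zero]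
      exact v.vanishes_zero

theorem to_mk (w : Crd Z) : Pt.to Z ⟨Z, w⟩ = w := by
  classical
  unfold Pt.to
  rw [dif_pos rfl]

private theorem on_to {Y : EC k} {w : Pt k} (h : w.1 = Y) (hw : w.2.On) : (w.to Y).On := by
  obtain ⟨Y', w⟩ := w
  have h' : Y' = Y := h
  subst h'
  rw [to_mk]
  exact hw

theorem onP_insP (c : Fin n ↪ Fin m) (hc : ∀ a, X (c a) = Z) {x : Pts m k} (hx : OnP X x)
    {w : Pts n k} (hw : OnP ((Z.sub S).pow n) w) : OnP X (insP (Z := Z) (S := S) c x w) := by
  classical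
  intro j
  unfold insP
  by_cases h : ∃ a, c a = j
  · rw [dif_pos h]
    have h1 := hw h.choose
    refine ⟨?_, ?_⟩
    · show Z = X j
      rw [← h.choose_spec, hc]
    · exact lift_on (on_to h1.1 h1.2)
  · rw [dif_neg h]
    exact hx j

open Classical in
/-- a point of `Y` over `Om k` -/
private def toO (Y : EC k) (w : PtO k) : CrdO Y :=
  if h : w.1 = Y then h ▸ w.2 else Y.oo.cst

private theorem toO_mk {Y : EC k} (w : CrdO Y) : toO Y ⟨Y, w⟩ = w := by
  classical
  unfold toO
  rw [dif_pos rfl]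

private theorem on_toO {Y : EC k} {w : PtO k} (h : w.1 = Y) (hw : w.2.On) : (toO Y w).On := by
  obtain ⟨Y', w⟩ := w
  have h' : Y' = Y := h
  subst h'
  rw [toO_mk]
  exact hw

private theorem toO_map {Y : EC k} {w : PtO k} (h : w.1 = Y) (g : Om k ≃ₐ[k] Om k) :
    toO Y (w.map g) = (toO Y w).map g := by
  obtain ⟨Y', w⟩ := w
  have h' : Y' = Y := h
  subst h'
  rw [toO_mk]
  exact toO_mk (w.map g)

private theorem value_to {Y : EC k} {v : Place k (Om k)} {P : PtO k} {p : Pt k} (h : P.1 = Y)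
    (hv : IsVal v P p) : Y.IsValue v (toO Y P) (p.to Y) := by
  obtain ⟨Y', P', p', rfl, rfl, hv⟩ := hv
  have h' : Y' = Y := h
  subst h'
  rw [toO_mk, to_mk]
  exact hv

/-- Insertion maps cycles equivalent to zero to cycles equivalent to zero. (Over `Om k` use the
analogue of `Pt.to`.) -/
theorem insP_ratEqP [IsAlgClosed k] [CharZero k] (c : Fin n ↪ Fin m) (hc : ∀ a, X (c a) = Z)
    {x : Pts m k} (hx : OnP X x) {z : Pts n k →₀ ℚ} (hz : z ∈ ratEqP ((Z.sub S).pow n)) :
    Finsupp.lmapDomain ℚ ℚ (insP (Z := Z) (S := S) c x) z ∈ ratEqP X := by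
  classical
  have hX : ∀ {j : Fin m}, (∃ a, c a = j) → X j = Z := by
    rintro j ⟨a, rfl⟩
    exact hc a
  have key : ratEqP ((Z.sub S).pow n) ≤ (ratEqP X).comap (Finsupp.lmapDomain ℚ ℚ
      (insP (Z := Z) (S := S) c x)) := by
    conv_lhs => unfold ratEqP
    rw [Submodule.span_le]
    rintro z ⟨l, P, a, b, v, w, p, q, hOn, hG, hv, hw, hp, hq, rfl⟩
    refine Submodule.subset_span ⟨l,
      fun t j => if h : ∃ a, c a = j then ⟨Z, liftSO (toO (Z.sub S) (P t h.choose))⟩
        else ⟨(x j).1, (x j).2.cst⟩, a, b, v, w,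
      fun t => insP (Z := Z) (S := S) c x (p t), fun t => insP (Z := Z) (S := S) c x (q t),
      fun t j => ?_, fun g => ?_, hv, hw,
      fun t => ⟨onP_insP c hc hx (hp t).1, fun j => ?_⟩,
      fun t => ⟨onP_insP c hc hx (hq t).1, fun j => ?_⟩, ?_⟩
    · beta_reduce
      by_cases h : ∃ a, c a = j
      · rw [dif_pos h]
        exact ⟨(hX h).symm, liftO_on (on_toO (hOn t _).1 (hOn t _).2)⟩
      · rw [dif_neg h]
        exact ⟨(hx j).1, on_cst (hx j).2⟩
    · obtain ⟨e, he⟩ := hG g
      refine ⟨e, fun t j => ?_⟩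
      beta_reduce
      by_cases h : ∃ a, c a = j
      · have h1 : (P t h.choose).1 = Z.sub S := (hOn t _).1
        rw [dif_pos h, dif_pos h, he t, toO_map h1, liftO_map]
        rfl
      · rw [dif_neg h, dif_neg h]
        show (⟨(x j).1, (x j).2.cst⟩ : PtO k) = ⟨(x j).1, (x j).2.cst.map _⟩
        rw [crd_cst_map]
    · unfold insP
      beta_reduce
      by_cases h : ∃ a, c a = j
      · rw [dif_pos h, dif_pos h]
        exact ⟨Z, _, _, rfl, rfl, lift_value (value_to (hOn t _).1 ((hp t).2 _))⟩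
      · rw [dif_neg h, dif_neg h]
        exact ⟨(x j).1, (x j).2.cst, (x j).2, rfl, rfl, isValue_cst v _⟩
    · unfold insP
      beta_reduce
      by_cases h : ∃ a, c a = j
      · rw [dif_pos h, dif_pos h]
        exact ⟨Z, _, _, rfl, rfl, lift_value (value_to (hOn t _).1 ((hq t).2 _))⟩
      · rw [dif_neg h, dif_neg h]
        exact ⟨(x j).1, (x j).2.cst, (x j).2, rfl, rfl, isValue_cst w _⟩
    · rw [map_sum]
      refine Finset.sum_congr rfl fun t _ => ?_
      rw [map_sub, Finsupp.lmapDomain_apply, Finsupp.lmapDomain_apply, Finsupp.mapDomain_single,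
        Finsupp.mapDomain_single]
  exact key hz

/-- the insertion on the level of classes -/
def insV [IsAlgClosed k] [CharZero k] (S : Finset ℕ) (c : Fin n ↪ Fin m)
    (hc : ∀ a, X (c a) = Z) {x : Pts m k} (hx : OnP X x) :
    VP ((Z.sub S).pow n) →ₗ[ℚ] VP X :=
  (ratEqP ((Z.sub S).pow n)).mapQ (ratEqP X)
    (Finsupp.lmapDomain ℚ ℚ (insP (Z := Z) (S := S) c x)) fun _ hz => insP_ratEqP c hc hx hz

theorem insV_clP [IsAlgClosed k] [CharZero k] (c : Fin n ↪ Fin m) (hc : ∀ a, X (c a) = Z)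
    {x : Pts m k} (hx : OnP X x) (w : Fin n → Crd (Z.sub S)) :
    insV S c hc hx (clP _ ((Z.sub S).tup w)) =
      clP X (insP (Z := Z) (S := S) c x ((Z.sub S).tup w)) := by
  unfold insV clP
  rw [Submodule.mapQ_apply, Finsupp.lmapDomain_apply, Finsupp.mapDomain_single]

/-- the value of `insP` at the positions `c a` -/
theorem insP_at (c : Fin n ↪ Fin m) (x : Pts m k) (w : Fin n → Crd (Z.sub S)) (a : Fin n) :
    insP (Z := Z) (S := S) c x ((Z.sub S).tup w) (c a) = ⟨Z, liftS (w a)⟩ := by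
  classical
  unfold insP
  have h : ∃ b, c b = c a := ⟨a, rfl⟩
  rw [dif_pos h, c.injective h.choose_spec]
  congr 2
  exact to_mk (w a)

theorem insP_not (c : Fin n ↪ Fin m) (x : Pts m k) (w : Pts n k) {j : Fin m}
    (h : ∀ a, c a ≠ j) : insP (Z := Z) (S := S) c x w j = x j := by
  classical
  unfold insP
  exact dif_neg fun ⟨a, ha⟩ => h a ha

/-- `insV` depends only on the factors `x j` which are not replaced -/
theorem insV_congr [IsAlgClosed k] [CharZero k] (c : Fin n ↪ Fin m) (hc : ∀ a, X (c a) = Z)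
    {x y : Pts m k} (hx : OnP X x) (hy : OnP X y) (h : ∀ j, (¬ ∃ a, c a = j) → x j = y j) :
    insV S c hc hx = insV S c hc hy := by
  classical
  have e : insP (Z := Z) (S := S) c x = insP (Z := Z) (S := S) c y := by
    funext w j
    unfold insP
    by_cases hj : ∃ a, c a = j
    · rw [dif_pos hj, dif_pos hj]
    · rw [dif_neg hj, dif_neg hj]
      exact h j hj
  refine Submodule.linearMap_qext _ (LinearMap.ext fun z => ?_)
  show Submodule.Quotient.mk (Finsupp.lmapDomain ℚ ℚ (insP (Z := Z) (S := S) c x) z) =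
    Submodule.Quotient.mk (Finsupp.lmapDomain ℚ ℚ (insP (Z := Z) (S := S) c y) z)
  rw [e]

end Pool.Agent.EFC
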