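import Pool.Agent.EFC.FPush
import Pool.Agent.EFC.FFil

/-!
# The components of a morphism and the filtration
-/

set_option autoImplicit false

noncomputable section

namespace Pool.Agent.EFC

open Pool.Agent.ZCyc
open Pool.Agent.VFP (Om tt)

variable {k : Type} [Field k] [IsAlgClosed k] [CharZero k] {m m' : ℕ} {X : Fin m → EC k}
  {Y : Fin m' → EC k}

/-- the multiplications in a component -/
private def epsC {Z : EC k} (f : Comp X Z) : ℕ → SignType :=
  match f with
  | .const _ _ => fun _ => 1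
  | .fac _ _ ε => ε

omit [IsAlgClosed k] [CharZero k] in
private theorem app_eq {Z : EC k} (f : Comp X Z) (x : Pts m k) :
    f.app x = (f.base x).mul (epsC f) := by
  cases f with
  | const w hw =>
    show (⟨Z, w⟩ : Pt k) = ⟨Z, w.mul (fun _ => 1)⟩
    rw [crd_mul_one]
  | fac i h ε => rfl

private theorem prod_fib {l : ℕ} (T : Finset (Fin l × Option ℕ)) (g : Fin l → Option ℕ → ℤ) :
    ∏ p ∈ T, g p.1 p.2 = ∏ j with fib T j ≠ ∅, ∏ b ∈ fib T j, g j b := by
  classical
  have h1 : ∏ j with fib T j ≠ ∅, ∏ b ∈ fib T j, g j b = ∏ j, ∏ b ∈ fib T j, g j b := by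
    refine Finset.prod_subset (Finset.filter_subset _ _) fun j _ hj => ?_
    have h2 : fib T j = ∅ := by
      by_contra h3
      exact hj (Finset.mem_filter.2 ⟨Finset.mem_univ j, h3⟩)
    rw [h2, Finset.prod_empty]
  rw [h1, ← Finset.prod_fiberwise T (fun p => p.1) (fun p => g p.1 p.2)]
  refine Finset.prod_congr rfl fun j _ => ?_
  unfold fib
  rw [Finset.prod_image]
  · refine Finset.prod_congr rfl fun p hp => ?_
    rw [(Finset.mem_filter.1 hp).2]
  · intro p hp q hq hpq
    exact Prod.ext ((Finset.mem_filter.1 hp).2.trans (Finset.mem_filter.1 hq).2.symm) hpq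

/-- The coefficient by which the multiplications in the components act (`eP_mul`). -/
theorem eP_app {f : Mor X Y} {T : Finset (Fin m × Option ℕ)}
    {T' : Finset (Fin m' × Option ℕ)} (hT' : T' ⊆ blocks Y) (hf : Bij f T T') {x : Pts m k}
    (hx : OnP X x) :
    eP Y T' (f.app x) =
      ((∏ j with fib T' j ≠ ∅, (f j).sgn (fib T' j) : ℤ) : ℚ) • eP Y T' (f.base x) := by
  classical
  have h1 : f.app x = mulP (fun j => epsC (f j)) (f.base x) :=
    funext fun j => app_eq (f j) x
  rw [h1, eP_mul hT' (f.onP_base hx)]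
  congr 1
  have h2 : (∏ j with fib T' j ≠ ∅, (f j).sgn (fib T' j) : ℤ) =
      ∏ p ∈ T', sgp (fun j => epsC (f j)) p := by
    refine Eq.trans ?_ (prod_fib T' fun (j : Fin m') (o : Option ℕ) =>
      sgp (fun j => epsC (f j)) (j, o)).symm
    refine Finset.prod_congr rfl fun j hj => ?_
    obtain ⟨i, hi, -⟩ := hf.1 j (Finset.mem_filter.1 hj).2
    unfold sgp
    cases hfj : f j with
    | const w hw =>
      rw [hfj] at hi
      cases hi
    | fac i h ε =>
      show ∏ b ∈ fib T' j, b.elim 1 (fun b => ((ε b : SignType) : ℤ)) = _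
      refine Finset.prod_congr rfl fun b _ => ?_
      simp only [hfj]
      rfl
  rw [h2, Int.cast_prod]

/-- condition 3, by `mk_mem_FV`, `pushW_eP` and `wt_srcT_le` -/
theorem Fil_map (γ : Mor X Y →₀ ℚ) (ν : ℕ) : (Fil X ν).map (pushM γ) ≤ Fil Y ν := by
  classical
  have hFV : ∀ f : Mor X Y, (FV X ν).map (pushW f) ≤ FV Y ν := by
    intro f
    rw [Submodule.map_le_iff_le_comap]
    conv_lhs => unfold FV
    rw [Submodule.span_le]
    rintro e ⟨T, x, hx, hT, hc, hν, rfl⟩
    show pushW f (eP X T x) ∈ FV Y ν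
    rw [pushW_eP f hx]
    refine Submodule.sum_mem _ fun T' hT' => ?_
    obtain ⟨h1, h2, h2'⟩ := Finset.mem_filter.1 hT'
    have h3 := Finset.mem_powerset.1 h1
    refine Submodule.subset_span ⟨T', f.app x, f.onP hx, h3, h2, ?_, rfl⟩
    have h4 := wt_srcT_le f h3 h2
    rw [h2'] at h4
    exact hν.trans h4
  have hf : ∀ f : Mor X Y, ∀ z ∈ Fil X ν, z.mapDomain f.app ∈ Fil Y ν := by
    intro f z hz
    have hs : ∀ p ∈ (z.mapDomain f.app).support, OnP Y p := by
      intro p hp
      obtain ⟨q, hq, rfl⟩ := Finset.mem_image.1 (Finsupp.mapDomain_support hp)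
      exact f.onP (hz.1 q hq)
    rw [← mk_mem_FV hs]
    have h1 := (mk_mem_FV hz.1).2 hz
    exact hFV f ⟨_, h1, rfl⟩
  rintro _ ⟨z, hz, rfl⟩
  unfold pushM Finsupp.sum
  rw [LinearMap.sum_apply]
  refine Submodule.sum_mem _ fun f _ => ?_
  rw [LinearMap.smul_apply, Finsupp.lmapDomain_apply]
  exact Submodule.smul_mem _ _ (hf f z hz)

end Pool.Agent.EFC
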