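import Pool.Agent.EFC.FFil

/-!
# The second step of the filtration: the Albanese kernel
-/

set_option autoImplicit false

noncomputable section

namespace Pool.Agent.EFC

open Pool.Agent.ZCyc
open Pool.Agent.VFP (Om tt)

variable {k : Type} [Field k] [IsAlgClosed k] [CharZero k] {m : ℕ} {X : Fin m → EC k}

omit [IsAlgClosed k] [CharZero k] in
/-- the point of the zero section -/
private theorem mul_zero_blk (Z : EC k) (w : Crd Z) {ε : ℕ → SignType}
    (h : ∀ i, ε (Z.blk i) = 0) :
    w.mul ε = ⟨w.c, fun _ => 1, fun _ => 0, fun _ => 0⟩ := by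
  refine Crd.ext rfl ?_ ?_ ?_
  · funext i
    exact if_pos (h i)
  · funext i
    exact if_pos (h i)
  · funext b
    obtain ⟨i, hi⟩ := blk_surj Z b
    show (((ε b : SignType) : ℤ) : k) * w.y b = 0
    rw [← hi, h i]
    simp

omit [IsAlgClosed k] [CharZero k] in
private theorem proj_one {T : Finset (Fin m × Option ℕ)} {j : Fin m} (hj : (j, none) ∈ T)
    (h1 : ∀ i, i ≠ j → (i, none) ∉ T) (h2 : cnt X T j = 0) {x : Pts m k} (hx : OnP X x) :
    proj T x = secP X j (fun _ => (x j).base) := by
  classical
  funext i
  by_cases hi : i = j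
  · subst hi
    unfold proj secP
    rw [if_pos hj, Function.update_self]
    have h3 := (hx i).1
    have h4 : ∀ q : Pt k, q.1 = X i → q.mul (fun b => if (i, some b) ∈ T then 1 else 0) =
        ⟨X i, ⟨((Pt.base q).to (X i).base).c, fun _ => 1, fun _ => 0, fun _ => 0⟩⟩ := by
      rintro ⟨Y, w⟩ h
      change Y = X i at h
      have h5 : ∀ l : Fin (X i).N, (fun b => if (i, some b) ∈ T then (1 : SignType) else 0)
          ((X i).blk l : ℕ) = 0 := by
        intro l
        refine if_neg fun h6 => ?_
        unfold cnt at h2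
        rw [Finset.card_eq_zero] at h2
        have h7 : l ∈ (Finset.univ.filter fun l : Fin (X i).N =>
          (i, some ((X i).blk l : ℕ)) ∈ T) := Finset.mem_filter.2 ⟨Finset.mem_univ _, h6⟩
        rw [h2] at h7
        exact absurd h7 (Finset.notMem_empty _)
      generalize X i = Z at h h5
      subst h
      have h8 : ((Pt.base (⟨Y, w⟩ : Pt k)).to Y.base).c = w.c := by
        have h9 : (Pt.base (⟨Y, w⟩ : Pt k)).to Y.base =
          (⟨w.c, Fin.elim0, Fin.elim0, Fin.elim0⟩ : Crd Y.base) := dif_pos rfl
        rw [h9]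
      rw [h8]
      show (⟨Y, w.mul _⟩ : Pt k) = _
      rw [mul_zero_blk Y w h5]
    exact h4 (x i) h3
  · unfold proj secP
    rw [if_neg (h1 i hi), Function.update_of_ne hi]
    show (⟨(x i).1, (x i).1.oo⟩ : Pt k) = ⟨X i, (X i).oo⟩
    rw [(hx i).1]

/-- `wt X T = 1` means that there is exactly one `j` with `(j, none) ∈ T`, and no index of `X j` is in
`T`; then, for `x` on the product, `proj T x` is `secP X j` applied to the image of `x` in the base curve of
`X j`. `←`: `secP_ratEqP` for `toBase j z` (and `Fil_one` for `wt X T = 0`). `→`: for `T = {(j, none)}`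
the projection `π_T z` is in `ratEqP X`, and `toBase j (π_T z) = toBase j z` is in `ratEqP` of the curve by
`toBase_ratEqP`. -/
theorem Fil_two (z : Pts m k →₀ ℚ) :
    z ∈ Fil X 2 ↔ z ∈ Fil X 1 ∧ ∀ j, toBase j z ∈ ratEqP (fun _ : Fin 1 => (X j).base) := by
  classical
  constructor
  · intro hz
    refine ⟨Fil_anti 1 hz, fun j => ?_⟩
    have hwt : wt X ({(j, none)} : Finset (Fin m × Option ℕ)) < 2 := by
      have h1 : wt X ({(j, none)} : Finset (Fin m × Option ℕ)) = 1 := by
        unfold wt
        rw [Finset.sum_eq_single j]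
        · rw [if_pos (Finset.mem_singleton_self _)]
          have h2 : cnt X ({(j, none)} : Finset (Fin m × Option ℕ)) j = 0 := by
            unfold cnt
            rw [Finset.card_eq_zero, Finset.filter_eq_empty_iff]
            intro i _ h
            have h3 := Finset.mem_singleton.1 h
            exact absurd (congrArg Prod.snd h3) (by simp)
          rw [h2]
        · intro i _ hi
          refine if_neg fun h => hi ?_
          exact congrArg Prod.fst (Finset.mem_singleton.1 h)
        · intro h
          exact absurd (Finset.mem_univ j) h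
      omega
    have h1 := toBase_ratEqP j (hz.2 _ hwt)
    have h2 : toBase j (Finsupp.lmapDomain ℚ ℚ (proj {(j, none)}) z) = toBase j z := by
      unfold toBase
      rw [Finsupp.lmapDomain_apply, Finsupp.lmapDomain_apply, Finsupp.lmapDomain_apply,
        ← Finsupp.mapDomain_comp]
      congr 1
      funext x i
      show Pt.base (proj {(j, none)} x j) = (x j).base
      unfold proj
      rw [if_pos (Finset.mem_singleton_self _)]
      rfl
    rwa [h2] at h1
  · rintro ⟨h1, h2⟩
    refine ⟨h1.1, fun T hT => ?_⟩
    by_cases h0 : wt X T < 1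
    · exact h1.2 T h0
    have hw : wt X T = 1 := by omega
    obtain ⟨j, hj, h3⟩ : ∃ j, (j, none) ∈ T ∧ ∀ i, i ≠ j → (i, none) ∉ T := by
      by_contra hne
      push Not at hne
      have h4 : ∃ j, (j, none) ∈ T := by
        by_contra h5
        push Not at h5
        apply h0
        unfold wt
        rw [Finset.sum_eq_zero fun j _ => if_neg (h5 j)]
        exact Nat.one_pos
      obtain ⟨j, hj⟩ := h4
      obtain ⟨i, hij, hi⟩ := hne j hj
      have h5 : ∑ l ∈ ({i, j} : Finset (Fin m)), (if (l, none) ∈ T then cnt X T l + 1 else 0) ≤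
          wt X T := Finset.sum_le_sum_of_subset (Finset.subset_univ _)
      rw [Finset.sum_pair hij, if_pos hi, if_pos hj] at h5
      omega
    have h4 : cnt X T j = 0 := by
      have h5 : (if (j, none) ∈ T then cnt X T j + 1 else 0) ≤ wt X T :=
        Finset.single_le_sum (f := fun j => if (j, none) ∈ T then cnt X T j + 1 else 0)
          (fun _ _ => Nat.zero_le _) (Finset.mem_univ j)
      rw [if_pos hj] at h5
      omega
    have h5 := secP_ratEqP j (h2 j)
    have h6 : (toBase j z).mapDomain (secP X j) = Finsupp.lmapDomain ℚ ℚ (proj T) z := by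
      unfold toBase
      rw [Finsupp.lmapDomain_apply, Finsupp.lmapDomain_apply, ← Finsupp.mapDomain_comp]
      refine Finsupp.mapDomain_congr fun x hx => ?_
      exact (proj_one hj h3 h4 (h1.1 x hx)).symm
    rwa [h6] at h5

end Pool.Agent.EFC
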