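import Pool.Agent.EFC.FGraded
import Pool.Agent.EFC.FPushApp
import Pool.Agent.EFC.FTwo

/-!
# Condition 4

Adapt `Pool/Agent/EFP/Main.lean`.
-/

set_option autoImplicit false

noncomputable section

namespace Pool.Agent.EFC

open Pool.Agent.ZCyc
open Pool.Agent.VFP (Om tt)

variable {k : Type} [Field k] [IsAlgClosed k] [CharZero k] {m m' : ℕ} {X : Fin m → EC k}
  {Y : Fin m' → EC k} {Q : EC k → Prop}

private theorem main_mk (γ : Mor X Y →₀ ℚ) (z : Pts m k →₀ ℚ) :
    (Submodule.Quotient.mk (pushM γ z) : VP Y) =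
      ∑ f ∈ γ.support, γ f • pushW f (Submodule.Quotient.mk z : VP X) := by
  have h1 : pushM γ z = ∑ f ∈ γ.support, γ f • Finsupp.lmapDomain ℚ ℚ f.app z := by
    rw [pushM, Finsupp.sum, LinearMap.sum_apply]
    exact Finset.sum_congr rfl fun f _ => LinearMap.smul_apply _ _ _
  rw [h1, ← Submodule.mkQ_apply, map_sum]
  refine Finset.sum_congr rfl fun f _ => ?_
  rw [map_smul]
  rfl

/-- the cycles on the product -/
private def main_on (Y : Fin m' → EC k) : Submodule ℚ (Pts m' k →₀ ℚ) where
  carrier := {z | ∀ p ∈ z.support, OnP Y p}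
  zero_mem' := by simp
  add_mem' := by
    classical
    intro z w h1 h3 p hp
    rcases Finset.mem_union.1 (Finsupp.support_add hp) with h | h
    · exact h1 p h
    · exact h3 p h
  smul_mem' := fun c z h p hp => h p (Finsupp.support_smul hp)

omit [IsAlgClosed k] [CharZero k] in
private theorem main_supp (γ : Mor X Y →₀ ℚ) {z : Pts m k →₀ ℚ}
    (hz : ∀ p ∈ z.support, OnP X p) : ∀ p ∈ (pushM γ z).support, OnP Y p := by
  classical
  have h1 : pushM γ z ∈ main_on Y := by
    rw [pushM, Finsupp.sum, LinearMap.sum_apply]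
    refine Submodule.sum_mem _ fun f _ => ?_
    rw [LinearMap.smul_apply]
    refine Submodule.smul_mem _ _ ?_
    intro p hp
    have h2 := Finsupp.mapDomain_support hp
    obtain ⟨q, hq, rfl⟩ := Finset.mem_image.1 h2
    exact Mor.onP f (hz q hq)
  exact h1

private theorem main_gen (hcore : CoreQ k Q) (hG : CoreG k)
    (hQ : ∀ (j : Fin m') (S : Finset ℕ), Q ((Y j).sub S)) (γ : Mor X Y →₀ ℚ) (ν : ℕ)
    (h : KillsForms γ ν) {T : Finset (Fin m × Option ℕ)} (hT : T ⊆ blocks X) (hTc : Closed T)
    (hν : ν ≤ wt X T) {x : Pts m k} (hx : OnP X x) :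
    ∑ f ∈ γ.support, γ f • pushW f (eP X T x) ∈ FV Y (ν + 1) := by
  classical
  have h1 : ∑ f ∈ γ.support, γ f • pushW f (eP X T x) =
      ∑ T' ∈ (blocks Y).powerset with Closed T',
        ∑ f ∈ γ.support.filter (fun f => srcT f T' = T), γ f • eP Y T' (f.app x) := by
    simp_rw [Finset.sum_filter (fun f => srcT f _ = T)]
    rw [Finset.sum_comm]
    refine Finset.sum_congr rfl fun f _ => ?_
    have h0 : ((blocks Y).powerset.filter fun T' => Closed T' ∧ srcT f T' = T) =
        ((blocks Y).powerset.filter fun T' => Closed T').filter fun T' => srcT f T' = T := by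
      rw [Finset.filter_filter]
    have h2 := pushW_eP f (T := T) hx
    have h3 : ∑ T' ∈ (blocks Y).powerset with Closed T' ∧ srcT f T' = T, eP Y T' (f.app x) =
        ∑ T' ∈ (blocks Y).powerset with Closed T',
          if srcT f T' = T then eP Y T' (f.app x) else 0 := by
      rw [h0, Finset.sum_filter (fun T' => srcT f T' = T)]
    have h4 : pushW f (eP X T x) = ∑ T' ∈ (blocks Y).powerset with Closed T',
          if srcT f T' = T then eP Y T' (f.app x) else 0 := by
      rw [← h3]
      convert h2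
    rw [h4, Finset.smul_sum]
    refine Finset.sum_congr rfl fun T' _ => ?_
    split_ifs
    · rfl
    · rw [smul_zero]
  rw [h1]
  refine Submodule.sum_mem _ fun T' hT' => ?_
  rw [Finset.mem_filter, Finset.mem_powerset] at hT'
  obtain ⟨hT', hTc'⟩ := hT'
  rcases Nat.lt_or_ge ν (wt Y T') with hlt | hge
  · refine Submodule.sum_mem _ fun f _ => Submodule.smul_mem _ _ (Submodule.subset_span ?_)
    exact ⟨T', f.app x, Mor.onP f hx, hT', hTc', hlt, rfl⟩
  · by_cases hex : ∃ f ∈ γ.support.filter (fun f => srcT f T' = T), True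
    · obtain ⟨f0, hf0, -⟩ := hex
      rw [Finset.mem_filter] at hf0
      have h2 := wt_srcT_le f0 hT' hTc'
      rw [hf0.2] at h2
      have hw : wt X T = ν := by omega
      have hw' : wt Y T' = ν := by omega
      have h3 : γ.support.filter (fun f => srcT f T' = T) =
          γ.support.filter (fun f => Bij f T T') := by
        refine Finset.filter_congr fun f _ => ?_
        rw [bij_iff f hT hT' hTc hTc']
        exact ⟨fun h4 => ⟨h4, hw.trans hw'.symm⟩, fun h4 => h4.1⟩
      have h5 : ∑ f ∈ γ.support.filter (fun f => srcT f T' = T), γ f • eP Y T' (f.app x) = 0 := by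
        rw [h3]
        have h6 := graded hcore hG hQ h hT hT' hTc hTc' hw hw' hx
        rw [← h6]
        refine Finset.sum_congr (by congr) fun f hf => ?_
        rw [eP_app hT' (Finset.mem_filter.1 hf).2 hx, smul_smul]
      rw [h5]
      exact Submodule.zero_mem _
    · refine Submodule.sum_mem _ fun f hf => ?_
      exact absurd ⟨f, hf, trivial⟩ hex

/-- condition 4, from `graded`, `pushW_eP`, `bij_iff`, `eP_app`, `mk_mem_FV` -/
theorem Fil_grad (hcore : CoreQ k Q) (hG : CoreG k)
    (hQ : ∀ (j : Fin m') (S : Finset ℕ), Q ((Y j).sub S)) (γ : Mor X Y →₀ ℚ) (ν : ℕ)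
    (h : KillsForms γ ν) : (Fil X ν).map (pushM γ) ≤ Fil Y (ν + 1) := by
  rw [Submodule.map_le_iff_le_comap]
  intro z hz
  rw [Submodule.mem_comap]
  have hz1 : ∀ p ∈ z.support, OnP X p := hz.1
  rw [← mk_mem_FV (main_supp γ hz1), main_mk]
  have hz2 : (Submodule.Quotient.mk z : VP X) ∈ FV X ν := (mk_mem_FV hz1).2 hz
  -- the combination of the push-forwards as a linear map
  have h2 : FV X ν ≤ (FV Y (ν + 1)).comap (∑ f ∈ γ.support, γ f • pushW f) := by
    rw [FV, Submodule.span_le]
    rintro _ ⟨T, x, hx, hT, hTc, hν, rfl⟩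
    change (∑ f ∈ γ.support, γ f • pushW f) (eP X T x) ∈ FV Y (ν + 1)
    rw [LinearMap.sum_apply]
    exact main_gen hcore hG hQ γ ν h hT hTc hν hx
  have h3 := h2 hz2
  rw [Submodule.mem_comap, LinearMap.sum_apply] at h3
  exact h3

end Pool.Agent.EFC
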