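import Pool.Agent.EFC.FSubD
import Pool.Agent.EFC.Basic

/-!
# Points of products, multiplications and projections
-/

set_option autoImplicit false

noncomputable section

namespace Pool.Agent.EFC

open Pool.Agent.ZCyc
open Pool.Agent.VFP (Om tt)

variable {k : Type} [Field k] {m m' : ℕ} {X : Fin m → EC k} {Y : Fin m' → EC k}

private theorem fpt_cast_mul (a b : SignType) :
    ((a * b : SignType) : ℤ) = (a : ℤ) * (b : ℤ) := by
  cases a <;> cases b <;> rfl

private theorem fpt_mul_zero_iff (a b : SignType) : a * b = 0 ↔ a = 0 ∨ b = 0 := by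
  cases a <;> cases b <;> decide

theorem crd_mul_mul {Z : EC k} (ε ε' : ℕ → SignType) (w : Crd Z) :
    (w.mul ε').mul ε = w.mul fun b => ε b * ε' b := by
  refine Crd.ext rfl ?_ ?_ ?_
  · funext i
    change (if ε (Z.blk i) = 0 then (1 : k) else if ε' (Z.blk i) = 0 then 1 else w.x i) =
      if ε (Z.blk i) * ε' (Z.blk i) = 0 then 1 else w.x i
    simp only [fpt_mul_zero_iff]
    by_cases h1 : ε (Z.blk i) = 0 <;> by_cases h2 : ε' (Z.blk i) = 0 <;> simp [h1, h2]
  · funext i
    change (if ε (Z.blk i) = 0 then (0 : k) else if ε' (Z.blk i) = 0 then 0 else w.z i) =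
      if ε (Z.blk i) * ε' (Z.blk i) = 0 then 0 else w.z i
    simp only [fpt_mul_zero_iff]
    by_cases h1 : ε (Z.blk i) = 0 <;> by_cases h2 : ε' (Z.blk i) = 0 <;> simp [h1, h2]
  · funext b
    change (((ε b : SignType) : ℤ) : k) * ((((ε' b : SignType) : ℤ) : k) * w.y b) =
      (((ε b * ε' b : SignType) : ℤ) : k) * w.y b
    rw [fpt_cast_mul, Int.cast_mul, mul_assoc]

theorem crd_mul_one {Z : EC k} (w : Crd Z) : w.mul (fun _ => 1) = w := by
  refine Crd.ext rfl ?_ ?_ ?_
  · funext i
    change (if (1 : SignType) = 0 then (1 : k) else w.x i) = w.x i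
    rw [if_neg (by decide)]
  · funext i
    change (if (1 : SignType) = 0 then (0 : k) else w.z i) = w.z i
    rw [if_neg (by decide)]
  · funext b
    change (((1 : SignType) : ℤ) : k) * w.y b = w.y b
    simp

theorem crd_mul_congr {Z : EC k} {ε ε' : ℕ → SignType} (h : ∀ b, b < Z.r → ε b = ε' b)
    (w : Crd Z) : w.mul ε = w.mul ε' := by
  refine Crd.ext rfl ?_ ?_ ?_
  · funext i
    change (if ε (Z.blk i) = 0 then (1 : k) else w.x i) =
      if ε' (Z.blk i) = 0 then 1 else w.x i
    rw [h _ (Fin.is_lt _)]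
  · funext i
    change (if ε (Z.blk i) = 0 then (0 : k) else w.z i) =
      if ε' (Z.blk i) = 0 then 0 else w.z i
    rw [h _ (Fin.is_lt _)]
  · funext b
    change (((ε b : SignType) : ℤ) : k) * w.y b = (((ε' b : SignType) : ℤ) : k) * w.y b
    rw [h _ b.2]

theorem oo_mul (Z : EC k) (ε : ℕ → SignType) : Z.oo.mul ε = Z.oo := by
  refine Crd.ext rfl ?_ ?_ ?_
  · funext i
    change (if ε (Z.blk i) = 0 then (1 : k) else 1) = 1
    exact ite_self _
  · funext i
    change (if ε (Z.blk i) = 0 then (0 : k) else 0) = 0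
    exact ite_self _
  · funext b
    change (((ε b : SignType) : ℤ) : k) * 0 = 0
    exact mul_zero _

/-- every block has an index, by `pos` -/
theorem blk_surj (Z : EC k) (b : Fin Z.r) : ∃ i, Z.blk i = b := by
  by_contra h
  push Not at h
  have h1 := Z.pos b
  rw [Finset.filter_false_of_mem (fun i _ => h i), Finset.sum_empty] at h1
  exact lt_irrefl 0 h1

/-- the product over a block is zero if all `z_i` in the block are zero -/
private theorem fpt_prod_zero (Z : EC k) (b : Fin Z.r) {w : Crd Z}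
    (h : ∀ i, Z.blk i = b → w.z i = 0) :
    ∏ i with Z.blk i = b, fac (Z.coA w.c i) (Z.coB w.c i) (w.x i) (w.z i) = 0 := by
  obtain ⟨i, hi⟩ := blk_surj Z b
  refine Finset.prod_eq_zero (i := i) (by simp [hi]) ?_
  unfold fac
  rw [h i hi, zero_mul]

theorem on_oo (Z : EC k) : Z.oo.On := by
  refine ⟨fun i => Or.inl one_ne_zero, fun b => ?_⟩
  rw [fpt_prod_zero Z b fun i _ => rfl]
  change (0 : k) ^ 2 = 0
  exact zero_pow two_ne_zero

theorem on_mul {Z : EC k} {w : Crd Z} (hw : w.On) (ε : ℕ → SignType) : (w.mul ε).On := by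
  refine ⟨fun i => ?_, fun b => ?_⟩
  · change (if ε (Z.blk i) = 0 then (1 : k) else w.x i) ≠ 0 ∨
      (if ε (Z.blk i) = 0 then (0 : k) else w.z i) ≠ 0
    by_cases h : ε (Z.blk i) = 0
    · rw [if_pos h]
      exact Or.inl one_ne_zero
    · rw [if_neg h, if_neg h]
      exact hw.1 i
  · by_cases h : ε b = 0
    · rw [fpt_prod_zero Z b (w := w.mul ε) fun i hi => by
        change (if ε (Z.blk i) = 0 then (0 : k) else w.z i) = 0
        rw [hi, if_pos h]]
      change ((((ε b : SignType) : ℤ) : k) * w.y b) ^ 2 = 0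
      rw [h]
      simp
    · have h1 : ∏ i with Z.blk i = b, fac (Z.coA (w.mul ε).c i) (Z.coB (w.mul ε).c i)
          ((w.mul ε).x i) ((w.mul ε).z i) =
          ∏ i with Z.blk i = b, fac (Z.coA w.c i) (Z.coB w.c i) (w.x i) (w.z i) := by
        refine Finset.prod_congr rfl fun i hi => ?_
        have hi' : Z.blk i = b := (Finset.mem_filter.1 hi).2
        change fac (Z.coA w.c i) (Z.coB w.c i)
          (if ε (Z.blk i) = 0 then (1 : k) else w.x i)
          (if ε (Z.blk i) = 0 then (0 : k) else w.z i) = _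
        rw [hi', if_neg h, if_neg h]
      rw [h1, ← hw.2 b]
      change ((((ε b : SignType) : ℤ) : k) * w.y b) ^ 2 = w.y b ^ 2
      have h2 : ((ε b : SignType) : ℤ) ^ 2 = 1 := by
        cases hε : ε b
        · exact absurd hε h
        · rfl
        · rfl
      rw [mul_pow, ← Int.cast_pow, h2, Int.cast_one, one_mul]

/-- equality of points of the same variety -/
private theorem fpt_mk {Z : EC k} {w w' : Crd Z} (h : w = w') : (⟨Z, w⟩ : Pt k) = ⟨Z, w'⟩ := by
  rw [h]

private theorem fpt_pt_mul_mul (ε ε' : ℕ → SignType) (w : Pt k) :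
    (w.mul ε').mul ε = w.mul fun b => ε b * ε' b := fpt_mk (crd_mul_mul ε ε' w.2)

theorem mulP_mulP (ε ε' : Fin m → ℕ → SignType) (x : Pts m k) :
    mulP ε (mulP ε' x) = mulP (fun j b => ε j b * ε' j b) x := by
  funext j
  exact fpt_mk (crd_mul_mul (ε j) (ε' j) (x j).2)

theorem proj_proj (T U : Finset (Fin m × Option ℕ)) (x : Pts m k) :
    proj T (proj U x) = proj (T ∩ U) x := by
  funext j
  by_cases hT : (j, none) ∈ T
  · by_cases hU : (j, none) ∈ U
    · have h1 : (j, none) ∈ T ∩ U := Finset.mem_inter.2 ⟨hT, hU⟩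
      have e1 : proj T (proj U x) j = (proj U x j).mul
          (fun b => if (j, some b) ∈ T then 1 else 0) := if_pos hT
      have e2 : proj U x j = (x j).mul (fun b => if (j, some b) ∈ U then 1 else 0) := if_pos hU
      have e3 : proj (T ∩ U) x j = (x j).mul
          (fun b => if (j, some b) ∈ T ∩ U then 1 else 0) := if_pos h1
      rw [e1, e2, e3, fpt_pt_mul_mul]
      congr 1
      funext b
      by_cases h2 : (j, some b) ∈ T <;> by_cases h3 : (j, some b) ∈ U <;>
        simp [h2, h3]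
    · have h1 : (j, none) ∉ T ∩ U := fun h => hU (Finset.mem_inter.1 h).2
      have e1 : proj T (proj U x) j = (proj U x j).mul
          (fun b => if (j, some b) ∈ T then 1 else 0) := if_pos hT
      have e2 : proj U x j = ⟨(x j).1, (x j).1.oo⟩ := if_neg hU
      have e3 : proj (T ∩ U) x j = ⟨(x j).1, (x j).1.oo⟩ := if_neg h1
      rw [e1, e2, e3]
      exact fpt_mk (oo_mul _ _)
  · have h1 : (j, none) ∉ T ∩ U := fun h => hT (Finset.mem_inter.1 h).1
    have e1 : proj T (proj U x) j = ⟨(proj U x j).1, (proj U x j).1.oo⟩ := if_neg hT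
    have e2 : (proj U x j).1 = (x j).1 := by
      by_cases hU : (j, none) ∈ U
      · have e2 : proj U x j = (x j).mul (fun b => if (j, some b) ∈ U then 1 else 0) :=
          if_pos hU
        rw [e2]
        rfl
      · have e2 : proj U x j = ⟨(x j).1, (x j).1.oo⟩ := if_neg hU
        rw [e2]
    have e3 : proj (T ∩ U) x j = ⟨(x j).1, (x j).1.oo⟩ := if_neg h1
    rw [e1, e3, e2]

theorem proj_mulP (T : Finset (Fin m × Option ℕ)) (ε : Fin m → ℕ → SignType) (x : Pts m k) :
    proj T (mulP ε x) = mulP ε (proj T x) := by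
  funext j
  by_cases hT : (j, none) ∈ T
  · have e1 : proj T (mulP ε x) j = ((x j).mul (ε j)).mul
        (fun b => if (j, some b) ∈ T then 1 else 0) := if_pos hT
    have e2 : proj T x j = (x j).mul (fun b => if (j, some b) ∈ T then 1 else 0) := if_pos hT
    have e3 : mulP ε (proj T x) j = (proj T x j).mul (ε j) := rfl
    rw [e1, e3, e2, fpt_pt_mul_mul, fpt_pt_mul_mul]
    congr 1
    funext b
    exact mul_comm _ _
  · have e1 : proj T (mulP ε x) j = ⟨(x j).1, (x j).1.oo⟩ := if_neg hT
    have e2 : proj T x j = ⟨(x j).1, (x j).1.oo⟩ := if_neg hT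
    have e3 : mulP ε (proj T x) j = (proj T x j).mul (ε j) := rfl
    rw [e1, e3, e2]
    exact fpt_mk (oo_mul _ _).symm

theorem proj_blocks {x : Pts m k} (hx : OnP X x) : proj (blocks X) x = x := by
  funext j
  have e1 : proj (blocks X) x j = (x j).mul
      (fun b => if (j, some b) ∈ blocks X then 1 else 0) := if_pos (none_mem_blocks X j)
  rw [e1]
  change (⟨(x j).1, (x j).2.mul _⟩ : Pt k) = ⟨(x j).1, (x j).2⟩
  refine fpt_mk ?_
  rw [crd_mul_congr (ε' := fun _ => 1), crd_mul_one]
  intro b hb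
  rw [(hx j).1] at hb
  exact if_pos (some_mem_blocks.2 hb)

theorem proj_inter_blocks {x : Pts m k} (hx : OnP X x) (T : Finset (Fin m × Option ℕ)) :
    proj (T ∩ blocks X) x = proj T x := by
  rw [← proj_proj, proj_blocks hx]

theorem onP_mulP {x : Pts m k} (hx : OnP X x) (ε : Fin m → ℕ → SignType) :
    OnP X (mulP ε x) := fun j => ⟨(hx j).1, on_mul (hx j).2 (ε j)⟩

theorem onP_proj {x : Pts m k} (hx : OnP X x) (T : Finset (Fin m × Option ℕ)) :
    OnP X (proj T x) := by
  intro j
  by_cases hT : (j, none) ∈ T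
  · have e1 : proj T x j = (x j).mul (fun b => if (j, some b) ∈ T then 1 else 0) := if_pos hT
    rw [e1]
    exact ⟨(hx j).1, on_mul (hx j).2 fun b => if (j, some b) ∈ T then 1 else 0⟩
  · have e1 : proj T x j = ⟨(x j).1, (x j).1.oo⟩ := if_neg hT
    rw [e1]
    exact ⟨(hx j).1, on_oo _⟩

theorem Mor.onP (f : Mor X Y) {x : Pts m k} (hx : OnP X x) : OnP Y (f.app x) := by
  intro j
  change ((f j).app x).1 = Y j ∧ ((f j).app x).2.On
  cases f j with
  | const w hw => exact ⟨rfl, hw⟩
  | fac i h ε => exact ⟨(hx i).1.trans h, on_mul (hx i).2 ε⟩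

theorem Mor.onP_base (f : Mor X Y) {x : Pts m k} (hx : OnP X x) : OnP Y (f.base x) := by
  intro j
  change ((f j).base x).1 = Y j ∧ ((f j).base x).2.On
  cases f j with
  | const w hw => exact ⟨rfl, hw⟩
  | fac i h ε => exact ⟨(hx i).1.trans h, (hx i).2⟩

end Pool.Agent.EFC
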