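import Pool.Agent.EFC.FDefs

/-!
# The fibre product of some of the blocks: definition
-/

set_option autoImplicit false

noncomputable section

namespace Pool.Agent.EFC

open Pool.Agent.ZCyc
open Pool.Agent.VFP (Om tt)

universe u

variable {k : Type u} [Field k]

/-- the indices whose block is in `S` -/
def subI (Z : EC k) (S : Finset ℕ) : Finset (Fin Z.N) :=
  Finset.univ.filter fun i => (Z.blk i : ℕ) ∈ S

/-- the blocks in `S` -/
def subK (Z : EC k) (S : Finset ℕ) : Finset (Fin Z.r) :=
  Finset.univ.filter fun b => (b : ℕ) ∈ S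

/-- the increasing enumeration of the indices -/
def ιS (Z : EC k) (S : Finset ℕ) : Fin (subI Z S).card ↪o Fin Z.N :=
  (subI Z S).orderEmbOfFin rfl

/-- the increasing enumeration of the blocks -/
def κS (Z : EC k) (S : Finset ℕ) : Fin (subK Z S).card ↪o Fin Z.r :=
  (subK Z S).orderEmbOfFin rfl

theorem ιS_range (Z : EC k) (S : Finset ℕ) (i : Fin Z.N) :
    (∃ a, ιS Z S a = i) ↔ (Z.blk i : ℕ) ∈ S := by
  have h := Finset.range_orderEmbOfFin (subI Z S) rfl
  have h2 : i ∈ Set.range (ιS Z S) ↔ i ∈ (subI Z S : Set (Fin Z.N)) := by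
    rw [← h]
    rfl
  refine h2.trans ?_
  rw [Finset.mem_coe, subI, Finset.mem_filter]
  exact ⟨fun h => h.2, fun h => ⟨Finset.mem_univ _, h⟩⟩

theorem κS_range (Z : EC k) (S : Finset ℕ) (b : Fin Z.r) :
    (∃ a, κS Z S a = b) ↔ (b : ℕ) ∈ S := by
  have h := Finset.range_orderEmbOfFin (subK Z S) rfl
  have h2 : b ∈ Set.range (κS Z S) ↔ b ∈ (subK Z S : Set (Fin Z.r)) := by
    rw [← h]
    rfl
  refine h2.trans ?_
  rw [Finset.mem_coe, subK, Finset.mem_filter]
  exact ⟨fun h => h.2, fun h => ⟨Finset.mem_univ _, h⟩⟩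

theorem exists_blkS (Z : EC k) (S : Finset ℕ) (a : Fin (subI Z S).card) :
    ∃ c, κS Z S c = Z.blk (ιS Z S a) :=
  (κS_range Z S _).2 ((ιS_range Z S _).1 ⟨a, rfl⟩)

/-- the block of an index -/
def blkS (Z : EC k) (S : Finset ℕ) (a : Fin (subI Z S).card) : Fin (subK Z S).card :=
  (exists_blkS Z S a).choose

theorem κS_blkS (Z : EC k) (S : Finset ℕ) (a : Fin (subI Z S).card) :
    κS Z S (blkS Z S a) = Z.blk (ιS Z S a) := (exists_blkS Z S a).choose_spec

/-- the sums over the blocks -/
theorem sum_blkS (Z : EC k) (S : Finset ℕ) {M : Type*} [AddCommMonoid M]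
    (g : Fin Z.N → M) (a : Fin (subK Z S).card) :
    ∑ i with blkS Z S i = a, g (ιS Z S i) = ∑ i with Z.blk i = κS Z S a, g i := by
  classical
  refine Finset.sum_nbij (ιS Z S) ?_ ?_ ?_ ?_
  · intro i hi
    rw [Finset.mem_filter] at hi ⊢
    refine ⟨Finset.mem_univ _, ?_⟩
    rw [← κS_blkS, hi.2]
  · intro i _ j _ h
    exact (ιS Z S).injective h
  · intro i hi
    rw [Finset.mem_coe, Finset.mem_filter] at hi
    have h1 : (Z.blk i : ℕ) ∈ S := by
      rw [hi.2]
      exact (κS_range Z S _).1 ⟨a, rfl⟩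
    obtain ⟨b, rfl⟩ := (ιS_range Z S i).2 h1
    refine ⟨b, ?_, rfl⟩
    rw [Finset.mem_coe, Finset.mem_filter]
    refine ⟨Finset.mem_univ _, (κS Z S).injective ?_⟩
    rw [κS_blkS, hi.2]
  · intro i _
    rfl

theorem sum_allS (Z : EC k) (S : Finset ℕ) {M : Type*} [AddCommMonoid M]
    (g : Fin Z.N → M) : ∑ i, g (ιS Z S i) = ∑ i with (Z.blk i : ℕ) ∈ S, g i := by
  classical
  refine Finset.sum_nbij (ιS Z S) ?_ ?_ ?_ ?_
  · intro i _
    rw [Finset.mem_filter]
    exact ⟨Finset.mem_univ _, (ιS_range Z S _).1 ⟨i, rfl⟩⟩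
  · intro i _ j _ h
    exact (ιS Z S).injective h
  · intro i hi
    rw [Finset.mem_coe, Finset.mem_filter] at hi
    obtain ⟨b, rfl⟩ := (ιS_range Z S i).2 hi.2
    exact ⟨b, Finset.mem_coe.2 (Finset.mem_univ _), rfl⟩
  · intro i _
    rfl

/-- The fibre product of the blocks `b ∈ S` of `Z` (the curve `C` if `S` is empty). -/
def EC.sub (Z : EC k) (S : Finset ℕ) : EC k where
  L := Z.L
  curve := Z.curve
  N := (subI Z S).card
  r := (subK Z S).card
  blk := blkS Z S
  D a := Z.D (ιS Z S a)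
  A a := Z.A (ιS Z S a)
  B a := Z.B (ιS Z S a)
  even b c := by
    rw [sum_blkS Z S (fun i => Z.D i c) b]
    exact Z.even _ c
  pos b := by
    rw [sum_blkS Z S (fun i => deg (Z.D i)) b]
    exact Z.pos _
  regA i c := Z.regA _ c
  regB i c := Z.regB _ c
  disc i := Z.disc _
  canonical c a b h := by
    classical
    have hinj : Function.Injective (ιS Z S) := (ιS Z S).injective
    have ha : ∀ i, Function.extend (ιS Z S) a 0 (ιS Z S i) = a i := hinj.extend_apply a 0
    have hb : ∀ i, Function.extend (ιS Z S) b 0 (ιS Z S i) = b i := hinj.extend_apply b 0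
    refine lt_of_le_of_lt ?_ (Z.canonical c (Function.extend (ιS Z S) a 0)
      (Function.extend (ιS Z S) b 0) ?_)
    · have h1 : ∑ i, min (3 * a i) (2 * b i) = ∑ i ∈ Finset.univ.map ⟨ιS Z S, hinj⟩,
          min (3 * Function.extend (ιS Z S) a 0 i) (2 * Function.extend (ιS Z S) b 0 i) := by
        rw [Finset.sum_map]
        refine Finset.sum_congr rfl fun i _ => ?_
        show _ = min (3 * Function.extend (ιS Z S) a 0 (ιS Z S i))
          (2 * Function.extend (ιS Z S) b 0 (ιS Z S i))
        rw [ha, hb]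
      rw [h1]
      exact Finset.sum_le_sum_of_subset (Finset.subset_univ _)
    · intro i
      by_cases hi : ∃ j, ιS Z S j = i
      · obtain ⟨j, rfl⟩ := hi
        rw [ha, hb]
        exact h j
      · rw [Function.extend_apply' _ _ _ hi, Function.extend_apply' _ _ _ hi]
        have e : ((0 : Fin Z.N → ℕ) i : ℤ) = 0 := rfl
        rw [e, sub_zero, sub_zero]
        exact ⟨Z.regA i c, Z.regB i c⟩

open Classical in
/-- the point with the given coordinates in the blocks in `S` and the zero section in the other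
blocks -/
def liftS {Z : EC k} {S : Finset ℕ} (w : Crd (Z.sub S)) : Crd Z where
  c := w.c
  x i := if h : ∃ a, ιS Z S a = i then w.x h.choose else 1
  z i := if h : ∃ a, ιS Z S a = i then w.z h.choose else 0
  y b := if h : ∃ a, κS Z S a = b then w.y h.choose else 0

open Classical in
/-- the same over `Om k` -/
def liftSO {Z : EC k} {S : Finset ℕ} (w : CrdO (Z.sub S)) : CrdO Z where
  s := w.s
  x i := if h : ∃ a, ιS Z S a = i then w.x h.choose else 1
  z i := if h : ∃ a, ιS Z S a = i then w.z h.choose else 0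
  y b := if h : ∃ a, κS Z S a = b then w.y h.choose else 0

/-- the coordinates in the blocks in `S` -/
def restS {Z : EC k} (S : Finset ℕ) (w : Crd Z) : Crd (Z.sub S) where
  c := w.c
  x a := w.x (ιS Z S a)
  z a := w.z (ιS Z S a)
  y b := w.y (κS Z S b)

open Classical in
/-- a point of `Z`; the base point for points of other varieties -/
def Pt.to (Z : EC k) (w : Pt k) : Crd Z := if h : w.1 = Z then h ▸ w.2 else Z.oo

open Classical in
/-- Insertion of an `n`-tuple of points of `Z.sub S` into `x`, at the positions `c a`. -/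
def insP {m n : ℕ} {Z : EC k} {S : Finset ℕ} (c : Fin n ↪ Fin m) (x : Pts m k)
    (w : Pts n k) : Pts m k := fun j =>
  if h : ∃ a, c a = j then ⟨Z, liftS ((w h.choose).to (Z.sub S))⟩ else x j

end Pool.Agent.EFC
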