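import Pool.Agent.EFC.BaseVal
import Pool.Agent.TInc.EmbD

/-!
# Sums over the embeddings of a function field
-/

set_option autoImplicit false

noncomputable section

namespace Pool.Agent.EFC

open Pool.Agent.ZCyc
open Pool.Agent.VFP (Om tt)

variable {k : Type} [Field k] [IsAlgClosed k] [CharZero k] {F : Type} [Field F] [Algebra k F]
  {W : Type*} [AddCommGroup W] [Module ℚ W]

omit [IsAlgClosed k] [CharZero k] in
private theorem moveSum_mem {v : Place k (Om k)} {c : Place k F} {σ : F →ₐ[k] Om k}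
    (hv : c.ring = v.ring.comap σ.toRingHom) (g : F) : g ∈ c.ring ↔ σ g ∈ v.ring := by
  rw [hv]
  exact ValuationSubring.mem_comap

omit [IsAlgClosed k] [CharZero k] in
/-- the place below `v` has the value `a` too -/
private theorem moveSum_at {ψ : F} {τ : Om k} {v : Place k (Om k)} {a : k} (ha : v.At τ a)
    {c : Place k F} {σ : F →ₐ[k] Om k} (hσ : σ ψ = τ)
    (hv : c.ring = v.ring.comap σ.toRingHom) : c.At ψ a := by
  unfold Place.At at ha ⊢
  rw [Place.vanishes_iff_or] at ha ⊢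
  have h1 : σ (ψ - algebraMap k F a) = τ - algebraMap k (Om k) a := by
    rw [map_sub, hσ, AlgHom.commutes]
  rw [← h1] at ha
  rcases ha with ha | ha
  · exact Or.inl ((map_eq_zero σ).1 ha)
  · refine Or.inr fun h => ha ?_
    rw [← map_inv₀]
    exact (moveSum_mem hv _).1 h

omit [IsAlgClosed k] [CharZero k] in
/-- the general form: group the embeddings by the place below `v` -/
private theorem moveSum_group {ψ : F} {τ : Om k} {v : Place k (Om k)} (f : Place k F → W)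
    {E : Finset (F →ₐ[k] Om k)} (hE : ∀ σ, σ ∈ E ↔ σ ψ = τ)
    {γ : (F →ₐ[k] Om k) → Place k F}
    (hγ : ∀ σ ∈ E, (γ σ).ring = v.ring.comap σ.toRingHom) {T : Finset (Place k F)}
    (hT : ∀ σ ∈ E, γ σ ∈ T) (m : Place k F → ℤ)
    (hm : ∀ c ∈ T, ({σ : F →ₐ[k] Om k | σ ψ = τ ∧
      v.ring.comap (σ : F →+* Om k) = c.ring}.ncard : ℤ) = m c) :
    ∑ σ ∈ E, f (γ σ) = ∑ c ∈ T, (m c : ℚ) • f c := by
  classical
  rw [← Finset.sum_fiberwise_of_maps_to hT]
  refine Finset.sum_congr rfl fun c hc => ?_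
  have h1 : ∑ σ ∈ E with γ σ = c, f (γ σ) = ∑ σ ∈ E with γ σ = c, f c :=
    Finset.sum_congr rfl fun σ hσ => by rw [(Finset.mem_filter.1 hσ).2]
  rw [h1, Finset.sum_const, ← hm c hc]
  have h2 : {σ : F →ₐ[k] Om k | σ ψ = τ ∧ v.ring.comap (σ : F →+* Om k) = c.ring} =
      ((E.filter fun σ => γ σ = c : Finset (F →ₐ[k] Om k)) : Set (F →ₐ[k] Om k)) := by
    ext σ
    rw [Set.mem_ofPred_eq, Finset.mem_coe, Finset.mem_filter, hE]
    refine and_congr_right fun h => ?_
    have h3 := hγ σ ((hE σ).2 h)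
    constructor
    · intro h4
      exact Place.ext (h3.trans h4)
    · intro h4
      rw [← h4]
      exact h3.symm
  rw [h2, Set.ncard_coe_finset, Int.cast_natCast, Nat.cast_smul_eq_nsmul]

/-- The sum of the values of `f` at the places below `v` for all embeddings `σ` with `σ ψ = τ`, if
`τ` has the value `a` at `v`: the sum over all places `c` with `ψ(c) = a`, with the multiplicities.
Group the `σ` by the place below `v` (`TInc.exists_below`, it satisfies `ψ(c) = a`), and use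
`TInc.card_over`. -/
theorem sum_emb (hF : IsCurve k F) {ψ : F} (hψ : Transcendental k ψ) {τ : Om k}
    (hτ : Transcendental k τ) {v : Place k (Om k)} {a : k} (ha : v.At τ a)
    (f : Place k F → W) {E : Finset (F →ₐ[k] Om k)} (hE : ∀ σ, σ ∈ E ↔ σ ψ = τ)
    {γ : (F →ₐ[k] Om k) → Place k F}
    (hγ : ∀ σ ∈ E, (γ σ).ring = v.ring.comap σ.toRingHom) {T : Finset (Place k F)}
    (hT : ∀ c, c ∈ T ↔ c.At ψ a) :
    ∑ σ ∈ E, f (γ σ) = ∑ c ∈ T, (TInc.ord c (ψ - algebraMap k F a) : ℚ) • f c :=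
  moveSum_group f hE hγ
    (fun σ hσ => (hT _).2 (moveSum_at ha ((hE σ).1 hσ) (hγ σ hσ)))
    (fun c => TInc.ord c (ψ - algebraMap k F a))
    (fun c hc => TInc.card_over hF.dess hψ hτ ha ((hT c).1 hc))

/-- The same if `τ` has a pole at `v` (`TInc.card_over_pole`). -/
theorem sum_emb_pole (hF : IsCurve k F) {ψ : F} (hψ : Transcendental k ψ) {τ : Om k}
    (hτ : Transcendental k τ) {v : Place k (Om k)} (ha : τ ∉ v.ring)
    (f : Place k F → W) {E : Finset (F →ₐ[k] Om k)} (hE : ∀ σ, σ ∈ E ↔ σ ψ = τ)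
    {γ : (F →ₐ[k] Om k) → Place k F}
    (hγ : ∀ σ ∈ E, (γ σ).ring = v.ring.comap σ.toRingHom) {T : Finset (Place k F)}
    (hT : ∀ c, c ∈ T ↔ ψ ∉ c.ring) :
    ∑ σ ∈ E, f (γ σ) = ∑ c ∈ T, (-TInc.ord c ψ : ℚ) • f c := by
  have h := moveSum_group (v := v) f hE hγ (T := T)
    (fun σ hσ => (hT _).2 fun h => ha (by
      rw [← (hE σ).1 hσ]
      exact (moveSum_mem (hγ σ hσ) ψ).1 h))
    (fun c => -TInc.ord c ψ)
    (fun c hc => TInc.card_over_pole hF.dess hψ hτ ha ((hT c).1 hc))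
  rw [h]
  refine Finset.sum_congr rfl fun c _ => ?_
  rw [Int.cast_neg]

/-- the sets `E` and `T` in `sum_emb` are finite (`TInc.card_emb`, `TInc.finite_ord`) -/
theorem exists_E (hF : IsCurve k F) {ψ : F} (hψ : Transcendental k ψ) {τ : Om k}
    (hτ : Transcendental k τ) : ∃ E : Finset (F →ₐ[k] Om k), ∀ σ, σ ∈ E ↔ σ ψ = τ :=
  ⟨(TInc.card_emb hF.dess hψ hτ).1.toFinset,
    fun _ => (TInc.card_emb hF.dess hψ hτ).1.mem_toFinset⟩

theorem exists_T (hF : IsCurve k F) {ψ : F} (hψ : Transcendental k ψ) (a : k) :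
    ∃ T : Finset (Place k F), ∀ c, c ∈ T ↔ c.At ψ a :=
  ⟨(Dess.finite_at hF.dess hψ a).toFinset, fun _ => (Dess.finite_at hF.dess hψ a).mem_toFinset⟩

theorem exists_T_pole (hF : IsCurve k F) (ψ : F) :
    ∃ T : Finset (Place k F), ∀ c, c ∈ T ↔ ψ ∉ c.ring := by
  have h : {c : Place k F | ψ ∉ c.ring}.Finite := by
    by_cases h0 : ψ = 0
    · rw [h0]
      apply Set.Finite.subset Set.finite_empty
      intro c hc
      exact hc (zero_mem _)
    · apply (TInc.finite_ord hF.dess ψ).subset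
      intro c hc h1
      exact hc ((TInc.mem_iff_ord hF.dess h0).2 h1.ge)
  exact ⟨h.toFinset, fun _ => h.mem_toFinset⟩

end Pool.Agent.EFC
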