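import Pool.Agent.EFC.BaseVal
import Pool.Agent.Dess.CRT

/-!
# Extensions of function fields, and functions with given values
-/

set_option autoImplicit false

noncomputable section

namespace Pool.Agent.EFC

open Pool.Agent.ZCyc
open Pool.Agent.VFP (Om tt)

variable {k : Type} [Field k] [IsAlgClosed k] [CharZero k] {L F : Type} [Field L] [Algebra k L]
  [Field F] [Algebra k F]

private theorem curve_of_finite {M : Type} [Field M] [Algebra k M] [Algebra L M]
    [IsScalarTower k L M] [FiniteDimensional L M] (hL : IsCurve k L) : IsCurve k M := by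
  obtain ⟨t, ht, hfin⟩ := hL
  refine ⟨algebraMap L M t, ?_, ?_⟩
  · exact (transcendental_algebraMap_iff (algebraMap L M).injective).2 ht
  · let f : L →ₐ[k] M := IsScalarTower.toAlgHom k L M
    have hK : ∀ x : IntermediateField.adjoin k {t},
        (algebraMap L M).comp (algebraMap (IntermediateField.adjoin k {t}) L) x ∈
          (IntermediateField.adjoin k {algebraMap L M t}).toSubfield := by
      rintro ⟨x, hx⟩
      have h1 : f x ∈ (IntermediateField.adjoin k {t}).map f := ⟨x, hx, rfl⟩
      rw [IntermediateField.adjoin_map, Set.image_singleton] at h1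
      exact h1
    letI : Algebra (IntermediateField.adjoin k {t})
        (IntermediateField.adjoin k {algebraMap L M t}) :=
      (((algebraMap L M).comp (algebraMap (IntermediateField.adjoin k {t}) L)).codRestrict
        (IntermediateField.adjoin k {algebraMap L M t}).toSubfield hK).toAlgebra
    haveI : IsScalarTower (IntermediateField.adjoin k {t})
        (IntermediateField.adjoin k {algebraMap L M t}) M :=
      IsScalarTower.of_algebraMap_eq fun x => rfl
    haveI := hfin
    haveI : FiniteDimensional (IntermediateField.adjoin k {t}) M :=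
      FiniteDimensional.trans (IntermediateField.adjoin k {t}) L M
    exact Module.Finite.of_restrictScalars_finite (IntermediateField.adjoin k {t})
      (IntermediateField.adjoin k {algebraMap L M t}) M

/-- Square roots of finitely many elements exist in a finite extension of the function field, and
there is a place of the extension above every place. (Take the subfield of an algebraic closure of
`L` generated by square roots; the place: `Dess.exists_ext`, or the same argument as in
`TInc.exists_above`.) -/
theorem exists_sqrt_field (hL : IsCurve k L) {r : ℕ} (g : Fin r → L) (c : Place k L) :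
    ∃ (F : Type) (_ : Field F) (_ : Algebra k F) (ι : L →ₐ[k] F) (Y : Fin r → F)
      (γ : Place k F), IsCurve k F ∧ (∀ b, Y b ^ 2 = ι (g b)) ∧
        c.ring = γ.ring.comap ι.toRingHom := by
  classical
  have h2 : ∀ b, ∃ y : AlgebraicClosure L, y ^ 2 = algebraMap L (AlgebraicClosure L) (g b) :=
    fun b => IsAlgClosed.exists_pow_nat_eq _ (by norm_num)
  choose y hy using h2
  let E : IntermediateField L (AlgebraicClosure L) := IntermediateField.adjoin L (Set.range y)
  haveI : FiniteDimensional L E :=
    IntermediateField.finiteDimensional_adjoin fun x _ => Algebra.IsIntegral.isIntegral x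
  have hE : IsCurve k E := curve_of_finite hL
  let ι : L →ₐ[k] E := IsScalarTower.toAlgHom k L E
  obtain ⟨γ, hγ⟩ := Dess.exists_ext hL.dess hE.dess ι c
  exact ⟨E, inferInstance, inferInstance, ι,
    fun b => ⟨y b, IntermediateField.subset_adjoin L _ ⟨b, rfl⟩⟩, γ, hE,
    fun b => Subtype.ext (hy b), hγ.symm⟩

/-- the place of `L` below a place of `F` (`γ.ring` does not contain `ι L`, because `F` is algebraic
over `ι L` and `γ.ring` is integrally closed) -/
theorem exists_under (hL : IsCurve k L) (hF : IsCurve k F) (ι : L →ₐ[k] F) (γ : Place k F) :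
    ∃ c : Place k L, c.ring = γ.ring.comap ι.toRingHom := by
  obtain ⟨c, hc⟩ := Dess.exists_pull hL.dess hF.dess (RingEquiv.refl k) (ι : L →+* F)
    (fun a => ι.commutes a) γ
  exact ⟨c, hc.symm⟩

/-- there are finitely many places of `F` above finitely many places of `L` (they are zeros of
`ι f` for a function `f` which vanishes at the place of `L`; `TInc.finite_ord`) -/
theorem finite_over (hL : IsCurve k L) (hF : IsCurve k F) (ι : L →ₐ[k] F)
    {Z : Set (Place k L)} (hZ : Z.Finite) :
    {γ : Place k F | ∃ c ∈ Z, c.ring = γ.ring.comap ι.toRingHom}.Finite := by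
  have h1 : ∀ c : Place k L, {γ : Place k F | c.ring = γ.ring.comap ι.toRingHom}.Finite := by
    intro c
    obtain ⟨π, hπ⟩ := Dess.exists_unif hL.dess c
    refine (TInc.finite_ord hF.dess (ι π)).subset ?_
    intro γ hγ
    have hγ' : c.ring = γ.ring.comap ι.toRingHom := hγ
    have hπ0 : ι π ≠ 0 := fun h => hπ.1 (ι.toRingHom.injective (by rw [map_zero]; exact h))
    have h2 : γ.Vanishes (ι π) := by
      rw [Place.vanishes_iff_or]
      right
      intro h3
      have h4 : π⁻¹ ∈ c.ring := by
        rw [hγ', ValuationSubring.mem_comap]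
        have h5 : ι.toRingHom π⁻¹ = (ι π)⁻¹ := map_inv₀ ι π
        rw [h5]
        exact h3
      rcases (c.vanishes_iff_or π).1 hπ.2.1 with h | h
      · exact hπ.1 h
      · exact h h4
    have h3 := (TInc.vanishes_iff_ord hF.dess hπ0).1 h2
    show TInc.ord γ (ι π) ≠ 0
    omega
  have h2 : {γ : Place k F | ∃ c ∈ Z, c.ring = γ.ring.comap ι.toRingHom} =
      ⋃ c ∈ Z, {γ : Place k F | c.ring = γ.ring.comap ι.toRingHom} := by
    ext γ
    simp
  rw [h2]
  exact hZ.biUnion fun c _ => h1 c

/-- A function with a simple zero at `γ₀` and the value `2` at finitely many other places: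
`Dess.crt`. -/
theorem exists_psi (hF : IsCurve k F) (γ₀ : Place k F) {S : Set (Place k F)} (hS : S.Finite) :
    ∃ ψ : F, Transcendental k ψ ∧ ψ ≠ 0 ∧ TInc.ord γ₀ ψ = 1 ∧
      ∀ γ ∈ S, γ ≠ γ₀ → γ.At ψ 2 := by
  classical
  set S' : Finset (Place k F) := insert γ₀ hS.toFinset with hS'
  -- a transcendental function which is regular at the places of `S'`
  obtain ⟨w, hwt, hw⟩ : ∃ w : F, Transcendental k w ∧ ∀ u ∈ S', w ∈ u.ring := by
    obtain ⟨t, ht, -⟩ := id hF
    haveI : Infinite k := IsAlgClosed.instInfinite
    obtain ⟨c, hc⟩ := Infinite.exists_notMem_finset (S'.image fun u => TInc.val u t)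
    refine ⟨(t - algebraMap k F c)⁻¹, ?_, ?_⟩
    · intro hal
      apply ht
      have h1 : IsAlgebraic k (t - algebraMap k F c) := by
        have := hal.inv
        rwa [inv_inv] at this
      have h2 := h1.add (isAlgebraic_algebraMap c)
      rwa [sub_add_cancel] at h2
    · intro u hu
      by_contra h
      have h1 : u.At t c := (u.vanishes_iff_or _).2 (Or.inr h)
      apply hc
      rw [← TInc.val_eq h1]
      exact Finset.mem_image_of_mem _ hu
  obtain ⟨π₀, hπ₀⟩ := Dess.exists_unif hF.dess γ₀
  obtain ⟨b, -, hb⟩ := Dess.crt hF.dess hwt S' hw 2 (fun u => if u = γ₀ then π₀ else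
    algebraMap k F 2) (fun u _ => by
      split_ifs with h
      · rw [h]
        exact hπ₀.2.1.mem
      · exact u.const_mem _)
  have h0 := hb γ₀ (Finset.mem_insert_self _ _) π₀ hπ₀
  rw [if_pos rfl] at h0
  -- the order at `γ₀`
  have e1 : b / π₀ = 1 + (b - π₀) / π₀ ^ 2 * π₀ := by
    have := hπ₀.1
    field_simp
    ring
  have h1 : γ₀.Vanishes ((b - π₀) / π₀ ^ 2 * π₀) := Place.Vanishes.mul' γ₀ hπ₀.2.1 h0
  have h2 : γ₀.At (b / π₀) 1 := by
    rw [e1]
    have h3 := (Place.at_const (v := γ₀) (1 : k)).add (Place.at_zero_iff.2 h1)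
    rwa [map_one, add_zero] at h3
  have hb0 : b ≠ 0 := by
    rintro rfl
    rw [zero_div] at h2
    have h3 := h2.unique (Place.at_zero_iff.2 γ₀.vanishes_zero)
    exact one_ne_zero h3
  have h3 : TInc.ord γ₀ b = 1 := by
    have h4 := TInc.ord_mul hF.dess γ₀ (div_ne_zero hb0 hπ₀.1) hπ₀.1
    rw [div_mul_cancel₀ _ hπ₀.1, TInc.ord_unif hF.dess hπ₀,
      TInc.ord_of_at hF.dess h2 one_ne_zero] at h4
    rw [h4, zero_add]
  refine ⟨b, ?_, hb0, h3, fun γ hγ hne => ?_⟩
  · refine TInc.transc_of_ne hF.dess fun a ha => ?_
    have h4 := TInc.ord_const hF.dess γ₀ a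
    rw [← ha, h3] at h4
    exact one_ne_zero h4
  · obtain ⟨π, hπ⟩ := Dess.exists_unif hF.dess γ
    have h4 := hb γ (Finset.mem_insert_of_mem (hS.mem_toFinset.2 hγ)) π hπ
    rw [if_neg hne] at h4
    have h5 := Place.Vanishes.mul' γ (Place.Vanishes.pow γ hπ.2.1 two_ne_zero) h4
    rw [div_mul_cancel₀ _ (pow_ne_zero 2 hπ.1)] at h5
    exact h5

end Pool.Agent.EFC
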