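import Pool.Agent.EFC.MoveSum

/-!
# A pencil on a curve
-/

set_option autoImplicit false

noncomputable section

namespace Pool.Agent.EFC

open Pool.Agent.ZCyc
open Pool.Agent.VFP (Om tt)

variable {k : Type} [Field k] [IsAlgClosed k] [CharZero k]

/-- If `f : Fin n → T` and `f' : Fin n → T` take every value the same number of times, then
`f' = f ∘ π` for a permutation. -/
theorem exists_perm_of_card {T : Type*} {n : ℕ} (f f' : Fin n → T)
    (h : ∀ t, {j | f j = t}.ncard = {j | f' j = t}.ncard) :
    ∃ π : Equiv.Perm (Fin n), f' = f ∘ π := by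
  have h1 : ∀ t, Nonempty ({j // f' j = t} ≃ {j // f j = t}) := by
    intro t
    exact Finite.card_eq.1 (h t).symm
  refine ⟨(Equiv.sigmaFiberEquiv f').symm.trans
    ((Equiv.sigmaCongrRight fun t => (h1 t).some).trans (Equiv.sigmaFiberEquiv f)), ?_⟩
  funext j
  exact ((h1 (f' j)).some ⟨j, rfl⟩).2.symm

open Classical in
/-- the combinatorial part of the pencil: marking of the points which move -/
private theorem Pencil_mark {T U : Type*} {n : ℕ} (c : Fin n → T) (P : T → ℕ) (E : Finset U)
    (hP : ∀ t, P t ≤ (Finset.univ.filter fun j => c j = t).card)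
    (hE : E.card = ∑ t ∈ Finset.univ.image c, P t) :
    ∃ S : Fin n → U ⊕ T, (∀ σ ∈ E, ∃ j, S j = .inl σ) ∧
      ∀ γ : U → T, (∀ t, (E.filter fun σ => γ σ = t).card = P t) →
        ∃ π : Equiv.Perm (Fin n), ∀ j, (S j).elim γ id = c (π j) := by
  choose J hJ hJc using fun t => Finset.exists_subset_card_eq (hP t)
  let J' : Finset (Fin n) := Finset.univ.filter fun j => j ∈ J (c j)
  have hJ'f : ∀ t, (J'.filter fun j => c j = t) = J t := by
    intro t
    ext j
    simp only [J', Finset.mem_filter, Finset.mem_univ, true_and]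
    constructor
    · rintro ⟨h1, rfl⟩
      exact h1
    · intro h1
      have h2 : c j = t := (Finset.mem_filter.1 (hJ t h1)).2
      exact ⟨by rw [h2]; exact h1, h2⟩
  have hJ'c : J'.card = E.card := by
    rw [hE, Finset.card_eq_sum_card_fiberwise (f := c) (t := Finset.univ.image c)
      fun j _ => Finset.mem_image_of_mem c (Finset.mem_univ j)]
    refine Finset.sum_congr rfl fun t _ => ?_
    rw [hJ'f, hJc]
  let eq := Finset.equivOfCardEq hJ'c
  refine ⟨fun j => if h : j ∈ J' then .inl (eq ⟨j, h⟩ : U) else .inr (c j), ?_, ?_⟩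
  · intro σ hσ
    refine ⟨(eq.symm ⟨σ, hσ⟩ : Fin n), ?_⟩
    refine (dif_pos (eq.symm ⟨σ, hσ⟩).2).trans ?_
    simp
  · intro γ hγ
    let f' : Fin n → T := fun j => (if h : j ∈ J' then (.inl (eq ⟨j, h⟩ : U) : U ⊕ T)
      else .inr (c j)).elim γ id
    have hf1 : ∀ j : J', f' j = γ (eq j) := by
      intro j
      simp [f']
    have hf2 : ∀ j, j ∉ J' → f' j = c j := by
      intro j hj
      simp [f', hj]
    have key : ∀ t, {j | c j = t}.ncard = {j | f' j = t}.ncard := by
      intro t
      have h1 : {j | c j = t} = (↑(Finset.univ.filter fun j => c j = t) : Set (Fin n)) := by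
        ext j
        simp
      have h2 : {j | f' j = t} = (↑(Finset.univ.filter fun j => f' j = t) : Set (Fin n)) := by
        ext j
        simp
      rw [h1, h2, Set.ncard_coe_finset, Set.ncard_coe_finset]
      have h3 : (Finset.univ.filter fun j => f' j = t).card =
          (J'.filter fun j => f' j = t).card + (J'ᶜ.filter fun j => f' j = t).card := by
        rw [← Finset.card_union_of_disjoint, ← Finset.filter_union, Finset.union_compl]
        exact (disjoint_compl_right).mono (Finset.filter_subset _ _) (Finset.filter_subset _ _)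
      have h4 : (J'.filter fun j => f' j = t).card = P t := by
        rw [← hγ t, Finset.card_filter, Finset.card_filter,
          ← Finset.sum_coe_sort J' fun j => if f' j = t then 1 else 0,
          ← Finset.sum_coe_sort E fun σ => if γ σ = t then 1 else 0, ← eq.sum_comp]
        exact Finset.sum_congr rfl fun j _ => by rw [hf1]
      have h5 : (J'ᶜ.filter fun j => f' j = t) =
          (Finset.univ.filter fun j => c j = t) \ J t := by
        ext j
        simp only [Finset.mem_filter, Finset.mem_compl, Finset.mem_sdiff, Finset.mem_univ,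
          true_and]
        constructor
        · rintro ⟨h6, h7⟩
          rw [hf2 j h6] at h7
          refine ⟨h7, fun h8 => h6 ?_⟩
          rw [← hJ'f t] at h8
          exact (Finset.mem_filter.1 h8).1
        · rintro ⟨h6, h7⟩
          have h8 : j ∉ J' := by
            intro h9
            apply h7
            rw [← hJ'f t]
            exact Finset.mem_filter.2 ⟨h9, h6⟩
          exact ⟨h8, by rw [hf2 j h8]; exact h6⟩
      rw [h3, h4, h5, Finset.card_sdiff_of_subset (hJ t), hJc]
      have := hP t
      omega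
    obtain ⟨π, hπ⟩ := exists_perm_of_card c f' key
    exact ⟨π, fun j => congrFun hπ j⟩

/-- The pencil. Let `D = ∑ c_j` be the divisor of `n = g + 1` points different from `o`. Riemann's
inequality gives a nonconstant `φ ∈ L(D)`, and we may assume `φ(o) = 1` (add a constant, `φ` is
regular at `o`). Let `E` be the set of the embeddings with `σ φ = τ`, `τ = (tt k)⁻¹`; their number is
the degree of the divisor of poles of `φ` (`TInc.card_emb`, `TInc.deg_poles'`), which is at most
`D`. So there is an `n`-tuple `S` of points of the curve over `Om k` which consists of the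
embeddings in `E` and of the constant points of `D - (poles of φ)`. At a place `v` with `tt k → 0` the
value of `S` is a permutation of the `c_j` (`sum_emb_pole` with values in functions on the set of
places, `exists_perm_of_card`). At a place `v` with `tt k → 1` one of the values is `o`
(`TInc.exists_emb_over`). -/
theorem exists_pencil {L : Type} [Field L] [Algebra k L] (hL : IsCurve k L)
    (hg : ∃ g, TInc.Riemann hL.dess g) (c : Fin (genus k L + 1) → Place k L) (o : Place k L)
    (ho : ∀ j, c j ≠ o) : ∃ S : Fin (genus k L + 1) → (L →ₐ[k] Om k) ⊕ Place k L,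
      (∀ v : Place k (Om k), v.At (tt k) 0 → ∃ π : Equiv.Perm (Fin (genus k L + 1)),
        ∀ j, BaseValue v (S j) (c (π j))) ∧
      ∀ v : Place k (Om k), v.At (tt k) 1 → ∃ j, BaseValue v (S j) o := by
  classical
  have hR := riemann_genus hL hg
  let D : Place k L →₀ ℤ := ∑ j, Finsupp.single (c j) 1
  have hDv : ∀ t, D t = ((Finset.univ.filter fun j => c j = t).card : ℤ) := by
    intro t
    rw [Finsupp.finsetSum_apply, Finset.card_filter]
    push_cast
    exact Finset.sum_congr rfl fun j _ => Finsupp.single_apply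
  have hD0 : ∀ t, 0 ≤ D t := fun t => by
    rw [hDv]
    positivity
  have hDo : D o = 0 := by
    rw [hDv, Nat.cast_eq_zero, Finset.card_eq_zero, Finset.filter_eq_empty_iff]
    exact fun j _ => ho j
  have hdeg : TInc.deg D = genus k L + 1 := by
    have h1 : TInc.deg D = ∑ j, TInc.deg (Finsupp.single (c j) 1) := by
      have h2 : ∀ A B : Place k L →₀ ℤ, TInc.deg (A + B) = TInc.deg A + TInc.deg B :=
        fun A B => Finsupp.sum_add_index' (fun _ => rfl) fun _ _ _ => rfl
      have h3 : ∀ s : Finset (Fin (genus k L + 1)), TInc.deg (∑ j ∈ s, Finsupp.single (c j) 1) =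
          ∑ j ∈ s, TInc.deg (Finsupp.single (c j) 1) := by
        intro s
        induction s using Finset.induction_on with
        | empty => rfl
        | insert a s ha ih => rw [Finset.sum_insert ha, Finset.sum_insert ha, h2, ih]
      exact h3 _
    have h4 : ∀ t : Place k L, TInc.deg (Finsupp.single t 1) = 1 := fun t =>
      Finsupp.sum_single_index rfl
    rw [h1, Finset.sum_congr rfl fun j _ => h4 (c j)]
    simp
  obtain ⟨hfd, hdim⟩ := hR D
  rw [hdeg] at hdim
  have hdim2 : 2 ≤ Module.finrank k (TInc.LD hL.dess D) := by omega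
  -- constants are in L(D)
  have hconst : ∀ a : k, algebraMap k L a ∈ TInc.LD hL.dess D := by
    intro a h v
    rw [TInc.ord_const hL.dess, zero_add]
    exact hD0 v
  -- a nonconstant function
  obtain ⟨φ₀, hφ₀, hφ₀c⟩ : ∃ φ ∈ TInc.LD hL.dess D, ∀ a : k, φ ≠ algebraMap k L a := by
    by_contra hcon
    push Not at hcon
    have h1 : TInc.LD hL.dess D ≤ Submodule.span k {(1 : L)} := by
      intro f hf
      obtain ⟨a, ha⟩ := hcon f hf
      rw [ha, Algebra.algebraMap_eq_smul_one]
      exact Submodule.smul_mem _ _ (Submodule.mem_span_singleton_self _)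
    have h2 := Submodule.finrank_mono h1
    have h3 := finrank_span_le_card (R := k) ({(1 : L)} : Set L)
    simp only [Set.toFinset_singleton, Finset.card_singleton] at h3
    omega
  have hφ₀0 : φ₀ ≠ 0 := fun h => hφ₀c 0 (by rw [h, map_zero])
  have hφ₀o : φ₀ ∈ o.ring := by
    rw [TInc.mem_iff_ord hL.dess hφ₀0]
    have := hφ₀ hφ₀0 o
    rwa [hDo, add_zero] at this
  obtain ⟨a, ha⟩ := Dess.exists_at hL.dess o hφ₀o
  let φ : L := φ₀ - algebraMap k L (a - 1)
  have hφD : φ ∈ TInc.LD hL.dess D := Submodule.sub_mem _ hφ₀ (hconst _)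
  have hφc : ∀ b : k, φ ≠ algebraMap k L b := by
    intro b h
    apply hφ₀c (b + (a - 1))
    rw [map_add, ← h]
    simp [φ]
  have hφ : Transcendental k φ := TInc.transc_of_ne hL.dess hφc
  have hφ0 : φ ≠ 0 := fun h => hφc 0 (by rw [h, map_zero])
  have hφo : o.At φ 1 := by
    have := ha.sub (Place.at_const (v := o) (a - 1))
    rwa [sub_sub_cancel] at this
  have hτ : Transcendental k (tt k)⁻¹ := fun h => VFP.tt_transc (k := k) (by simpa using h.inv)
  obtain ⟨E, hE⟩ := exists_E hL hφ hτ
  obtain ⟨T, hT⟩ := exists_T_pole hL φ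
  let P : Place k L → ℕ := fun t => (-TInc.ord t φ).toNat
  have hPT : ∀ t ∈ T, (P t : ℤ) = -TInc.ord t φ := by
    intro t ht
    have h1 := (hT t).1 ht
    rw [TInc.mem_iff_ord hL.dess hφ0] at h1
    exact Int.toNat_of_nonneg (by omega)
  have hPn : ∀ t, t ∉ T → P t = 0 := by
    intro t ht
    have h1 : φ ∈ t.ring := by
      by_contra h
      exact ht ((hT t).2 h)
    rw [TInc.mem_iff_ord hL.dess hφ0] at h1
    exact Int.toNat_of_nonpos (by omega)
  have hPD : ∀ t, P t ≤ (Finset.univ.filter fun j => c j = t).card := by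
    intro t
    have h1 := hφD hφ0 t
    rw [hDv] at h1
    have h2 : -TInc.ord t φ ≤ ((Finset.univ.filter fun j => c j = t).card : ℤ) := by omega
    exact Int.toNat_le.2 h2
  have hEc : E.card = ∑ t ∈ T, P t := by
    have h1 := (TInc.card_emb hL.dess hφ hτ).2
    have h2 : {σ : L →ₐ[k] Om k | σ φ = (tt k)⁻¹} = (E : Set (L →ₐ[k] Om k)) := by
      ext σ
      exact (hE σ).symm
    rw [h2, Set.ncard_coe_finset] at h1
    have h3 := TInc.deg_poles' hL.dess hφ T hT
    have h4 : ((∑ t ∈ T, P t : ℕ) : ℤ) = ∑ t ∈ T, -TInc.ord t φ := by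
      push_cast
      exact Finset.sum_congr rfl hPT
    have h5 : (E.card : ℤ) = ((∑ t ∈ T, P t : ℕ) : ℤ) := by rw [h4, h3, h1]
    exact_mod_cast h5
  have hTsub : T ⊆ Finset.univ.image c := by
    intro t ht
    have h1 := (hT t).1 ht
    rw [TInc.mem_iff_ord hL.dess hφ0] at h1
    have h2 := hPT t ht
    have h3 := hPD t
    have h4 : 0 < (Finset.univ.filter fun j => c j = t).card := by omega
    obtain ⟨j, hj⟩ := Finset.card_pos.1 h4
    exact Finset.mem_image.2 ⟨j, Finset.mem_univ j, (Finset.mem_filter.1 hj).2⟩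
  have hEc' : E.card = ∑ t ∈ Finset.univ.image c, P t := by
    rw [hEc]
    exact Finset.sum_subset hTsub fun t _ ht => hPn t ht
  obtain ⟨S, hS1, hS2⟩ := Pencil_mark c P E hPD hEc'
  refine ⟨S, fun v hv => ?_, fun v hv => ?_⟩
  · have hτv : (tt k)⁻¹ ∉ v.ring := by
      intro h
      rcases (v.vanishes_iff_or (tt k)).1 (Place.at_zero_iff.1 hv) with h1 | h1
      · apply VFP.tt_transc (k := k)
        rw [h1]
        exact isAlgebraic_zero
      · exact h1 h
    choose γ hγ using fun σ : L →ₐ[k] Om k => TInc.exists_below hL.dess v σ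
    obtain ⟨π, hπ⟩ := hS2 γ fun t => by
      have h1 : (E.filter fun σ => γ σ = t).card = {σ : L →ₐ[k] Om k | σ φ = (tt k)⁻¹ ∧
          v.ring.comap (σ : L →+* Om k) = t.ring}.ncard := by
        rw [← Set.ncard_coe_finset]
        congr 1
        ext σ
        simp only [Finset.coe_filter, Set.mem_ofPred_eq]
        rw [hE σ, hγ σ]
        refine and_congr_right fun _ => ⟨fun h => by rw [h], fun h => Place.ext h⟩
      by_cases ht : t ∈ T
      · have h2 := TInc.card_over_pole hL.dess hφ hτ hτv ((hT t).1 ht)
        have h3 := hPT t ht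
        rw [← h2] at h3
        rw [h1]
        exact_mod_cast h3.symm
      · rw [hPn t ht, Finset.card_eq_zero, Finset.filter_eq_empty_iff]
        intro σ hσ h2
        have h3 : φ ∈ t.ring := by
          by_contra h
          exact ht ((hT t).2 h)
        rw [← h2, ← hγ σ, ValuationSubring.mem_comap] at h3
        have h4 : (σ : L →+* Om k) φ = (tt k)⁻¹ := (hE σ).1 hσ
        rw [h4] at h3
        exact hτv h3
    refine ⟨π, fun j => ?_⟩
    rw [← hπ j]
    cases S j with
    | inl σ => exact (hγ σ).symm
    | inr c' => rfl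
  · have hτ1 : v.At (tt k)⁻¹ 1 := by
      have := hv.inv one_ne_zero
      rwa [inv_one] at this
    obtain ⟨σ, hσ, hσv⟩ := TInc.exists_emb_over hL.dess hφ hτ hτ1 hφo
    obtain ⟨j, hj⟩ := hS1 σ ((hE σ).2 hσ)
    refine ⟨j, ?_⟩
    rw [hj]
    exact hσv.symm

end Pool.Agent.EFC
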