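import Pool.Agent.EFC.Value
import Pool.Agent.TInc.Defs

/-!
# Points of the variety given by points of the elliptic curves
-/

set_option autoImplicit false

noncomputable section

namespace Pool.Agent.EFC

open Pool.Agent.ZCyc Pool.Agent.TInf
open Pool.Agent.VFP (Om tt)

variable {k : Type} [Field k] (X : EC k)

/-- the cubics `y ² = x ³ - 3 α_i x + B_i` -/
def EC.cub : TInc.Cub k X.L X.N where
  α i := algebraMap k X.L (-3⁻¹) * X.A i
  B := X.B
  D := X.D

/-- half of the sum of the divisors of a block -/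
def EC.M (b : Fin X.r) : Place k X.L →₀ ℤ :=
  (∑ i with X.blk i = b, X.D i).mapRange (fun n => n / 2) rfl

/-- the good places: all coefficients and discriminants are units, `D_i(c) = 0` -/
def EC.U : Set (Place k X.L) := {c | X.cub.Good c}

/-- the places where the cubic with the index `i` is singular -/
def EC.Z (i : Fin X.N) : Set (Place k X.L) := {c | 4 * X.coA c i ^ 3 + 27 * X.coB c i ^ 2 = 0}

variable {X}

theorem scl_M {K : Type} [Field K] (l : Place k X.L → Kˣ) (b : Fin X.r) :
    TInc.scl l (X.M b) ^ 2 = ∏ i with X.blk i = b, TInc.scl l (X.D i) := by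
  classical
  have hadd : ∀ D D' : Place k X.L →₀ ℤ,
      TInc.scl l (D + D') = TInc.scl l D * TInc.scl l D' := by
    intro D D'
    unfold TInc.scl
    refine Finsupp.prod_add_index' (fun q => ?_) (fun q m n => ?_)
    · rw [zpow_zero, Units.val_one]
    · rw [zpow_add, Units.val_mul]
  have h0 : TInc.scl l (0 : Place k X.L →₀ ℤ) = 1 := by
    unfold TInc.scl
    exact Finsupp.prod_zero_index
  have hsum : ∀ s : Finset (Fin X.N),
      TInc.scl l (∑ i ∈ s, X.D i) = ∏ i ∈ s, TInc.scl l (X.D i) := by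
    intro s
    induction s using Finset.induction_on with
    | empty => rw [Finset.sum_empty, Finset.prod_empty, h0]
    | insert a s ha ih => rw [Finset.sum_insert ha, Finset.prod_insert ha, hadd, ih]
  rw [← hsum, sq, ← hadd]
  congr 1
  ext q
  have he := X.even b q
  have h1 : X.M b q = ((∑ i with X.blk i = b, X.D i) q) / 2 := rfl
  rw [Finsupp.add_apply, h1, Finsupp.finsetSum_apply]
  obtain ⟨m, hm⟩ := he
  rw [hm]
  omega

private theorem scl_ne {K : Type} [Field K] (l : Place k X.L → Kˣ) (D : Place k X.L →₀ ℤ) :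
    TInc.scl l D ≠ 0 := by
  unfold TInc.scl Finsupp.prod
  exact Finset.prod_ne_zero_iff.2 fun q _ => Units.ne_zero _

/-- The point over `s` (a place with scalings) given by the points `p i` of the elliptic curves. -/
def pt (s : X.U × (Place k X.L → kˣ)) (p : Fin X.N → EPt k) : Crd X where
  c := s.1.1
  x i := (p i).elim 1 fun q => q.1 / TInc.scl s.2 (X.D i)
  z i := (p i).elim 0 fun _ => 1
  y b := (∏ i with X.blk i = b, (p i).elim 0 Prod.snd) / TInc.scl s.2 (X.M b) ^ 3

/-- The point over `s` given by the points `p i` of the elliptic curves over `Om k`. -/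
def ptO (s : ((X.L →ₐ[k] Om k) ⊕ X.U) × (Place k X.L → (Om k)ˣ))
    (p : Fin X.N → EPt (Om k)) : CrdO X where
  s := s.1.map id Subtype.val
  x i := (p i).elim 1 fun q => q.1 / TInc.scl s.2 (X.D i)
  z i := (p i).elim 0 fun _ => 1
  y b := (∏ i with X.blk i = b, (p i).elim 0 Prod.snd) / TInc.scl s.2 (X.M b) ^ 3

private theorem fac_pt {K : Type} [Field K] {a b α B l : K} (hl : l ≠ 0)
    (ha : a = -(3 * α)) (hb : b = B) {p : EPt K} (h : EOn (l ^ 2 * α) (l ^ 3 * B) p) :
    fac a b (p.elim 1 fun q => q.1 / l) (p.elim 0 fun _ => 1) = (p.elim 0 Prod.snd) ^ 2 / l ^ 3 := by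
  rcases p with _ | ⟨x, y⟩
  · show (0 : K) * _ = (0 : K) ^ 2 / l ^ 3
    rw [zero_mul, zero_pow two_ne_zero, zero_div]
  · have h' : y ^ 2 = x ^ 3 - 3 * (l ^ 2 * α) * x + l ^ 3 * B := h
    show (1 : K) * ((x / l) ^ 3 + a * (x / l) * 1 ^ 2 + b * 1 ^ 3) = y ^ 2 / l ^ 3
    rw [h', ha, hb]
    field_simp
    ring

private theorem prod_fac {K : Type} [Field K] (l : Place k X.L → Kˣ) {a b α B : Fin X.N → K}
    (ha : ∀ i, a i = -(3 * α i)) (hb : ∀ i, b i = B i) {p : Fin X.N → EPt K}
    (h : ∀ i, EOn (TInc.scl l (X.D i) ^ 2 * α i) (TInc.scl l (X.D i) ^ 3 * B i) (p i))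
    (c : Fin X.r) :
    ((∏ i with X.blk i = c, (p i).elim 0 Prod.snd) / TInc.scl l (X.M c) ^ 3) ^ 2 =
      ∏ i with X.blk i = c, fac (a i) (b i) ((p i).elim 1 fun q => q.1 / TInc.scl l (X.D i))
        ((p i).elim 0 fun _ => 1) := by
  rw [Finset.prod_congr rfl fun i _ => fac_pt (scl_ne l (X.D i)) (ha i) (hb i) (h i),
    Finset.prod_div_distrib, Finset.prod_pow, Finset.prod_pow, ← scl_M l c, div_pow]
  ring

private theorem pt_ne {K : Type} [Field K] (p : EPt K) (l : K) :
    (p.elim 1 fun q => q.1 / l) ≠ 0 ∨ (p.elim (0 : K) fun _ => 1) ≠ 0 := by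
  rcases p with _ | q
  · exact Or.inl one_ne_zero
  · exact Or.inr one_ne_zero

section

variable [IsAlgClosed k] [CharZero k]

omit [IsAlgClosed k] in
private theorem A_mem (c : X.U) (i : Fin X.N) : X.A i ∈ c.1.ring := by
  have h : X.cub.α i ∈ c.1.ring := (c.2 i).1.1
  have h3 : X.A i = algebraMap k X.L (-3) * X.cub.α i := by
    show X.A i = algebraMap k X.L (-3) * (algebraMap k X.L (-3⁻¹) * X.A i)
    rw [← mul_assoc, ← map_mul, neg_mul_neg, mul_inv_cancel₀ (three_ne_zero : (3 : k) ≠ 0),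
      map_one, one_mul]
  rw [h3]
  exact c.1.ring.mul_mem _ _ (c.1.const_mem _) h

theorem coA_U (c : X.U) (i : Fin X.N) : X.coA c.1 i = -(3 * val c.1 (X.cub.α i)) := by
  have hD : X.D i c.1 = 0 := (c.2 i).2.2.2
  have h1 : X.coA c.1 i = val c.1 (X.A i) := by
    unfold EC.coA
    rw [hD, mul_zero, zpow_zero, mul_one]
  have h2 : val c.1 (X.cub.α i) = -3⁻¹ * val c.1 (X.A i) :=
    val_eq ((Place.at_const (-3⁻¹)).mul (at_val X.curve (A_mem c i)))
  rw [h1, h2]
  have h3 : (3 : k) ≠ 0 := three_ne_zero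
  field_simp

theorem coB_U (c : X.U) (i : Fin X.N) : X.coB c.1 i = val c.1 (X.B i) := by
  have hD : X.D i c.1 = 0 := (c.2 i).2.2.2
  unfold EC.coB
  rw [hD, mul_zero, zpow_zero, mul_one]

/-- see `Pool.Agent.TInf.onX_pt` -/
theorem on_pt {s : X.U × (Place k X.L → kˣ)} {p : Fin X.N → EPt k}
    (h : ∀ i, EOn (TInc.scl s.2 (X.D i) ^ 2 * TInc.val s.1.1 (X.cub.α i))
      (TInc.scl s.2 (X.D i) ^ 3 * TInc.val s.1.1 (X.cub.B i)) (p i)) : (pt s p).On :=
  ⟨fun i => pt_ne (p i) _, fun b => prod_fac s.2 (fun i => coA_U s.1 i) (fun i => coB_U s.1 i) h b⟩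

theorem on_ptO {s : ((X.L →ₐ[k] Om k) ⊕ X.U) × (Place k X.L → (Om k)ˣ)}
    {p : Fin X.N → EPt (Om k)}
    (h : ∀ i, EOn (TInc.scl s.2 (X.D i) ^ 2 * TInc.evO s.1 (X.cub.α i))
      (TInc.scl s.2 (X.D i) ^ 3 * TInc.evO s.1 (X.cub.B i)) (p i)) : (ptO s p).On := by
  refine ⟨fun i => pt_ne (p i) _, fun b => ?_⟩
  have ha : ∀ i, X.coAO (ptO s p).s i = -(3 * TInc.evO s.1 (X.cub.α i)) := by
    intro i
    obtain ⟨S, l⟩ := s
    rcases S with σ | c
    · show σ (X.A i) = -(3 * σ (algebraMap k X.L (-3⁻¹) * X.A i))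
      rw [map_mul, AlgHom.commutes, map_neg, map_inv₀, map_ofNat]
      have h3 : (3 : Om k) ≠ 0 := by
        have h := (map_ne_zero (algebraMap k (Om k))).2 (three_ne_zero : (3 : k) ≠ 0)
        rwa [map_ofNat] at h
      field_simp
    · show algebraMap k (Om k) (X.coA c.1 i) =
        -(3 * algebraMap k (Om k) (TInc.val c.1 (X.cub.α i)))
      rw [coA_U c i, map_neg, map_mul, map_ofNat]
      rfl
  have hb : ∀ i, X.coBO (ptO s p).s i = TInc.evO s.1 (X.cub.B i) := by
    intro i
    obtain ⟨S, l⟩ := s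
    rcases S with σ | c
    · rfl
    · show algebraMap k (Om k) (X.coB c.1 i) = algebraMap k (Om k) (TInc.val c.1 (X.B i))
      rw [coB_U c i]
      rfl
  exact prod_fac s.2 ha hb h b

omit [IsAlgClosed k] [CharZero k] in
/-- change of the sign of one `y`-coordinate; see `Pool.Agent.TInf.pt_neg` -/
theorem pt_neg {s : X.U × (Place k X.L → kˣ)} {p : Fin X.N → EPt k} {i : Fin X.N} {x y : k}
    (h : p i = some (x, y)) : pt s (Function.update p i (some (x, -y))) =
      (pt s p).sg (Function.update 1 (X.blk i) (-1)) := by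
  refine Crd.ext rfl ?_ ?_ ?_
  · funext j
    show (Function.update p i (some (x, -y)) j).elim 1 (fun q => q.1 / TInc.scl s.2 (X.D j)) =
      (p j).elim 1 (fun q => q.1 / TInc.scl s.2 (X.D j))
    by_cases hj : j = i
    · subst hj
      rw [Function.update_self, h]
      rfl
    · rw [Function.update_of_ne hj]
  · funext j
    show (Function.update p i (some (x, -y)) j).elim 0 (fun _ => 1) = (p j).elim 0 (fun _ => 1)
    by_cases hj : j = i
    · subst hj
      rw [Function.update_self, h]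
      rfl
    · rw [Function.update_of_ne hj]
  · funext b
    show (∏ j with X.blk j = b, (Function.update p i (some (x, -y)) j).elim 0 Prod.snd) /
      TInc.scl s.2 (X.M b) ^ 3 =
      (((Function.update (1 : Fin X.r → ℤˣ) (X.blk i) (-1) b : ℤˣ) : ℤ) : k) *
        ((∏ j with X.blk j = b, (p j).elim 0 Prod.snd) / TInc.scl s.2 (X.M b) ^ 3)
    rw [← mul_div_assoc]
    congr 1
    by_cases hb : b = X.blk i
    · subst hb
      have hi : i ∈ Finset.univ.filter fun j => X.blk j = X.blk i := by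
        rw [Finset.mem_filter]
        exact ⟨Finset.mem_univ i, rfl⟩
      rw [Function.update_self, ← Finset.mul_prod_erase _ _ hi, ← Finset.mul_prod_erase _ _ hi,
        Function.update_self, h]
      have e : ∏ j ∈ (Finset.univ.filter fun j => X.blk j = X.blk i).erase i,
          (Function.update p i (some (x, -y)) j).elim 0 Prod.snd =
          ∏ j ∈ (Finset.univ.filter fun j => X.blk j = X.blk i).erase i,
            (p j).elim 0 Prod.snd := by
        refine Finset.prod_congr rfl fun j hj => ?_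
        rw [Function.update_of_ne (Finset.ne_of_mem_erase hj)]
      rw [e]
      show -y * _ = _ * (y * _)
      push_cast
      ring
    · rw [Function.update_of_ne hb]
      have e : ∏ j with X.blk j = b, (Function.update p i (some (x, -y)) j).elim 0 Prod.snd =
          ∏ j with X.blk j = b, (p j).elim 0 Prod.snd := by
        refine Finset.prod_congr rfl fun j hj => ?_
        have hne : j ≠ i := by
          rintro rfl
          exact hb (Finset.mem_filter.1 hj).2.symm
        rw [Function.update_of_ne hne]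
      rw [e]
      simp

omit [IsAlgClosed k] [CharZero k] in
theorem pt_inf {s : X.U × (Place k X.L → kˣ)} {p : Fin X.N → EPt k} {i : Fin X.N}
    (h : p i = none) : (pt s p).y (X.blk i) = 0 := by
  have h1 : ∏ j with X.blk j = X.blk i, (p j).elim 0 Prod.snd = 0 := by
    refine Finset.prod_eq_zero (i := i) (by simp) ?_
    rw [h]
    rfl
  show (∏ j with X.blk j = X.blk i, (p j).elim 0 Prod.snd) / TInc.scl s.2 (X.M (X.blk i)) ^ 3 = 0
  rw [h1, zero_div]

end

end Pool.Agent.EFC
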