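import Pool.Agent.EFC.PtMap

/-!
# Values of the points given by points of the elliptic curves
-/

set_option autoImplicit false

noncomputable section

namespace Pool.Agent.EFC

open Pool.Agent.ZCyc Pool.Agent.TInf
open Pool.Agent.VFP (Om tt)

variable {k : Type} [Field k] [IsAlgClosed k] [CharZero k] {X : EC k}

omit [IsAlgClosed k] [CharZero k] in
private theorem PtVal_D (c : X.U) (i : Fin X.N) : X.D i c.1 = 0 := (c.2 i).2.2.2

omit [IsAlgClosed k] [CharZero k] in
private theorem PtVal_base {v : Place k (Om k)} {S : (X.L →ₐ[k] Om k) ⊕ X.U} {c : Place k X.L}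
    (h : TInc.Over v S c) : BaseValue v (S.map id Subtype.val) c := by
  rcases S with σ | c'
  · exact Eq.symm h
  · exact h

omit [IsAlgClosed k] [CharZero k] in
private theorem PtVal_scl {K : Type} [Field K] (l : Place k X.L → Kˣ) (D : Place k X.L →₀ ℤ) :
    TInc.scl l D ≠ 0 := by
  unfold TInc.scl Finsupp.prod
  exact Finset.prod_ne_zero_iff.2 fun q _ => Units.ne_zero _

omit [IsAlgClosed k] [CharZero k] in
private theorem PtVal_three (v : Place k (Om k)) : v.At (3 : Om k) (3 : k) := by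
  have h := Place.at_const (v := v) (3 : k)
  rwa [map_ofNat] at h

/-- see `Pool.Agent.TInf.isValue_pt`; note that `X.D i c = 0` for `c ∈ X.U` -/
theorem isValue_pt {v : Place k (Om k)}
    {S : ((X.L →ₐ[k] Om k) ⊕ X.U) × (Place k X.L → (Om k)ˣ)} {s : X.U × (Place k X.L → kˣ)}
    (h1 : TInc.Over v S.1 s.1.1) (h2 : ∀ q, v.At (S.2 q : Om k) (s.2 q : k))
    {P : Fin X.N → EPt (Om k)} {p : Fin X.N → EPt k}
    (hP : ∀ i, EOn (TInc.scl S.2 (X.D i) ^ 2 * TInc.evO S.1 (X.cub.α i))
      (TInc.scl S.2 (X.D i) ^ 3 * TInc.evO S.1 (X.cub.B i)) (P i))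
    (h : ∀ i, EVal v (P i) (p i)) : X.IsValue v (ptO S P) (pt s p) := by
  have hS : ∀ D : Place k X.L →₀ ℤ, TInc.scl S.2 D ≠ 0 := PtVal_scl _
  have hs : ∀ D : Place k X.L →₀ ℤ, TInc.scl s.2 D ≠ 0 := PtVal_scl _
  have hsc : ∀ D : Place k X.L →₀ ℤ, v.At (TInc.scl S.2 D) (TInc.scl s.2 D) := TInc.at_scl h2
  have hα : ∀ i, v.At (TInc.scl S.2 (X.D i) ^ 2 * TInc.evO S.1 (X.cub.α i))
      (TInc.scl s.2 (X.D i) ^ 2 * TInc.val s.1.1 (X.cub.α i)) := fun i =>
    ((hsc _).pow 2).mul (TInc.over_at X.curve.dess h1 (s.1.2 i).1.1)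
  have hB : ∀ i, v.At (TInc.scl S.2 (X.D i) ^ 3 * TInc.evO S.1 (X.cub.B i))
      (TInc.scl s.2 (X.D i) ^ 3 * TInc.val s.1.1 (X.cub.B i)) := fun i =>
    ((hsc _).pow 3).mul (TInc.over_at X.curve.dess h1 (s.1.2 i).2.1.1)
  have hone : v.At (1 : Om k) 1 := by simpa using Place.at_const (v := v) (1 : k)
  have hzero : v.At (0 : Om k) 0 := by simpa using Place.at_const (v := v) (0 : k)
  have h3 : ∀ i, ∃ m : Om k,
      v.At (m * (ptO S P : CrdO X).x i) ((pt s p : Crd X).x i) ∧
      v.At (m * (ptO S P : CrdO X).z i) ((pt s p : Crd X).z i) ∧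
      v.At (m ^ 2 * (P i).elim 0 Prod.snd) ((p i).elim 0 Prod.snd) := by
    intro i
    have hi := h i
    have hPi := hP i
    simp only [ptO, pt]
    rcases hq : P i with _ | ⟨x, y⟩
    · rw [hq] at hi
      rcases hq' : p i with _ | ⟨x', y'⟩
      · refine ⟨1, ?_, ?_, ?_⟩
        · simpa using hone
        · simpa using hzero
        · simpa using hzero
      · rw [hq'] at hi
        exact hi.elim
    · rw [hq] at hi hPi
      rcases hq' : p i with _ | ⟨x', y'⟩
      · rw [hq'] at hi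
        have hX : x ∉ v.ring := hi
        have hX0 : x ≠ 0 := by
          rintro rfl
          exact hX (zero_mem _)
        have hinv : v.At x⁻¹ 0 := by
          rw [Place.at_zero_iff, v.vanishes_iff_or]
          right
          rwa [inv_inv]
        have hE : y ^ 2 = x ^ 3 - 3 * (TInc.scl S.2 (X.D i) ^ 2 * TInc.evO S.1 (X.cub.α i)) * x +
            TInc.scl S.2 (X.D i) ^ 3 * TInc.evO S.1 (X.cub.B i) := hPi
        refine ⟨TInc.scl S.2 (X.D i) * x⁻¹, ?_, ?_, ?_⟩
        · have e : TInc.scl S.2 (X.D i) * x⁻¹ * (x / TInc.scl S.2 (X.D i)) = 1 := by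
            have := hS (X.D i)
            field_simp
          simp only [Option.elim_some, Option.elim_none]
          rw [e]
          exact hone
        · have h4 := (hsc (X.D i)).mul hinv
          simp only [Option.elim_some, Option.elim_none]
          rw [mul_zero] at h4
          rwa [mul_one]
        · have h5 : v.At (x⁻¹ ^ 2 * y) 0 := by
            rw [Place.at_zero_iff]
            apply Place.vanishes_of_pow v (n := 2)
            have e : (x⁻¹ ^ 2 * y) ^ 2 = x⁻¹ * (1 - 3 * (TInc.scl S.2 (X.D i) ^ 2 *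
                TInc.evO S.1 (X.cub.α i)) * x⁻¹ ^ 2 + TInc.scl S.2 (X.D i) ^ 3 *
                TInc.evO S.1 (X.cub.B i) * x⁻¹ ^ 3) := by
              rw [mul_pow, hE]
              field_simp
            rw [e, ← Place.at_zero_iff]
            have h6 := hinv.mul ((hone.sub (((PtVal_three v).mul (hα i)).mul (hinv.pow 2))).add
              ((hB i).mul (hinv.pow 3)))
            rwa [zero_mul] at h6
          have h6 := ((hsc (X.D i)).pow 2).mul h5
          rw [mul_zero] at h6
          have e : (TInc.scl S.2 (X.D i) * x⁻¹) ^ 2 * y =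
              TInc.scl S.2 (X.D i) ^ 2 * (x⁻¹ ^ 2 * y) := by ring
          simp only [Option.elim_some, Option.elim_none]
          rw [e]
          exact h6
      · rw [hq'] at hi
        obtain ⟨hx, hy⟩ := hi
        refine ⟨1, ?_, ?_, ?_⟩
        · simp only [Option.elim_some, one_mul]
          exact hx.div (hsc _) (hs _)
        · simpa using hone
        · simpa using hy
  choose m hmx hmz hmy using h3
  refine ⟨PtVal_base h1, m, fun i => ?_, fun i => hmz i, fun b => ?_⟩
  · change v.Vanishes (m i * unifO _ s.1.1 ^ X.D i s.1.1 * (ptO S P : CrdO X).x i -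
      algebraMap k (Om k) ((pt s p : Crd X).x i))
    rw [PtVal_D, zpow_zero, mul_one]
    exact hmx i
  · change v.Vanishes ((∏ i with X.blk i = b, m i) ^ 2 *
      unifO _ s.1.1 ^ (3 * ((∑ i with X.blk i = b, X.D i s.1.1) / 2)) *
        ((∏ i with X.blk i = b, (P i).elim 0 Prod.snd) / TInc.scl S.2 (X.M b) ^ 3) -
      algebraMap k (Om k) ((∏ i with X.blk i = b, (p i).elim 0 Prod.snd) /
        TInc.scl s.2 (X.M b) ^ 3))
    have e0 : ∑ i with X.blk i = b, X.D i s.1.1 = 0 := Finset.sum_eq_zero fun i _ => PtVal_D _ _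
    have e1 : (∏ i with X.blk i = b, m i) ^ 2 *
        unifO (ptO S P : CrdO X).s s.1.1 ^ (3 * ((∑ i with X.blk i = b, X.D i s.1.1) / 2)) *
        ((∏ i with X.blk i = b, (P i).elim 0 Prod.snd) / TInc.scl S.2 (X.M b) ^ 3) =
        (∏ i with X.blk i = b, (m i ^ 2 * (P i).elim 0 Prod.snd)) / TInc.scl S.2 (X.M b) ^ 3 := by
      rw [e0, Finset.prod_mul_distrib, Finset.prod_pow]
      simp only [Int.zero_ediv, mul_zero, zpow_zero, mul_one]
      ring
    have e2 := (Place.At.prod (s := Finset.univ.filter fun i => X.blk i = b) fun i _ =>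
      hmy i).div ((hsc (X.M b)).pow 3) (pow_ne_zero 3 (hs _))
    rw [e1]
    exact e2

/-- If the point `P i` tends to infinity, over a good place and with scalings which tend to units,
then the value has `y_b = 0` for the block `b` of `i` (`isValue_z`, `y_eq_zero`). -/
theorem y_of_pole {v : Place k (Om k)}
    {S : ((X.L →ₐ[k] Om k) ⊕ X.U) × (Place k X.L → (Om k)ˣ)} {s : X.U × (Place k X.L → kˣ)}
    (h1 : TInc.Over v S.1 s.1.1) (h2 : ∀ q, v.At (S.2 q : Om k) (s.2 q : k))
    {P : Fin X.N → EPt (Om k)} {i : Fin X.N} (hi : EVal v (P i) none) {q : Crd X} (hq : q.On)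
    (hv : X.IsValue v (ptO S P) q) : q.y (X.blk i) = 0 := by
  have hc : q.c = s.1.1 := isValue_c hv (PtVal_base h1)
  refine y_eq_zero hq (isValue_z hv ?_)
  rw [hc, PtVal_D, zpow_zero, one_mul]
  rcases hP : P i with _ | ⟨x, y⟩
  · left
    simp [ptO, hP]
  · right
    rw [hP] at hi
    have hx : x ∉ v.ring := hi
    intro h3
    apply hx
    have h4 : x / TInc.scl S.2 (X.D i) ∈ v.ring := by
      simpa [ptO, hP] using h3
    have h5 := mul_mem h4 (TInc.at_scl h2 (X.D i)).mem
    rwa [div_mul_cancel₀ _ (PtVal_scl _ _)] at h5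

/-- every point over a good place with all `z_i ≠ 0` is, up to change of homogeneous coordinates, a
point `pt` with trivial scalings; see `Pool.Agent.TInf.exists_pt` (the blocks are not empty because
of `X.pos`) -/
theorem exists_pt {w : Crd X} (hw : w.On) (hU : w.c ∈ X.U) (hz : ∀ i, w.z i ≠ 0) :
    ∃ (m : Fin X.N → k) (p : Fin X.N → EPt k), (∀ i, m i ≠ 0) ∧
      (∀ i, EOn (TInc.val w.c (X.cub.α i)) (TInc.val w.c (X.cub.B i)) (p i)) ∧
      w = (pt (⟨w.c, hU⟩, fun _ => 1) p).scale m := by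
  classical
  -- the affine coordinates
  have h1 : ∀ i, ∃ Y : k, Y ^ 2 = (w.x i / w.z i) ^ 3 -
      3 * TInc.val w.c (X.cub.α i) * (w.x i / w.z i) + TInc.val w.c (X.cub.B i) := fun i =>
    IsAlgClosed.exists_pow_nat_eq _ two_pos
  choose Y hY using h1
  have hfac : ∀ i, fac (X.coA w.c i) (X.coB w.c i) (w.x i) (w.z i) = (w.z i ^ 2 * Y i) ^ 2 := by
    intro i
    have hA := coA_U (X := X) ⟨w.c, hU⟩ i
    have hB := coB_U (X := X) ⟨w.c, hU⟩ i
    have hB' : val w.c (X.B i) = TInc.val w.c (X.cub.B i) := rfl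
    have hA' : val w.c (X.cub.α i) = TInc.val w.c (X.cub.α i) := rfl
    simp only at hA hB
    rw [hA, hB, mul_pow, hY i, hB', hA']
    have := hz i
    unfold fac
    field_simp
    ring
  have hsq : ∀ b, w.y b = (∏ i with X.blk i = b, w.z i ^ 2 * Y i) ∨
      w.y b = -(∏ i with X.blk i = b, w.z i ^ 2 * Y i) := by
    intro b
    rw [← sq_eq_sq_iff_eq_or_eq_neg, hw.2 b, ← Finset.prod_pow]
    exact Finset.prod_congr rfl fun i _ => hfac i
  have hε : ∀ b, ∃ ε : k, ε ^ 2 = 1 ∧ w.y b = ε * ∏ i with X.blk i = b, w.z i ^ 2 * Y i := by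
    intro b
    rcases hsq b with h | h
    · exact ⟨1, one_pow 2, by rw [h, one_mul]⟩
    · exact ⟨-1, by norm_num, by rw [h, neg_one_mul]⟩
  choose ε hε1 hε2 using hε
  have hne : ∀ b, ∃ i, X.blk i = b := by
    intro b
    by_contra hcon
    push Not at hcon
    have h3 := X.pos b
    rw [Finset.filter_false_of_mem (fun i _ => hcon i), Finset.sum_empty] at h3
    exact lt_irrefl 0 h3
  choose ib hib using hne
  let Z : Fin X.N → k := fun i => (if i = ib (X.blk i) then ε (X.blk i) else 1) * Y i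
  have hZ : ∀ i, Z i ^ 2 = Y i ^ 2 := by
    intro i
    simp only [Z]
    split_ifs
    · rw [mul_pow, hε1, one_mul]
    · rw [one_mul]
  have hZy : ∀ b, ∏ i with X.blk i = b, Z i = ε b * ∏ i with X.blk i = b, Y i := by
    intro b
    simp only [Z]
    rw [Finset.prod_mul_distrib]
    congr 1
    have h3 : ∏ i with X.blk i = b, (if i = ib (X.blk i) then ε (X.blk i) else 1) =
        ∏ i with X.blk i = b, (if i = ib b then ε b else 1) := by
      refine Finset.prod_congr rfl fun i hi => ?_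
      rw [(Finset.mem_filter.1 hi).2]
    rw [h3, Finset.prod_ite_eq' _ (ib b) (fun _ => ε b), if_pos]
    rw [Finset.mem_filter]
    exact ⟨Finset.mem_univ _, hib b⟩
  have hscl : ∀ D : Place k X.L →₀ ℤ, TInc.scl (fun _ => (1 : kˣ)) D = 1 := by
    intro D
    simp [TInc.scl, Finsupp.prod]
  refine ⟨w.z, fun i => some (w.x i / w.z i, Z i), hz, fun i => ?_, ?_⟩
  · change Z i ^ 2 = (w.x i / w.z i) ^ 3 - 3 * TInc.val w.c (X.cub.α i) * (w.x i / w.z i) +
      TInc.val w.c (X.cub.B i)
    rw [hZ, hY]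
  · refine Crd.ext rfl ?_ ?_ ?_
    · funext i
      change w.x i = w.z i * (w.x i / w.z i / TInc.scl (fun _ => (1 : kˣ)) (X.D i))
      rw [hscl, div_one, mul_div_cancel₀ _ (hz i)]
    · funext i
      change w.z i = w.z i * 1
      rw [mul_one]
    · funext b
      change w.y b = (∏ i with X.blk i = b, w.z i) ^ 2 *
        ((∏ i with X.blk i = b, Z i) / TInc.scl (fun _ => (1 : kˣ)) (X.M b) ^ 3)
      rw [hscl, one_pow, div_one, hZy, hε2, Finset.prod_mul_distrib, Finset.prod_pow]
      ring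

end Pool.Agent.EFC
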