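import Pool.Agent.EFC.Basic
import Pool.Agent.VFP.Util

/-!
# Values of points
-/

set_option autoImplicit false

noncomputable section

namespace Pool.Agent.EFC

open Pool.Agent.ZCyc
open Pool.Agent.VFP (Om tt)

variable {k : Type} [Field k] [IsAlgClosed k] [CharZero k] {X : EC k}

omit [IsAlgClosed k] [CharZero k] in
private theorem value_mult (v : Place k (Om k)) {a b : Om k} (h : a ≠ 0 ∨ b ≠ 0) :
    ∃ c : Om k, c ≠ 0 ∧ c * a ∈ v.ring ∧ c * b ∈ v.ring ∧ (c * a = 1 ∨ c * b = 1) := by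
  by_cases ha : a ≠ 0 ∧ b / a ∈ v.ring
  · refine ⟨a⁻¹, inv_ne_zero ha.1, ?_, ?_, Or.inl (inv_mul_cancel₀ ha.1)⟩
    · rw [inv_mul_cancel₀ ha.1]
      exact one_mem _
    · rw [mul_comm, ← div_eq_mul_inv]
      exact ha.2
  · have hb : b ≠ 0 ∧ a / b ∈ v.ring := by
      by_cases ha0 : a = 0
      · have hb0 : b ≠ 0 := h.resolve_left fun h' => h' ha0
        refine ⟨hb0, ?_⟩
        rw [ha0, zero_div]
        exact zero_mem _
      · have h1 : b / a ∉ v.ring := fun h' => ha ⟨ha0, h'⟩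
        have hb0 : b ≠ 0 := by
          rintro rfl
          apply h1
          rw [zero_div]
          exact zero_mem _
        refine ⟨hb0, ?_⟩
        rcases v.ring.mem_or_inv_mem (b / a) with h2 | h2
        · exact absurd h2 h1
        · rwa [inv_div] at h2
    refine ⟨b⁻¹, inv_ne_zero hb.1, ?_, ?_, Or.inr (inv_mul_cancel₀ hb.1)⟩
    · rw [mul_comm, ← div_eq_mul_inv]
      exact hb.2
    · rw [inv_mul_cancel₀ hb.1]
      exact one_mem _

omit [IsAlgClosed k] [CharZero k] in
private theorem value_at_prod {v : Place k (Om k)} {I : Type*} (S : Finset I) {f : I → Om k}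
    {f' : I → k} (h : ∀ i ∈ S, v.At (f i) (f' i)) : v.At (∏ i ∈ S, f i) (∏ i ∈ S, f' i) := by
  classical
  induction S using Finset.induction_on with
  | empty => simpa using VFP.at_one (v := v)
  | insert a S ha ih =>
    rw [Finset.prod_insert ha, Finset.prod_insert ha]
    exact (h a (Finset.mem_insert_self _ _)).mul
      (ih fun i hi => h i (Finset.mem_insert_of_mem hi))

omit [IsAlgClosed k] [CharZero k] in
private theorem value_zpow {I : Type*} (S : Finset I) {p : Om k} (hp : p ≠ 0) (e : I → ℤ) :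
    ∏ i ∈ S, p ^ e i = p ^ ∑ i ∈ S, e i := by
  classical
  induction S using Finset.induction_on with
  | empty => simp
  | insert a S ha ih => rw [Finset.prod_insert ha, Finset.sum_insert ha, ih, zpow_add₀ hp]

/-- The variety is complete. Take the value `c` of the point of the curve (`exists_baseValue`), put
`π = unifO w.s c`, and choose `m i` as `1 / (π ^ D_i x_i)` or `1 / z_i` (the element which has the
larger pole); then the `y_b` have values because their squares have (`VFP.exists_sq_at`). Adapt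
`Pool.Agent.TInf.exists_isValue` (`TInf/GeoPt.lean`). The local equation:
`fac (a π ^ (2 D)) (b π ^ (3 D)) (m π ^ D x) (m z) = m ^ 4 π ^ (3 D) fac a b x z`. -/
theorem exists_isValue (v : Place k (Om k)) {w : CrdO X} (hw : w.On) :
    ∃ p : Crd X, p.On ∧ X.IsValue v w p := by
  obtain ⟨c, hc⟩ := exists_baseValue X.curve v w.s
  have hπ : unifO w.s c ≠ 0 := unifO_ne X.curve w.s c
  generalize hπd : unifO w.s c = π at hπ
  have h1 : ∀ i, ∃ m : Om k, m ≠ 0 ∧ m * (π ^ X.D i c * w.x i) ∈ v.ring ∧ m * w.z i ∈ v.ring ∧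
      (m * (π ^ X.D i c * w.x i) = 1 ∨ m * w.z i = 1) := by
    intro i
    refine value_mult v ?_
    rcases hw.1 i with h2 | h2
    · exact Or.inl (mul_ne_zero (zpow_ne_zero _ hπ) h2)
    · exact Or.inr h2
  choose m hm hmx hmz hm1 using h1
  have hx : ∀ i, ∃ a : k, v.At (m i * π ^ X.D i c * w.x i) a := by
    intro i
    apply DCI57.exists_at v
    rw [mul_assoc]
    exact hmx i
  have hz : ∀ i, ∃ a : k, v.At (m i * w.z i) a := fun i => DCI57.exists_at v (hmz i)
  choose x₀ hx₀ using hx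
  choose z₀ hz₀ using hz
  have hf : ∀ i, v.At (fac (X.coAO w.s i * π ^ (2 * X.D i c)) (X.coBO w.s i * π ^ (3 * X.D i c))
      (m i * π ^ X.D i c * w.x i) (m i * w.z i))
      (fac (X.coA c i) (X.coB c i) (x₀ i) (z₀ i)) := by
    intro i
    have hA := at_coA hc i
    have hB := at_coB hc i
    rw [hπd] at hA hB
    exact (hz₀ i).mul ((((hx₀ i).pow 3).add ((hA.mul (hx₀ i)).mul ((hz₀ i).pow 2))).add
      (hB.mul ((hz₀ i).pow 3)))
  have hfac : ∀ i, fac (X.coAO w.s i * π ^ (2 * X.D i c)) (X.coBO w.s i * π ^ (3 * X.D i c))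
      (m i * π ^ X.D i c * w.x i) (m i * w.z i) =
      m i ^ 4 * π ^ (3 * X.D i c) * fac (X.coAO w.s i) (X.coBO w.s i) (w.x i) (w.z i) := by
    intro i
    have e2 : π ^ (2 * X.D i c) = (π ^ X.D i c) ^ 2 := by
      rw [mul_comm, zpow_mul]
      norm_cast
    have e3 : π ^ (3 * X.D i c) = (π ^ X.D i c) ^ 3 := by
      rw [mul_comm, zpow_mul]
      norm_cast
    unfold fac
    rw [e2, e3]
    ring
  have hsq : ∀ b, ((∏ i with X.blk i = b, m i) ^ 2 *
      π ^ (3 * ((∑ i with X.blk i = b, X.D i c) / 2)) * w.y b) ^ 2 =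
      ∏ i with X.blk i = b, fac (X.coAO w.s i * π ^ (2 * X.D i c))
        (X.coBO w.s i * π ^ (3 * X.D i c)) (m i * π ^ X.D i c * w.x i) (m i * w.z i) := by
    intro b
    rw [Finset.prod_congr rfl fun i _ => hfac i, Finset.prod_mul_distrib,
      Finset.prod_mul_distrib, ← hw.2 b, Finset.prod_pow, value_zpow _ hπ, ← Finset.mul_sum]
    obtain ⟨n, hn⟩ := X.even b c
    rw [hn]
    have e1 : (n + n) / 2 = n := by omega
    rw [e1]
    have e2 : π ^ (3 * (n + n)) = (π ^ (3 * n)) ^ 2 := by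
      rw [show 3 * (n + n) = 3 * n * 2 by ring, zpow_mul]
      norm_cast
    rw [e2]
    ring
  have h2 : ∀ b, ∃ d : k, v.At ((∏ i with X.blk i = b, m i) ^ 2 *
      π ^ (3 * ((∑ i with X.blk i = b, X.D i c) / 2)) * w.y b) d ∧ d ^ 2 =
      ∏ i with X.blk i = b, fac (X.coA c i) (X.coB c i) (x₀ i) (z₀ i) := fun b =>
    VFP.exists_sq_at (hsq b) (value_at_prod _ fun i _ => hf i)
  choose y₀ hy₀ hy₁ using h2
  refine ⟨⟨c, x₀, z₀, y₀⟩, ⟨fun i => ?_, fun b => hy₁ b⟩, hc, m, fun i => ?_, fun i => hz₀ i,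
    fun b => ?_⟩
  · rcases hm1 i with h4 | h4
    · left
      have h5 := hx₀ i
      rw [mul_assoc, h4] at h5
      have h6 := h5.unique VFP.at_one
      show x₀ i ≠ 0
      rw [h6]
      exact one_ne_zero
    · right
      have h5 := hz₀ i
      rw [h4] at h5
      have h6 := h5.unique VFP.at_one
      show z₀ i ≠ 0
      rw [h6]
      exact one_ne_zero
  · show v.At (m i * unifO w.s c ^ X.D i c * w.x i) (x₀ i)
    rw [hπd]
    exact hx₀ i
  · show v.At ((∏ i with X.blk i = b, m i) ^ 2 *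
      unifO w.s c ^ (3 * ((∑ i with X.blk i = b, X.D i c) / 2)) * w.y b) (y₀ b)
    rw [hπd]
    exact hy₀ b

/-- the same for tuples -/
theorem exists_isValueN (v : Place k (Om k)) {n : ℕ} {w : Fin n → CrdO X}
    (hw : ∀ j, (w j).On) : ∃ p : Fin n → Crd X, (∀ j, (p j).On) ∧
      ∀ j, X.IsValue v (w j) (p j) := by
  choose p h1 h2 using fun j => exists_isValue v (hw j)
  exact ⟨p, h1, h2⟩

/-- The point `p` is over the place below `v`. -/
theorem isValue_c {v : Place k (Om k)} {w : CrdO X} {p : Crd X} (h : X.IsValue v w p)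
    {c : Place k X.L} (hc : BaseValue v w.s c) : p.c = c := h.1.unique hc

/-- If `z_i ≠ 0` and `π ^ D_i x_i / z_i` has a pole, or if `z_i = 0`, then the value has
`z_i = 0`. -/
theorem isValue_z {v : Place k (Om k)} {w : CrdO X} {p : Crd X} (h : X.IsValue v w p)
    {i : Fin X.N} (hi : w.z i = 0 ∨ unifO w.s p.c ^ X.D i p.c * w.x i / w.z i ∉ v.ring) :
    p.z i = 0 := by
  obtain ⟨-, m, h1, h2, -⟩ := h
  have h3 : v.At (m i * unifO w.s p.c ^ X.D i p.c * w.x i) (p.x i) := h1 i
  have h4 : v.At (m i * w.z i) (p.z i) := h2 i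
  rcases hi with hi | hi
  · rw [hi, mul_zero] at h4
    exact h4.unique VFP.at_zero
  · by_contra hne
    apply hi
    have hm : m i ≠ 0 := by
      intro h0
      rw [h0, zero_mul] at h4
      exact hne (h4.unique VFP.at_zero)
    have h5 := h3.div h4 hne
    rw [mul_assoc, mul_div_mul_left _ _ hm] at h5
    exact h5.mem

end Pool.Agent.EFC
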